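import Mathlib

/-!
The cost of adding a vertex to a set of vertices, and completable sets.
-/

namespace Pool.Agent.LCW

open Relation

variable {V W : Type}

/-- the neighbours of `u` outside `S` -/
def row (adj : V → V → Prop) (S : Set V) (u : V) : Set V := {z | z ∉ S ∧ adj u z}

/-- `x` can be added to the class of vertices of `S` that have the same neighbours outside `S`:
the class is not empty and each of its members is adjacent to all neighbours of `x` in `S`. -/
def Mergeable (adj : V → V → Prop) (S : Set V) (x : V) : Prop :=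
  (∃ b ∈ S, row adj S b = row adj S x) ∧
    ∀ b ∈ S, row adj S b = row adj S x → ∀ z ∈ S, adj x z → adj b z

open Classical in
/-- the number of labels needed to add `x` to `S` -/
noncomputable def cost (adj : V → V → Prop) (S : Set V) (x : V) : ℕ :=
  (row adj S '' S).ncard + if Mergeable adj S x then 0 else 1

/-- one step of a linear layout -/
def Step (adj : V → V → Prop) (c : ℕ) (S S' : Set V) : Prop :=
  ∃ x, x ∉ S ∧ S' = insert x S ∧ cost adj S x ≤ c

/-- the rest of the vertices can be added to `S`, at cost at most `c` each -/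
def Comp (adj : V → V → Prop) (c : ℕ) (S : Set V) : Prop :=
  ReflTransGen (Step adj c) S Set.univ

/-! ### invariance under isomorphism -/

section equiv

variable (e : V ≃ W) {adj : V → V → Prop} {adj' : W → W → Prop}
  (h : ∀ u v, adj' (e u) (e v) ↔ adj u v)

include h

theorem row_equiv (S : Set V) (u : V) : row adj' (e '' S) (e u) = e '' row adj S u := by
  ext z
  obtain ⟨z, rfl⟩ := e.surjective z
  simp only [row, Set.mem_ofPred_eq, Set.mem_image, EmbeddingLike.apply_eq_iff_eq, exists_eq_right, h]

theorem mergeable_equiv (S : Set V) (x : V) :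
    Mergeable adj' (e '' S) (e x) ↔ Mergeable adj S x := by
  have hinj : Function.Injective (fun s : Set V => e '' s) := Set.image_injective.mpr e.injective
  unfold Mergeable
  constructor
  · rintro ⟨⟨b, ⟨b, hb, rfl⟩, hbx⟩, h2⟩
    refine ⟨⟨b, hb, ?_⟩, ?_⟩
    · rw [row_equiv e h, row_equiv e h] at hbx
      exact hinj hbx
    · intro b hb hbx z hz hxz
      have := h2 (e b) ⟨b, hb, rfl⟩ (by rw [row_equiv e h, row_equiv e h, hbx]) (e z) ⟨z, hz, rfl⟩
        ((h x z).mpr hxz)
      exact (h b z).mp this
  · rintro ⟨⟨b, hb, hbx⟩, h2⟩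
    refine ⟨⟨e b, ⟨b, hb, rfl⟩, by rw [row_equiv e h, row_equiv e h, hbx]⟩, ?_⟩
    rintro _ ⟨b, hb, rfl⟩ hbx _ ⟨z, hz, rfl⟩ hxz
    rw [row_equiv e h, row_equiv e h] at hbx
    exact (h b z).mpr (h2 b hb (hinj hbx) z hz ((h x z).mp hxz))

theorem cost_equiv (S : Set V) (x : V) : cost adj' (e '' S) (e x) = cost adj S x := by
  classical
  have hinj : Function.Injective (fun s : Set V => e '' s) := Set.image_injective.mpr e.injective
  unfold cost
  congr 1
  · have : row adj' (e '' S) '' (e '' S) = (fun s : Set V => e '' s) '' (row adj S '' S) := by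
      ext t
      constructor
      · rintro ⟨_, ⟨u, hu, rfl⟩, rfl⟩
        exact ⟨row adj S u, ⟨u, hu, rfl⟩, (row_equiv e h S u).symm⟩
      · rintro ⟨_, ⟨u, hu, rfl⟩, rfl⟩
        exact ⟨e u, ⟨u, hu, rfl⟩, row_equiv e h S u⟩
    rw [this, Set.ncard_image_of_injective _ hinj]
  · simp only [mergeable_equiv e h]

theorem step_equiv {c : ℕ} {S S' : Set V} (hs : Step adj c S S') :
    Step adj' c (e '' S) (e '' S') := by
  obtain ⟨x, hx, rfl, hc⟩ := hs
  refine ⟨e x, ?_, ?_, ?_⟩
  · rintro ⟨y, hy, hyx⟩
    exact hx (e.injective hyx ▸ hy)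
  · rw [Set.image_insert_eq]
  · rw [cost_equiv e h]; exact hc

theorem comp_equiv {c : ℕ} {S : Set V} (hs : Comp adj c S) : Comp adj' c (e '' S) := by
  unfold Comp at hs ⊢
  rw [← Set.image_univ_of_surjective e.surjective]
  exact ReflTransGen.lift (fun s : Set V => e '' s) (fun a b hab => step_equiv e h hab) _ _ hs

end equiv

theorem comp_equiv_iff (e : V ≃ W) {adj : V → V → Prop} {adj' : W → W → Prop}
    (h : ∀ u v, adj' (e u) (e v) ↔ adj u v) {c : ℕ} {S : Set V} :
    Comp adj' c (e '' S) ↔ Comp adj c S := by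
  refine ⟨fun hs => ?_, comp_equiv e h⟩
  have := comp_equiv e.symm (adj := adj') (adj' := adj) (fun u v => by
    rw [← h]; simp) hs
  simpa using this

/-- completability with fewer labels implies completability with more -/
theorem Comp.mono {adj : V → V → Prop} {c d : ℕ} {S : Set V} (h : Comp adj c S) (hcd : c ≤ d) :
    Comp adj d S :=
  ReflTransGen.mono (fun _ _ ⟨x, h1, h2, h3⟩ => ⟨x, h1, h2, h3.trans hcd⟩) _ _ h

/-- the number of classes of a completable set is at most `c` -/
theorem Comp.ncard_le {adj : V → V → Prop} {c : ℕ} {S : Set V} (h : Comp adj c S) (hc : 1 ≤ c) :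
    (row adj S '' S).ncard ≤ c := by
  unfold Comp at h
  rcases ReflTransGen.cases_head h with rfl | ⟨S', ⟨x, _, _, h1⟩, _⟩
  · have : row adj Set.univ '' Set.univ ⊆ {∅} := by
      rintro _ ⟨u, _, rfl⟩
      simp [row]
    exact ((Set.ncard_le_ncard this).trans (by simp)).trans hc
  · unfold cost at h1
    omega

end Pool.Agent.LCW
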