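import Mathlib
import Pool.Agent.LCW.Cost

/-!
Completability is inherited by induced subgraphs.
-/

namespace Pool.Agent.LCW

open Relation

variable {V W : Type} {adj : V → V → Prop} {adj' : W → W → Prop} {φ : W → V}

theorem row_preimage (h : ∀ a b, adj' a b ↔ adj (φ a) (φ b)) (S : Set V) (u : W) :
    row adj' (φ ⁻¹' S) u = φ ⁻¹' row adj S (φ u) := by
  ext z
  simp only [row, Set.mem_ofPred_eq, Set.mem_preimage, h]

theorem cost_le_induced [Finite V] (h : ∀ a b, adj' a b ↔ adj (φ a) (φ b)) (S : Set V) (w : W) :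
    cost adj' (φ ⁻¹' S) w ≤ cost adj S (φ w) := by
  classical
  set R := row adj S (φ w) with hR
  -- all rows below are preimages of rows above
  have hsub : row adj' (φ ⁻¹' S) '' (φ ⁻¹' S) ⊆ (fun T => φ ⁻¹' T) '' (row adj S '' S) := by
    rintro _ ⟨u, hu, rfl⟩
    exact ⟨row adj S (φ u), ⟨φ u, hu, rfl⟩, (row_preimage h S u).symm⟩
  have hle : (row adj' (φ ⁻¹' S) '' (φ ⁻¹' S)).ncard ≤ (row adj S '' S).ncard :=
    (Set.ncard_le_ncard hsub (Set.toFinite _)).trans (Set.ncard_image_le (Set.toFinite _))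
  unfold cost
  by_cases h1 : Mergeable adj' (φ ⁻¹' S) w
  · rw [if_pos h1]; omega
  rw [if_neg h1]
  by_cases h2 : Mergeable adj S (φ w)
  swap
  · rw [if_neg h2]; omega
  rw [if_pos h2]
  obtain ⟨⟨b, hb, hbR⟩, h3⟩ := h2
  -- the preimages of the rows different from `R` are enough
  have hsub' : row adj' (φ ⁻¹' S) '' (φ ⁻¹' S) ⊆
      (fun T => φ ⁻¹' T) '' ((row adj S '' S) \ {R}) := by
    by_cases h4 : ∃ b' ∈ φ ⁻¹' S, φ ⁻¹' row adj S (φ b') = φ ⁻¹' R ∧ row adj S (φ b') ≠ R
    · obtain ⟨b', hb', e1, e2⟩ := h4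
      rintro _ ⟨u, hu, rfl⟩
      by_cases h5 : row adj S (φ u) = R
      · refine ⟨row adj S (φ b'), ⟨⟨φ b', hb', rfl⟩, e2⟩, ?_⟩
        rw [row_preimage h, h5]
        exact e1
      · exact ⟨row adj S (φ u), ⟨⟨φ u, hu, rfl⟩, h5⟩, (row_preimage h S u).symm⟩
    · push Not at h4
      rintro _ ⟨u, hu, rfl⟩
      by_cases h5 : row adj S (φ u) = R
      · exfalso
        apply h1
        refine ⟨⟨u, hu, ?_⟩, ?_⟩
        · rw [row_preimage h, row_preimage h, h5]
        · intro b' hb' hr z hz hwz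
          rw [row_preimage h, row_preimage h] at hr
          have := h4 b' hb' hr
          rw [h] at hwz ⊢
          exact h3 (φ b') hb' this (φ z) hz hwz
      · exact ⟨row adj S (φ u), ⟨⟨φ u, hu, rfl⟩, h5⟩, (row_preimage h S u).symm⟩
  have hlt : ((row adj S '' S) \ {R}).ncard + 1 = (row adj S '' S).ncard :=
    Set.ncard_sdiff_singleton_add_one ⟨b, hb, hbR⟩ (Set.toFinite _)
  have := (Set.ncard_le_ncard hsub' (Set.toFinite _)).trans (Set.ncard_image_le (Set.toFinite _))
  omega

/-- completability is inherited by induced subgraphs -/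
theorem Comp.induced [Finite V] (hφ : Function.Injective φ)
    (h : ∀ a b, adj' a b ↔ adj (φ a) (φ b)) {c : ℕ} {S : Set V} (hS : Comp adj c S) :
    Comp adj' c (φ ⁻¹' S) := by
  unfold Comp at hS ⊢
  induction hS using ReflTransGen.head_induction_on with
  | refl => exact ReflTransGen.refl
  | @head T _ hs _ ih =>
    obtain ⟨x, hx, rfl, hc⟩ := hs
    by_cases hxr : ∃ w, φ w = x
    · obtain ⟨w, rfl⟩ := hxr
      refine ReflTransGen.head ⟨w, hx, ?_, (cost_le_induced h _ w).trans hc⟩ ih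
      ext z
      simp only [Set.mem_preimage, Set.mem_insert_iff, hφ.eq_iff]
    · have : φ ⁻¹' (insert x T) = φ ⁻¹' T := by
        ext z
        simp only [Set.mem_preimage, Set.mem_insert_iff, or_iff_right_iff_imp]
        intro hz
        exact absurd ⟨z, hz⟩ hxr
      rw [this] at ih
      exact ih

end Pool.Agent.LCW
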