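import Mathlib
import Pool.Agent.LCW.Cost

/-!
The cost of adding a vertex in a graph that is glued from a left and a right part, whose mutual
adjacency is given by finitely many labels on each side.
-/

namespace Pool.Agent.LCW

/-- finite monotone information about one side -/
@[ext] structure Mu (A B : Type) where
  T : Set A
  P : Set A
  E1 : Set (A × B)
  E2 : Set (A × B)

section side

variable {V A B : Type} (adj : V → V → Prop) (lab : V → A) (M : A → B → Prop)

/-- outside `X`, the neighbours of `u` are the vertices whose labels are related to `b` -/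
def Hom (X : Set V) (u : V) (b : B) : Prop := ∀ z, z ∉ X → (adj u z ↔ M (lab z) b)

/-- the monotone information -/
def mu (X : Set V) : Mu A B where
  T := {a | ∃ z, z ∉ X ∧ lab z = a}
  P := {a | ∃ z, z ∈ X ∧ lab z = a}
  E1 := {p | ∃ u, u ∈ X ∧ lab u = p.1 ∧ Hom adj lab M X u p.2}
  E2 := {p | ∃ u, u ∈ X ∧ lab u = p.1 ∧ Hom adj lab M X u p.2 ∧
    ∃ z, z ∈ X ∧ M (lab z) p.2 ∧ ¬ adj u z}

/-- the labels in `T'` related to `a` -/
def patt (T' : Set B) (a : A) : Set B := {b | b ∈ T' ∧ M a b}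

/-- number of classes of vertices of `X` that are not homogeneous -/
noncomputable def nn (X : Set V) (T' : Set B) : ℕ :=
  ((fun u => (row adj X u, patt M T' (lab u))) ''
    {u | u ∈ X ∧ ¬ ∃ b, Hom adj lab M X u b}).ncard

/-- is `x` mergeable, given the information `ν` about the other side? -/
def mg (X : Set V) (x : V) (ν : Mu B A) : Prop :=
  ((∃ u, u ∈ X ∧ row adj X u = row adj X x ∧ patt M ν.T (lab u) = patt M ν.T (lab x)) ∨
      ∃ b, Hom adj lab M X x b ∧ (b, lab x) ∈ ν.E1) ∧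
    (∀ u, u ∈ X → row adj X u = row adj X x → patt M ν.T (lab u) = patt M ν.T (lab x) →
      (∀ z, z ∈ X → adj x z → adj u z) ∧ ∀ b, b ∈ ν.P → M (lab x) b → M (lab u) b) ∧
    ∀ b, Hom adj lab M X x b → (b, lab x) ∈ ν.E1 →
      (∀ z, z ∈ X → adj x z → M (lab z) b) ∧ (b, lab x) ∉ ν.E2

/-- key of a pair of labels -/
def kap (μ : Mu A B) (ν : Mu B A) (p : A × B) : Set A × Set B :=
  ({a | a ∈ μ.T ∧ M a p.2}, {b | b ∈ ν.T ∧ M p.1 b})

/-- number of homogeneous classes -/
noncomputable def FF (μ : Mu A B) (ν : Mu B A) : ℕ :=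
  (kap M μ ν '' {p | p ∈ μ.E1 ∨ (p.2, p.1) ∈ ν.E1}).ncard

theorem hom_iff (X : Set V) (u : V) (b : B) :
    Hom adj lab M X u b ↔ row adj X u = {z | z ∉ X ∧ M (lab z) b} := by
  unfold Hom row
  constructor
  · intro h
    ext z
    simp only [Set.mem_ofPred_eq]
    constructor
    · rintro ⟨h1, h2⟩; exact ⟨h1, (h z h1).mp h2⟩
    · rintro ⟨h1, h2⟩; exact ⟨h1, (h z h1).mpr h2⟩
  · intro h z hz
    have := Set.ext_iff.mp h z
    simp only [Set.mem_ofPred_eq, hz, not_false_eq_true, true_and] at this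
    exact this

/-! monotonicity -/

variable {adj lab M}

theorem Hom.mono {X X' : Set V} (h : X ⊆ X') {u : V} {b : B} (hu : Hom adj lab M X u b) :
    Hom adj lab M X' u b := fun z hz => hu z (fun hz' => hz (h hz'))

theorem mu_T_anti {X X' : Set V} (h : X ⊆ X') :
    (mu adj lab M X').T ⊆ (mu adj lab M X).T := by
  rintro a ⟨z, hz, rfl⟩
  exact ⟨z, fun hz' => hz (h hz'), rfl⟩

theorem mu_P_mono {X X' : Set V} (h : X ⊆ X') :
    (mu adj lab M X).P ⊆ (mu adj lab M X').P := by
  rintro a ⟨z, hz, rfl⟩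
  exact ⟨z, h hz, rfl⟩

theorem mu_E1_mono {X X' : Set V} (h : X ⊆ X') :
    (mu adj lab M X).E1 ⊆ (mu adj lab M X').E1 := by
  rintro ⟨a, b⟩ ⟨u, hu, h1, h2⟩
  exact ⟨u, h hu, h1, h2.mono h⟩

theorem mu_E2_mono {X X' : Set V} (h : X ⊆ X') :
    (mu adj lab M X).E2 ⊆ (mu adj lab M X').E2 := by
  rintro ⟨a, b⟩ ⟨u, hu, h1, h2, z, hz, h3, h4⟩
  exact ⟨u, h hu, h1, h2.mono h, z, h hz, h3, h4⟩

/-- rank of the monotone information -/
noncomputable def rank {A B : Type} (m : Mu A B) : ℕ :=
  (m.Tᶜ).ncard + m.P.ncard + m.E1.ncard + m.E2.ncard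

theorem rank_le {A B : Type} [Finite A] [Finite B] (m : Mu A B) :
    rank m ≤ 2 * Nat.card A + 2 * (Nat.card A * Nat.card B) := by
  unfold rank
  have h1 := Set.ncard_le_card (m.Tᶜ)
  have h2 := Set.ncard_le_card m.P
  have h3 := Set.ncard_le_card m.E1
  have h4 := Set.ncard_le_card m.E2
  rw [Nat.card_prod] at h3 h4
  omega

theorem rank_lt [Finite A] [Finite B] {X X' : Set V} (h : X ⊆ X')
    (hne : mu adj lab M X ≠ mu adj lab M X') :
    rank (mu adj lab M X) < rank (mu adj lab M X') := by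
  have hT : (mu adj lab M X).Tᶜ ⊆ (mu adj lab M X').Tᶜ :=
    Set.compl_subset_compl.mpr (mu_T_anti h)
  have hP : (mu adj lab M X).P ⊆ (mu adj lab M X').P := mu_P_mono h
  have h1 : (mu adj lab M X).E1 ⊆ (mu adj lab M X').E1 := mu_E1_mono h
  have h2 : (mu adj lab M X).E2 ⊆ (mu adj lab M X').E2 := mu_E2_mono h
  have cT := Set.ncard_le_ncard hT
  have cP := Set.ncard_le_ncard hP
  have c1 := Set.ncard_le_ncard h1
  have c2 := Set.ncard_le_ncard h2
  unfold rank
  by_contra hc
  apply hne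
  have eT : (mu adj lab M X).Tᶜ.ncard = (mu adj lab M X').Tᶜ.ncard := by omega
  have eP : (mu adj lab M X).P.ncard = (mu adj lab M X').P.ncard := by omega
  have e1 : (mu adj lab M X).E1.ncard = (mu adj lab M X').E1.ncard := by omega
  have e2 : (mu adj lab M X).E2.ncard = (mu adj lab M X').E2.ncard := by omega
  apply Mu.ext
  · exact compl_injective (Set.eq_of_subset_of_ncard_le hT eT.ge)
  · exact Set.eq_of_subset_of_ncard_le hP eP.ge
  · exact Set.eq_of_subset_of_ncard_le h1 e1.ge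
  · exact Set.eq_of_subset_of_ncard_le h2 e2.ge

end side

/-! ### glueing -/

section glue

variable {L R A B : Type}

/-- adjacency of the glued graph -/
def glueAdj (aL : L → L → Prop) (aR : R → R → Prop) (lab : L → A) (typ : R → B)
    (M : A → B → Prop) : L ⊕ R → L ⊕ R → Prop
  | Sum.inl u, Sum.inl v => aL u v
  | Sum.inr u, Sum.inr v => aR u v
  | Sum.inl u, Sum.inr v => M (lab u) (typ v)
  | Sum.inr v, Sum.inl u => M (lab u) (typ v)

/-- a set given by its two parts -/
def both (X : Set L) (Y : Set R) : Set (L ⊕ R) := Sum.inl '' X ∪ Sum.inr '' Y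

@[simp] theorem inl_mem_both {X : Set L} {Y : Set R} {u : L} : Sum.inl u ∈ both X Y ↔ u ∈ X := by
  simp [both]

@[simp] theorem inr_mem_both {X : Set L} {Y : Set R} {v : R} : Sum.inr v ∈ both X Y ↔ v ∈ Y := by
  simp [both]

theorem both_inj {X X' : Set L} {Y Y' : Set R} : both X Y = both X' Y' ↔ X = X' ∧ Y = Y' := by
  constructor
  · intro h
    constructor
    · ext u; have := Set.ext_iff.mp h (Sum.inl u); simpa using this
    · ext u; have := Set.ext_iff.mp h (Sum.inr u); simpa using this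
  · rintro ⟨rfl, rfl⟩; rfl

theorem insert_inl_both (X : Set L) (Y : Set R) (x : L) :
    insert (Sum.inl x) (both X Y) = both (insert x X) Y := by
  ext s
  rcases s with u | v <;> simp

theorem insert_inr_both (X : Set L) (Y : Set R) (y : R) :
    insert (Sum.inr y) (both X Y) = both X (insert y Y) := by
  ext s
  rcases s with u | v <;> simp

theorem both_univ : both (Set.univ : Set L) (Set.univ : Set R) = Set.univ := by
  ext s
  rcases s with u | v <;> simp

theorem both_preimage (S : Set (L ⊕ R)) :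
    both (Sum.inl ⁻¹' S) (Sum.inr ⁻¹' S) = S := by
  ext s
  rcases s with u | v <;> simp

variable (aL : L → L → Prop) (aR : R → R → Prop) (lab : L → A) (typ : R → B) (M : A → B → Prop)

theorem row_inl (X : Set L) (Y : Set R) (u : L) :
    row (glueAdj aL aR lab typ M) (both X Y) (Sum.inl u) =
      both (row aL X u) {z | z ∉ Y ∧ M (lab u) (typ z)} := by
  ext s
  rcases s with z | z <;> simp [row, glueAdj]

theorem row_inr (X : Set L) (Y : Set R) (v : R) :
    row (glueAdj aL aR lab typ M) (both X Y) (Sum.inr v) =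
      both {z | z ∉ X ∧ M (lab z) (typ v)} (row aR Y v) := by
  ext s
  rcases s with z | z <;> simp [row, glueAdj]

theorem ncard_image_eq_of_ker {α β γ : Type*} (E : Set α) (f : α → β) (g : α → γ)
    (h : ∀ p ∈ E, ∀ q ∈ E, f p = f q ↔ g p = g q) : (f '' E).ncard = (g '' E).ncard := by
  classical
  refine Set.ncard_congr (fun b hb => g (Classical.choose hb)) ?_ ?_ ?_
  · intro b hb
    exact ⟨_, (Classical.choose_spec hb).1, rfl⟩
  · intro b b' hb hb' hg
    have h1 := Classical.choose_spec hb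
    have h2 := Classical.choose_spec hb'
    rw [← h1.2, ← h2.2]
    exact (h _ h1.1 _ h2.1).mpr hg
  · rintro _ ⟨p, hp, rfl⟩
    refine ⟨f p, ⟨p, hp, rfl⟩, ?_⟩
    have hb : f p ∈ f '' E := ⟨p, hp, rfl⟩
    have h1 := Classical.choose_spec hb
    exact (h _ h1.1 _ hp).mp h1.2

/-- kernel of the homogeneous left rows -/
theorem homL_eq_iff (X : Set L) (b b' : B) :
    ({z | z ∉ X ∧ M (lab z) b} : Set L) = {z | z ∉ X ∧ M (lab z) b'} ↔
      ({a | a ∈ (mu aL lab M X).T ∧ M a b} : Set A) = {a | a ∈ (mu aL lab M X).T ∧ M a b'} := by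
  constructor
  · intro h
    ext a
    simp only [Set.mem_ofPred_eq]
    constructor
    · rintro ⟨⟨z, hz, rfl⟩, h2⟩
      exact ⟨⟨z, hz, rfl⟩, ((Set.ext_iff.mp h z).mp ⟨hz, h2⟩).2⟩
    · rintro ⟨⟨z, hz, rfl⟩, h2⟩
      exact ⟨⟨z, hz, rfl⟩, ((Set.ext_iff.mp h z).mpr ⟨hz, h2⟩).2⟩
  · intro h
    ext z
    simp only [Set.mem_ofPred_eq]
    constructor
    · rintro ⟨hz, h2⟩
      exact ⟨hz, ((Set.ext_iff.mp h (lab z)).mp ⟨⟨z, hz, rfl⟩, h2⟩).2⟩
    · rintro ⟨hz, h2⟩
      exact ⟨hz, ((Set.ext_iff.mp h (lab z)).mpr ⟨⟨z, hz, rfl⟩, h2⟩).2⟩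

theorem homR_eq_iff (Y : Set R) (a a' : A) :
    ({z | z ∉ Y ∧ M a (typ z)} : Set R) = {z | z ∉ Y ∧ M a' (typ z)} ↔
      ({b | b ∈ (mu aR typ (fun b a => M a b) Y).T ∧ M a b} : Set B) =
        {b | b ∈ (mu aR typ (fun b a => M a b) Y).T ∧ M a' b} :=
  homL_eq_iff (aL := aR) (lab := typ) (M := fun b a => M a b) Y a a'

theorem homR_eq_iff' (Y : Set R) (a a' : A) :
    ({z | z ∉ Y ∧ M a (typ z)} : Set R) = {z | z ∉ Y ∧ M a' (typ z)} ↔
      patt M (mu aR typ (fun b a => M a b) Y).T a = patt M (mu aR typ (fun b a => M a b) Y).T a' :=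
  homR_eq_iff aR typ M Y a a'

/-- the number of classes of a set in the glued graph -/
theorem ncard_rows [Finite L] [Finite R] (X : Set L) (Y : Set R) :
    (row (glueAdj aL aR lab typ M) (both X Y) '' both X Y).ncard =
      FF M (mu aL lab M X) (mu aR typ (fun b a => M a b) Y) +
        nn aL lab M X (mu aR typ (fun b a => M a b) Y).T +
        nn aR typ (fun b a => M a b) Y (mu aL lab M X).T := by
  classical
  set μ := mu aL lab M X with hμ
  set ν := mu aR typ (fun b a => M a b) Y with hν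
  set rw' := row (glueAdj aL aR lab typ M) (both X Y) with hrw
  let fE : A × B → Set (L ⊕ R) := fun p =>
    both {z | z ∉ X ∧ M (lab z) p.2} {z | z ∉ Y ∧ M p.1 (typ z)}
  let E : Set (A × B) := {p | p ∈ μ.E1 ∨ (p.2, p.1) ∈ ν.E1}
  let NL : Set L := {u | u ∈ X ∧ ¬ ∃ b, Hom aL lab M X u b}
  let NR : Set R := {v | v ∈ Y ∧ ¬ ∃ a, Hom aR typ (fun b a => M a b) Y v a}
  let gL : L → Set (L ⊕ R) := fun u => both (row aL X u) {z | z ∉ Y ∧ M (lab u) (typ z)}
  let gR : R → Set (L ⊕ R) := fun v => both {z | z ∉ X ∧ M (lab z) (typ v)} (row aR Y v)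
  have hsplit : rw' '' both X Y = (fE '' E ∪ gL '' NL) ∪ gR '' NR := by
    ext t
    constructor
    · rintro ⟨s, hs, rfl⟩
      rcases s with u | v
      · have hu : u ∈ X := by simpa using hs
        by_cases hh : ∃ b, Hom aL lab M X u b
        · obtain ⟨b, hb⟩ := hh
          left; left
          refine ⟨(lab u, b), Or.inl ⟨u, hu, rfl, hb⟩, ?_⟩
          rw [hrw, row_inl]
          simp only [fE]
          rw [(hom_iff aL lab M X u b).mp hb]
        · left; right
          exact ⟨u, ⟨hu, hh⟩, by rw [hrw, row_inl]⟩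
      · have hv : v ∈ Y := by simpa using hs
        by_cases hh : ∃ a, Hom aR typ (fun b a => M a b) Y v a
        · obtain ⟨a, ha⟩ := hh
          left; left
          refine ⟨(a, typ v), Or.inr ⟨v, hv, rfl, ha⟩, ?_⟩
          rw [hrw, row_inr]
          simp only [fE]
          rw [(hom_iff aR typ (fun b a => M a b) Y v a).mp ha]
        · right
          exact ⟨v, ⟨hv, hh⟩, by rw [hrw, row_inr]⟩
    · rintro ((⟨⟨a, b⟩, hp | hp, rfl⟩ | ⟨u, ⟨hu, _⟩, rfl⟩) | ⟨v, ⟨hv, _⟩, rfl⟩)
      · obtain ⟨u, hu, h1, h2⟩ := hp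
        refine ⟨Sum.inl u, by simpa using hu, ?_⟩
        rw [hrw, row_inl]
        simp only [fE]
        simp only at h1 h2
        rw [(hom_iff aL lab M X u b).mp h2, h1]
      · obtain ⟨v, hv, h1, h2⟩ := hp
        refine ⟨Sum.inr v, by simpa using hv, ?_⟩
        rw [hrw, row_inr]
        simp only [fE]
        simp only at h1 h2
        rw [(hom_iff aR typ (fun b a => M a b) Y v a).mp h2, h1]
      · exact ⟨Sum.inl u, by simpa using hu, by rw [hrw, row_inl]⟩
      · exact ⟨Sum.inr v, by simpa using hv, by rw [hrw, row_inr]⟩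
  have hd1 : Disjoint (fE '' E) (gL '' NL) := by
    rw [Set.disjoint_left]
    rintro _ ⟨p, _, rfl⟩ ⟨u, ⟨_, hu⟩, h⟩
    apply hu
    refine ⟨p.2, (hom_iff aL lab M X u p.2).mpr ?_⟩
    exact (both_inj.mp h).1
  have hd2 : Disjoint (fE '' E ∪ gL '' NL) (gR '' NR) := by
    rw [Set.disjoint_left]
    rintro _ (⟨p, _, rfl⟩ | ⟨u, ⟨_, hu⟩, rfl⟩) ⟨v, ⟨_, hv⟩, h⟩
    · apply hv
      refine ⟨p.1, (hom_iff aR typ (fun b a => M a b) Y v p.1).mpr ?_⟩
      exact (both_inj.mp h).2
    · apply hu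
      refine ⟨typ v, (hom_iff aL lab M X u (typ v)).mpr ?_⟩
      exact (both_inj.mp h).1.symm
  rw [hsplit, Set.ncard_union_eq hd2, Set.ncard_union_eq hd1]
  congr 1
  · congr 1
    · unfold FF
      apply ncard_image_eq_of_ker
      intro p _ q _
      simp only [fE, kap, Prod.mk.injEq, both_inj]
      rw [homL_eq_iff aL lab M X p.2 q.2, homR_eq_iff aR typ M Y p.1 q.1]
    · unfold nn
      apply ncard_image_eq_of_ker
      intro p _ q _
      simp only [gL, Prod.mk.injEq, both_inj]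
      rw [homR_eq_iff' aR typ M Y (lab p) (lab q)]
  · unfold nn
    apply ncard_image_eq_of_ker
    intro p _ q _
    simp only [gR, Prod.mk.injEq, both_inj]
    rw [and_comm]
    rw [homL_eq_iff aL lab M X (typ p) (typ q)]
    rfl

/-- mergeability in the glued graph -/
theorem mergeable_glue (X : Set L) (Y : Set R) (x : L) :
    Mergeable (glueAdj aL aR lab typ M) (both X Y) (Sum.inl x) ↔
      mg aL lab M X x (mu aR typ (fun b a => M a b) Y) := by
  set ν := mu aR typ (fun b a => M a b) Y with hν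
  have hl : ∀ u : L, row (glueAdj aL aR lab typ M) (both X Y) (Sum.inl u) =
      row (glueAdj aL aR lab typ M) (both X Y) (Sum.inl x) ↔
      row aL X u = row aL X x ∧ patt M ν.T (lab u) = patt M ν.T (lab x) := by
    intro u
    rw [row_inl, row_inl, both_inj, homR_eq_iff' aR typ M Y]
  have hr : ∀ v : R, row (glueAdj aL aR lab typ M) (both X Y) (Sum.inr v) =
      row (glueAdj aL aR lab typ M) (both X Y) (Sum.inl x) ↔
      Hom aL lab M X x (typ v) ∧ Hom aR typ (fun b a => M a b) Y v (lab x) := by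
    intro v
    rw [row_inl, row_inr, both_inj, hom_iff, hom_iff]
    constructor
    · rintro ⟨h1, h2⟩; exact ⟨h1.symm, h2⟩
    · rintro ⟨h1, h2⟩; exact ⟨h1.symm, h2⟩
  unfold Mergeable mg
  constructor
  · rintro ⟨⟨s, hs, hsx⟩, hall⟩
    refine ⟨?_, ?_, ?_⟩
    · rcases s with u | v
      · left
        exact ⟨u, by simpa using hs, (hl u).mp hsx⟩
      · right
        obtain ⟨h1, h2⟩ := (hr v).mp hsx
        exact ⟨typ v, h1, v, by simpa using hs, rfl, h2⟩
    · intro u hu h1 h2
      have h3 := hall (Sum.inl u) (by simpa using hu) ((hl u).mpr ⟨h1, h2⟩)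
      refine ⟨fun z hz hxz => h3 (Sum.inl z) (by simpa using hz) hxz, ?_⟩
      rintro b ⟨w, hw, rfl⟩ hxb
      exact h3 (Sum.inr w) (by simpa using hw) hxb
    · rintro b hb ⟨v, hv, h1, h2⟩
      simp only at h1 h2
      subst h1
      have h3 := hall (Sum.inr v) (by simpa using hv) ((hr v).mpr ⟨hb, h2⟩)
      refine ⟨fun z hz hxz => h3 (Sum.inl z) (by simpa using hz) hxz, ?_⟩
      rintro ⟨v', hv', h1', h2', w, hw, h4, h5⟩
      simp only at h1' h2' h4
      have h3' := hall (Sum.inr v') (by simpa using hv') ((hr v').mpr ⟨by rw [h1']; exact hb, h2'⟩)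
      exact h5 (h3' (Sum.inr w) (by simpa using hw) h4)
  · rintro ⟨h1, h2, h3⟩
    refine ⟨?_, ?_⟩
    · rcases h1 with ⟨u, hu, h4, h5⟩ | ⟨b, hb, v, hv, h4, h5⟩
      · exact ⟨Sum.inl u, by simpa using hu, (hl u).mpr ⟨h4, h5⟩⟩
      · simp only at h4 h5
        subst h4
        exact ⟨Sum.inr v, by simpa using hv, (hr v).mpr ⟨hb, h5⟩⟩
    · intro s hs hsx t ht hxt
      rcases s with u | v
      · obtain ⟨h4, h5⟩ := h2 u (by simpa using hs) ((hl u).mp hsx).1 ((hl u).mp hsx).2
        rcases t with z | w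
        · exact h4 z (by simpa using ht) hxt
        · exact h5 (typ w) ⟨w, by simpa using ht, rfl⟩ hxt
      · obtain ⟨h4, h5⟩ := (hr v).mp hsx
        obtain ⟨h6, h7⟩ := h3 (typ v) h4 ⟨v, by simpa using hs, rfl, h5⟩
        rcases t with z | w
        · exact h6 z (by simpa using ht) hxt
        · by_contra hc
          exact h7 ⟨v, by simpa using hs, rfl, h5, w, by simpa using ht, hxt, hc⟩

open Classical in
/-- The cost formula. -/
theorem cost_glue [Finite L] [Finite R] (X : Set L) (Y : Set R) (x : L) :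
    cost (glueAdj aL aR lab typ M) (both X Y) (Sum.inl x) =
      FF M (mu aL lab M X) (mu aR typ (fun b a => M a b) Y) +
        nn aL lab M X (mu aR typ (fun b a => M a b) Y).T +
        nn aR typ (fun b a => M a b) Y (mu aL lab M X).T +
        if mg aL lab M X x (mu aR typ (fun b a => M a b) Y) then 0 else 1 := by
  unfold cost
  rw [ncard_rows]
  simp only [mergeable_glue]

/-- swapping the sides -/
theorem glueAdj_swap (s t : L ⊕ R) :
    glueAdj aR aL typ lab (fun b a => M a b) (Sum.swap s) (Sum.swap t) ↔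
      glueAdj aL aR lab typ M s t := by
  rcases s with u | v <;> rcases t with u' | v' <;> rfl

theorem swap_both (X : Set L) (Y : Set R) : (Equiv.sumComm L R) '' both X Y = both Y X := by
  ext s
  rcases s with u | v <;> simp [both]

theorem cost_swap (X : Set L) (Y : Set R) (y : R) :
    cost (glueAdj aL aR lab typ M) (both X Y) (Sum.inr y) =
      cost (glueAdj aR aL typ lab (fun b a => M a b)) (both Y X) (Sum.inl y) := by
  have h := cost_equiv (Equiv.sumComm L R) (adj := glueAdj aL aR lab typ M)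
    (adj' := glueAdj aR aL typ lab (fun b a => M a b))
    (fun u v => glueAdj_swap aL aR lab typ M u v) (both X Y) (Sum.inr y)
  rw [swap_both] at h
  exact h.symm

end glue

end Pool.Agent.LCW
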