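import Mathlib

/-!
Monotone lattice paths whose edges are constrained by additive costs: every path can be replaced
by one with a bounded number of turns.
-/

namespace Pool.Agent.LCW.Grid

open Relation

/-- one step to the right or upwards -/
def St (H V : ℕ → ℕ → Prop) (p q : ℕ × ℕ) : Prop :=
  (q = (p.1 + 1, p.2) ∧ H p.1 p.2) ∨ (q = (p.1, p.2 + 1) ∧ V p.1 p.2)

/-- monotone paths -/
abbrev Path (H V : ℕ → ℕ → Prop) : ℕ × ℕ → ℕ × ℕ → Prop := ReflTransGen (St H V)

/-- a run to the right -/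
def HRun (H : ℕ → ℕ → Prop) (p q : ℕ × ℕ) : Prop :=
  q.2 = p.2 ∧ p.1 ≤ q.1 ∧ ∀ k, p.1 ≤ k → k < q.1 → H k p.2

/-- a run upwards -/
def VRun (V : ℕ → ℕ → Prop) (p q : ℕ × ℕ) : Prop :=
  q.1 = p.1 ∧ p.2 ≤ q.2 ∧ ∀ k, p.2 ≤ k → k < q.2 → V p.1 k

/-- paths consisting of `t` rounds, each a run to the right followed by a run upwards -/
inductive Seg (H V : ℕ → ℕ → Prop) : ℕ → ℕ × ℕ → ℕ × ℕ → Prop
  | refl (p : ℕ × ℕ) : Seg H V 0 p p
  | round {t : ℕ} {p q r s : ℕ × ℕ} (h : Seg H V t p q) (h1 : HRun H q r) (h2 : VRun V r s) :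
      Seg H V (t + 1) p s

variable {H V : ℕ → ℕ → Prop}

theorem HRun.refl (p : ℕ × ℕ) : HRun H p p := ⟨rfl, le_rfl, fun k h1 h2 => by omega⟩

theorem VRun.refl (p : ℕ × ℕ) : VRun V p p := ⟨rfl, le_rfl, fun k h1 h2 => by omega⟩

theorem Seg.trans {s t : ℕ} {p q r : ℕ × ℕ} (h : Seg H V s p q) (h' : Seg H V t q r) :
    Seg H V (s + t) p r := by
  induction h' with
  | refl => exact h
  | round _ h1 h2 ih => exact Seg.round (ih h) h1 h2

theorem Seg.one {p q r : ℕ × ℕ} (h1 : HRun H p q) (h2 : VRun V q r) : Seg H V 1 p r :=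
  Seg.round (Seg.refl p) h1 h2

theorem Seg.succ {t : ℕ} {p q : ℕ × ℕ} (h : Seg H V t p q) : Seg H V (t + 1) p q :=
  Seg.round h (HRun.refl q) (VRun.refl q)

theorem Seg.mono {s t : ℕ} {p q : ℕ × ℕ} (h : Seg H V s p q) (hst : s ≤ t) : Seg H V t p q := by
  obtain ⟨d, rfl⟩ := Nat.exists_eq_add_of_le hst
  clear hst
  induction d with
  | zero => exact h
  | succ d ih => exact ih.succ

theorem Path.le {p q : ℕ × ℕ} (h : Path H V p q) : p.1 ≤ q.1 ∧ p.2 ≤ q.2 := by
  induction h with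
  | refl => exact ⟨le_rfl, le_rfl⟩
  | tail _ h ih =>
    rcases h with ⟨rfl, _⟩ | ⟨rfl, _⟩
    · exact ⟨ih.1.trans (Nat.le_succ _), ih.2⟩
    · exact ⟨ih.1, ih.2.trans (Nat.le_succ _)⟩

/-- the path crosses every column -/
theorem Path.col {p q : ℕ × ℕ} (h : Path H V p q) :
    ∀ i, p.1 ≤ i → i ≤ q.1 → ∃ j, p.2 ≤ j ∧ j ≤ q.2 ∧ Path H V p (i, j) ∧ Path H V (i, j) q := by
  induction h with
  | refl =>
    intro i h1 h2
    obtain rfl : i = p.1 := by omega
    exact ⟨p.2, le_rfl, le_rfl, ReflTransGen.refl, ReflTransGen.refl⟩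
  | @tail q r h hs ih =>
    intro i h1 h2
    have hle := Path.le h
    by_cases hi : i ≤ q.1
    · obtain ⟨j, h3, h4, h5, h6⟩ := ih i h1 hi
      refine ⟨j, h3, ?_, h5, h6.tail hs⟩
      rcases hs with ⟨rfl, _⟩ | ⟨rfl, _⟩
      · exact h4
      · exact h4.trans (Nat.le_succ _)
    · rcases hs with ⟨rfl, hH⟩ | ⟨rfl, hV⟩
      · obtain rfl : i = q.1 + 1 := by
          simp only at h2; omega
        exact ⟨q.2, hle.2, le_rfl, h.tail (Or.inl ⟨rfl, hH⟩), ReflTransGen.refl⟩
      · simp only at h2; omega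

/-- the path uses a horizontal edge over every column -/
theorem Path.hEdge {p q : ℕ × ℕ} (h : Path H V p q) :
    ∀ i, p.1 ≤ i → i < q.1 → ∃ j, p.2 ≤ j ∧ j ≤ q.2 ∧ H i j ∧ Path H V p (i, j) ∧
      Path H V (i + 1, j) q := by
  induction h with
  | refl => intro i h1 h2; omega
  | @tail q r h hs ih =>
    intro i h1 h2
    have hle := Path.le h
    by_cases hi : i < q.1
    · obtain ⟨j, h3, h4, h5, h6, h7⟩ := ih i h1 hi
      refine ⟨j, h3, ?_, h5, h6, h7.tail hs⟩
      rcases hs with ⟨rfl, _⟩ | ⟨rfl, _⟩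
      · exact h4
      · exact h4.trans (Nat.le_succ _)
    · rcases hs with ⟨rfl, hH⟩ | ⟨rfl, hV⟩
      · obtain rfl : i = q.1 := by
          simp only at h2; omega
        exact ⟨q.2, hle.2, le_rfl, hH, h, ReflTransGen.refl⟩
      · simp only at h2; omega

/-- the path uses a vertical edge at every height -/
theorem Path.vEdge {p q : ℕ × ℕ} (h : Path H V p q) :
    ∀ j, p.2 ≤ j → j < q.2 → ∃ i, p.1 ≤ i ∧ i ≤ q.1 ∧ V i j ∧ Path H V p (i, j) ∧
      Path H V (i, j + 1) q := by
  induction h with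
  | refl => intro i h1 h2; omega
  | @tail q r h hs ih =>
    intro j h1 h2
    have hle := Path.le h
    by_cases hj : j < q.2
    · obtain ⟨i, h3, h4, h5, h6, h7⟩ := ih j h1 hj
      refine ⟨i, h3, ?_, h5, h6, h7.tail hs⟩
      rcases hs with ⟨rfl, _⟩ | ⟨rfl, _⟩
      · exact h4.trans (Nat.le_succ _)
      · exact h4
    · rcases hs with ⟨rfl, hH⟩ | ⟨rfl, hV⟩
      · simp only at h2; omega
      · obtain rfl : j = q.2 := by
          simp only at h2; omega
        exact ⟨q.1, hle.1, le_rfl, hV, h, ReflTransGen.refl⟩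

/-- a minimum over an interval -/
theorem exists_argmin (a : ℕ → ℕ) {i0 i1 : ℕ} (h : i0 ≤ i1) :
    ∃ i, i0 ≤ i ∧ i ≤ i1 ∧ ∀ k, i0 ≤ k → k ≤ i1 → a i ≤ a k := by
  obtain ⟨i, hi, hmin⟩ := Finset.exists_min_image (Finset.Icc i0 i1) a ⟨i0, by simp [h]⟩
  rw [Finset.mem_Icc] at hi
  exact ⟨i, hi.1, hi.2, fun k h1 h2 => hmin k (Finset.mem_Icc.mpr ⟨h1, h2⟩)⟩

/-- the first minimum over an interval -/
theorem exists_first_argmin (b : ℕ → ℕ) {j0 j1 : ℕ} (h : j0 ≤ j1) :
    ∃ j, j0 ≤ j ∧ j ≤ j1 ∧ (∀ k, j0 ≤ k → k ≤ j1 → b j ≤ b k) ∧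
      ∀ k, j0 ≤ k → k < j → b j < b k := by
  classical
  have hex : ∃ j, j0 ≤ j ∧ j ≤ j1 ∧ ∀ k, j0 ≤ k → k ≤ j1 → b j ≤ b k := exists_argmin b h
  refine ⟨Nat.find hex, (Nat.find_spec hex).1, (Nat.find_spec hex).2.1,
    (Nat.find_spec hex).2.2, ?_⟩
  intro k h1 h2
  by_contra hc
  have hle := (Nat.find_spec hex).2.1
  exact Nat.find_min hex h2 ⟨h1, by omega, fun l h3 h4 =>
    (not_lt.mp hc).trans ((Nat.find_spec hex).2.2 l h3 h4)⟩

/-- the last minimum over an interval -/
theorem exists_last_argmin (b : ℕ → ℕ) {j0 j1 : ℕ} (h : j0 ≤ j1) :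
    ∃ j, j0 ≤ j ∧ j ≤ j1 ∧ (∀ k, j0 ≤ k → k ≤ j1 → b j ≤ b k) ∧
      ∀ k, j < k → k ≤ j1 → b j < b k := by
  classical
  obtain ⟨j, h1, h2, h3, h4⟩ := exists_first_argmin (fun k => b (j1 - k)) (j0 := 0) (j1 := j1 - j0)
    (Nat.zero_le _)
  refine ⟨j1 - j, by omega, by omega, ?_, ?_⟩
  · intro k hk1 hk2
    have := h3 (j1 - k) (Nat.zero_le _) (by omega)
    simpa [Nat.sub_sub_self hk2] using this
  · intro k hk1 hk2
    have := h4 (j1 - k) (Nat.zero_le _) (by omega)
    simpa [Nat.sub_sub_self hk2] using this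

section block

variable {A a B b : ℕ → ℕ} {c : ℕ}

/-- additive costs on a rectangle -/
def Add (H V : ℕ → ℕ → Prop) (A a B b : ℕ → ℕ) (c i0 j0 i1 j1 : ℕ) : Prop :=
  (∀ i j, i0 ≤ i → i < i1 → j0 ≤ j → j ≤ j1 → (H i j ↔ A i + b j ≤ c)) ∧
    ∀ i j, i0 ≤ i → i ≤ i1 → j0 ≤ j → j < j1 → (V i j ↔ B j + a i ≤ c)

theorem Add.sub {i0 j0 i1 j1 i0' j0' i1' j1' : ℕ} (h : Add H V A a B b c i0 j0 i1 j1)
    (h1 : i0 ≤ i0') (h2 : i1' ≤ i1) (h3 : j0 ≤ j0') (h4 : j1' ≤ j1) :
    Add H V A a B b c i0' j0' i1' j1' :=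
  ⟨fun i j a1 a2 a3 a4 => h.1 i j (by omega) (by omega) (by omega) (by omega),
    fun i j a1 a2 a3 a4 => h.2 i j (by omega) (by omega) (by omega) (by omega)⟩

/-- horizontal moves along a row that is minimal among the rows used by a path -/
theorem hrun_of {i0 j0 i1 j1 : ℕ} (hadd : Add H V A a B b c i0 j0 i1 j1) {i2 j2 i3 j3 j : ℕ}
    (hp : Path H V (i2, j2) (i3, j3)) (h1 : i0 ≤ i2) (h2 : i3 ≤ i1) (h3 : j0 ≤ j2) (h4 : j3 ≤ j1)
    (h5 : j0 ≤ j) (h6 : j ≤ j1) (hmin : ∀ k, j2 ≤ k → k ≤ j3 → b j ≤ b k) {i4 i5 : ℕ}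
    (h7 : i2 ≤ i4) (h8 : i4 ≤ i5) (h9 : i5 ≤ i3) : HRun H (i4, j) (i5, j) := by
  refine ⟨rfl, h8, fun k hk1 hk2 => ?_⟩
  simp only at hk1 hk2
  obtain ⟨j', e1, e2, e3, _, _⟩ := hp.hEdge k (show i2 ≤ k by omega) (show k < i3 by omega)
  simp only at e1 e2
  have e4 := (hadd.1 k j' (by omega) (by omega) (by omega) (by omega)).mp e3
  exact (hadd.1 k j (by omega) (by omega) h5 h6).mpr (by have := hmin j' e1 e2; omega)

/-- vertical moves along a column that is minimal among the columns used by a path -/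
theorem vrun_of {i0 j0 i1 j1 : ℕ} (hadd : Add H V A a B b c i0 j0 i1 j1) {i2 j2 i3 j3 i : ℕ}
    (hp : Path H V (i2, j2) (i3, j3)) (h1 : i0 ≤ i2) (h2 : i3 ≤ i1) (h3 : j0 ≤ j2) (h4 : j3 ≤ j1)
    (h5 : i0 ≤ i) (h6 : i ≤ i1) (hmin : ∀ k, i2 ≤ k → k ≤ i3 → a i ≤ a k) {j4 j5 : ℕ}
    (h7 : j2 ≤ j4) (h8 : j4 ≤ j5) (h9 : j5 ≤ j3) : VRun V (i, j4) (i, j5) := by
  refine ⟨rfl, h8, fun k hk1 hk2 => ?_⟩
  simp only at hk1 hk2
  obtain ⟨i', e1, e2, e3, _, _⟩ := hp.vEdge k (show j2 ≤ k by omega) (show k < j3 by omega)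
  simp only at e1 e2
  have e4 := (hadd.2 i' k (by omega) (by omega) (by omega) (by omega)).mp e3
  exact (hadd.2 i k h5 h6 (by omega) (by omega)).mpr (by have := hmin i' e1 e2; omega)

/-- paths that end in a cheapest column -/
theorem colEnd (n : ℕ) : ∀ {i0 j0 i1 j1 : ℕ}, Add H V A a B b c i0 j0 i1 j1 →
    Path H V (i0, j0) (i1, j1) → (∀ i, i0 ≤ i → i ≤ i1 → a i1 ≤ a i) →
    (∀ j, j0 ≤ j → j ≤ j1 → c + 1 ≤ b j + n) → Seg H V (2 * n + 1) (i0, j0) (i1, j1) := by
  induction n with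
  | zero =>
    intro i0 j0 i1 j1 hadd hp ha hb
    have hle := hp.le
    simp only at hle
    have hi : i0 = i1 := by
      by_contra hne
      obtain ⟨j, e1, e2, e3, _, _⟩ := hp.hEdge i0 le_rfl (show i0 < i1 by omega)
      simp only at e1 e2
      have e4 := (hadd.1 i0 j le_rfl (by omega) e1 e2).mp e3
      have := hb j e1 e2
      omega
    subst hi
    exact Seg.one (HRun.refl _) (vrun_of hadd hp le_rfl le_rfl le_rfl le_rfl le_rfl le_rfl
      (fun k h1 h2 => ha k h1 h2) le_rfl hle.2 le_rfl)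
  | succ n ih =>
    intro i0 j0 i1 j1 hadd hp ha hb
    have hle := hp.le
    simp only at hle
    obtain ⟨j', hj1, hj2, hj3, hj4⟩ := exists_first_argmin b hle.2
    by_cases hj : j' = j0
    · subst hj
      refine Seg.mono (Seg.one (q := (i1, j')) ?_ ?_) (by omega)
      · exact hrun_of hadd hp le_rfl le_rfl le_rfl le_rfl le_rfl hle.2 hj3 le_rfl hle.1 le_rfl
      · exact vrun_of hadd hp le_rfl le_rfl le_rfl le_rfl hle.1 le_rfl ha le_rfl hle.2 le_rfl
    · have hj0 : j0 < j' := by omega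
      obtain ⟨i', e1, e2, e3, e4, e5⟩ := hp.vEdge (j' - 1) (show j0 ≤ j' - 1 by omega)
        (show j' - 1 < j1 by omega)
      simp only at e1 e2 e4
      have hj'1 : j' - 1 + 1 = j' := by omega
      rw [hj'1] at e5
      obtain ⟨i'', f1, f2, f3⟩ := exists_argmin a e1
      obtain ⟨j'', g1, g2, g3, g4⟩ := e4.col i'' f1 f2
      simp only at g1 g2
      -- recursion
      have hrec := ih (hadd.sub le_rfl (show i'' ≤ i1 by omega) le_rfl (show j'' ≤ j1 by omega)) g3
        (fun i h1 h2 => f3 i h1 (by omega)) (fun j h1 h2 => by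
          have k1 := hj4 j h1 (by omega)
          have k2 := hb j' hj1 hj2
          omega)
      -- paths
      have hV1 : Path H V (i', j' - 1) (i', j') :=
        ReflTransGen.single (Or.inr ⟨by simp [hj'1], e3⟩)
      have p1 : Path H V (i'', j'') (i', j') := g4.trans hV1
      have p2 : Path H V (i'', j'') (i1, j1) := p1.trans e5
      have r1 : VRun V (i'', j'') (i'', j') := vrun_of hadd p1 (by omega) e2 g1 hj2 (by omega)
        (by omega) (fun k h1 h2 => f3 k (by omega) h2) le_rfl (by omega) le_rfl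
      have r2 : HRun H (i'', j') (i1, j') := hrun_of hadd p2 (by omega) le_rfl g1 le_rfl hj1 hj2
        (fun k h1 h2 => hj3 k (by omega) h2) le_rfl (by omega) le_rfl
      have r3 : VRun V (i1, j') (i1, j1) := vrun_of hadd p2 (by omega) le_rfl g1 le_rfl hle.1
        le_rfl (fun k h1 h2 => ha k (by omega) h2) (by omega) hj2 le_rfl
      have h := (hrec.trans (Seg.one (HRun.refl _) r1)).trans (Seg.one r2 r3)
      exact h.mono (by omega)

/-- paths that start in a cheapest column -/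
theorem colStart (n : ℕ) : ∀ {i0 j0 i1 j1 : ℕ}, Add H V A a B b c i0 j0 i1 j1 →
    Path H V (i0, j0) (i1, j1) → (∀ i, i0 ≤ i → i ≤ i1 → a i0 ≤ a i) →
    (∀ j, j0 ≤ j → j ≤ j1 → c + 1 ≤ b j + n) → Seg H V (2 * n + 2) (i0, j0) (i1, j1) := by
  induction n with
  | zero =>
    intro i0 j0 i1 j1 hadd hp ha hb
    have hle := hp.le
    simp only at hle
    have hi : i0 = i1 := by
      by_contra hne
      obtain ⟨j, e1, e2, e3, _, _⟩ := hp.hEdge i0 le_rfl (show i0 < i1 by omega)
      simp only at e1 e2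
      have e4 := (hadd.1 i0 j le_rfl (by omega) e1 e2).mp e3
      have := hb j e1 e2
      omega
    subst hi
    exact Seg.mono (Seg.one (HRun.refl _) (vrun_of hadd hp le_rfl le_rfl le_rfl le_rfl le_rfl le_rfl
      (fun k h1 h2 => ha k h1 h2) le_rfl hle.2 le_rfl)) (by omega)
  | succ n ih =>
    intro i0 j0 i1 j1 hadd hp ha hb
    have hle := hp.le
    simp only at hle
    obtain ⟨j', hj1, hj2, hj3, hj4⟩ := exists_last_argmin b hle.2
    by_cases hj : j' = j1
    · subst hj
      have r1 : VRun V (i0, j0) (i0, j') := vrun_of hadd hp le_rfl le_rfl le_rfl le_rfl le_rfl hle.1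
        ha le_rfl hle.2 le_rfl
      have r2 : HRun H (i0, j') (i1, j') := hrun_of hadd hp le_rfl le_rfl le_rfl le_rfl hle.2 le_rfl
        hj3 le_rfl hle.1 le_rfl
      exact ((Seg.one (HRun.refl _) r1).trans (Seg.one r2 (VRun.refl _))).mono (by omega)
    · have hj0 : j' < j1 := by omega
      obtain ⟨i', e1, e2, e3, e4, e5⟩ := hp.vEdge j' hj1 hj0
      simp only at e1 e2
      obtain ⟨i'', f1, f2, f3⟩ := exists_argmin a e2
      obtain ⟨j'', g1, g2, g3, g4⟩ := e5.col i'' f1 f2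
      simp only at g1 g2
      have hrec := ih (hadd.sub (show i0 ≤ i'' by omega) le_rfl (show j0 ≤ j'' by omega) le_rfl) g4
        (fun i h1 h2 => f3 i (by omega) h2) (fun j h1 h2 => by
          have k1 := hj4 j (by omega) h2
          have k2 := hb j' hj1 hj2
          omega)
      have hV1 : Path H V (i', j') (i', j' + 1) := ReflTransGen.single (Or.inr ⟨rfl, e3⟩)
      have p1 : Path H V (i', j') (i'', j'') := hV1.trans g3
      have p2 : Path H V (i0, j0) (i'', j'') := e4.trans p1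
      have r1 : VRun V (i0, j0) (i0, j') := vrun_of hadd hp le_rfl le_rfl le_rfl le_rfl le_rfl hle.1
        ha le_rfl hj1 hj2
      have r2 : HRun H (i0, j') (i'', j') := hrun_of hadd p2 le_rfl (by omega) le_rfl g2 hj1 hj2
        (fun k h1 h2 => hj3 k h1 (by omega)) le_rfl (by omega) le_rfl
      have r3 : VRun V (i'', j') (i'', j'') := vrun_of hadd p1 e1 (by omega) hj1 g2 (by omega)
        (by omega) (fun k h1 h2 => f3 k h1 (by omega)) le_rfl (by omega) le_rfl
      have h := ((Seg.one (HRun.refl _) r1).trans (Seg.one r2 r3)).trans hrec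
      exact h.mono (by omega)

/-- Every path in a rectangle with additive costs can be replaced by one with few turns. -/
theorem block {i0 j0 i1 j1 : ℕ} (hadd : Add H V A a B b c i0 j0 i1 j1)
    (hp : Path H V (i0, j0) (i1, j1)) : Seg H V (4 * c + 7) (i0, j0) (i1, j1) := by
  have hle := hp.le
  simp only at hle
  obtain ⟨i, h1, h2, h3⟩ := exists_argmin a hle.1
  obtain ⟨j, g1, g2, g3, g4⟩ := hp.col i h1 h2
  simp only at g1 g2
  have s1 := colEnd (c + 1) (hadd.sub le_rfl h2 le_rfl g2) g3 (fun k e1 e2 => h3 k e1 (by omega))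
    (fun k e1 e2 => by omega)
  have s2 := colStart (c + 1) (hadd.sub h1 le_rfl g1 le_rfl) g4 (fun k e1 e2 => h3 k (by omega) e2)
    (fun k e1 e2 => by omega)
  exact (s1.trans s2).mono (by omega)

end block

/-! ### changing phases -/

/-- number of changes of a function before `i` -/
noncomputable def chg {α : Type*} (μ : ℕ → α) (i : ℕ) : ℕ := by
  classical
  exact ((Finset.range i).filter (fun k => μ k ≠ μ (k + 1))).card

theorem chg_mono {α : Type*} (μ : ℕ → α) {i j : ℕ} (h : i ≤ j) : chg μ i ≤ chg μ j := by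
  classical
  unfold chg
  apply Finset.card_le_card
  intro k hk
  simp only [Finset.mem_filter, Finset.mem_range] at hk ⊢
  exact ⟨by omega, hk.2⟩

theorem chg_succ_of_ne {α : Type*} (μ : ℕ → α) {i : ℕ} (h : μ i ≠ μ (i + 1)) :
    chg μ (i + 1) = chg μ i + 1 := by
  classical
  unfold chg
  rw [Finset.range_add_one, Finset.filter_insert, if_pos h, Finset.card_insert_of_notMem (by simp)]

/-- Phase-wise additive costs: every path can be replaced by one with few turns. -/
theorem bounded {M N : Type*} (μ : ℕ → M) (ν : ℕ → N) (A a : ℕ → N → ℕ) (B b : ℕ → M → ℕ)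
    {c p q : ℕ}
    (hH : ∀ i j, i < p → j ≤ q → (H i j ↔ A i (ν j) + b j (μ i) ≤ c))
    (hV : ∀ i j, i ≤ p → j < q → (V i j ↔ B j (μ i) + a i (ν j) ≤ c))
    (hp : Path H V (0, 0) (p, q)) :
    Seg H V ((chg μ p + chg ν q + 1) * (4 * c + 8)) (0, 0) (p, q) := by
  -- the invariant along the path
  have key : ∀ r : ℕ × ℕ, Path H V (0, 0) r → r.1 ≤ p → r.2 ≤ q →
      ∃ s : ℕ × ℕ, s.1 ≤ r.1 ∧ s.2 ≤ r.2 ∧ Path H V s r ∧
        Seg H V ((chg μ s.1 + chg ν s.2) * (4 * c + 8)) (0, 0) s ∧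
        (∀ i, s.1 ≤ i → i ≤ r.1 → μ i = μ s.1) ∧ (∀ j, s.2 ≤ j → j ≤ r.2 → ν j = ν s.2) := by
    intro r hr
    induction hr with
    | refl =>
      intro _ _
      refine ⟨(0, 0), le_rfl, le_rfl, ReflTransGen.refl, ?_, ?_, ?_⟩
      · have : (chg μ 0 + chg ν 0) * (4 * c + 8) = 0 := by
          unfold chg; simp
        simp only
        rw [this]
        exact Seg.refl _
      · intro i h1 h2
        simp only at h2
        rw [Nat.le_zero.mp h2]
      · intro i h1 h2
        simp only at h2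
        rw [Nat.le_zero.mp h2]
    | @tail r r' hr hs ih =>
      intro hp1 hp2
      have hr1 : r.1 ≤ p := by
        rcases hs with ⟨rfl, _⟩ | ⟨rfl, _⟩ <;> simp only at hp1 <;> omega
      have hr2 : r.2 ≤ q := by
        rcases hs with ⟨rfl, _⟩ | ⟨rfl, _⟩ <;> simp only at hp2 <;> omega
      obtain ⟨s, s1, s2, s3, s4, s5, s6⟩ := ih hr1 hr2
      -- compressing the part inside the block
      have hcomp : Seg H V (4 * c + 7) s r := by
        have hadd : Add H V (fun i => A i (ν s.2)) (fun i => a i (ν s.2)) (fun j => B j (μ s.1))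
            (fun j => b j (μ s.1)) c s.1 s.2 r.1 r.2 := by
          constructor
          · intro i j h1 h2 h3 h4
            rw [hH i j (by omega) (by omega), s5 i h1 (by omega), s6 j h3 h4]
          · intro i j h1 h2 h3 h4
            rw [hV i j (by omega) (by omega), s5 i h1 (by omega), s6 j h3 (by omega)]
        exact block hadd s3
      rcases hs with ⟨rfl, hHe⟩ | ⟨rfl, hVe⟩
      · by_cases hμ : μ r.1 = μ (r.1 + 1)
        · refine ⟨s, by simp only; omega, s2, s3.tail (Or.inl ⟨rfl, hHe⟩), s4, ?_, s6⟩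
          intro i h1 h2
          simp only at h2
          by_cases hi : i ≤ r.1
          · exact s5 i h1 hi
          · obtain rfl : i = r.1 + 1 := by omega
            rw [← hμ]; exact s5 _ s1 le_rfl
        · refine ⟨(r.1 + 1, r.2), le_rfl, le_rfl, ReflTransGen.refl, ?_, ?_, ?_⟩
          · have h1 : HRun H r (r.1 + 1, r.2) :=
              ⟨rfl, by simp, fun k h1 h2 => by
                simp only at h2
                obtain rfl : k = r.1 := by omega
                exact hHe⟩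
            have h2 := (s4.trans hcomp).trans (Seg.one h1 (VRun.refl _))
            refine h2.mono ?_
            simp only
            rw [chg_succ_of_ne μ hμ]
            have h3 := chg_mono μ s1
            have h4 := chg_mono ν s2
            nlinarith
          · intro i h1 h2
            simp only at h1 h2
            rw [show i = r.1 + 1 by omega]
          · intro j h1 h2
            simp only at h1 h2
            rw [show j = r.2 by omega]
      · by_cases hν : ν r.2 = ν (r.2 + 1)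
        · refine ⟨s, s1, by simp only; omega, s3.tail (Or.inr ⟨rfl, hVe⟩), s4, s5, ?_⟩
          intro i h1 h2
          simp only at h2
          by_cases hi : i ≤ r.2
          · exact s6 i h1 hi
          · obtain rfl : i = r.2 + 1 := by omega
            rw [← hν]; exact s6 _ s2 le_rfl
        · refine ⟨(r.1, r.2 + 1), le_rfl, le_rfl, ReflTransGen.refl, ?_, ?_, ?_⟩
          · have h1 : VRun V r (r.1, r.2 + 1) :=
              ⟨rfl, by simp, fun k h1 h2 => by
                simp only at h2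
                obtain rfl : k = r.2 := by omega
                exact hVe⟩
            have h2 := (s4.trans hcomp).trans (Seg.one (HRun.refl _) h1)
            refine h2.mono ?_
            simp only
            rw [chg_succ_of_ne ν hν]
            have h3 := chg_mono μ s1
            have h4 := chg_mono ν s2
            nlinarith
          · intro i h1 h2
            simp only at h1 h2
            rw [show i = r.1 by omega]
          · intro j h1 h2
            simp only at h1 h2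
            rw [show j = r.2 + 1 by omega]
  obtain ⟨s, s1, s2, s3, s4, s5, s6⟩ := key (p, q) hp le_rfl le_rfl
  simp only at s1 s2 s5 s6
  have hadd : Add H V (fun i => A i (ν s.2)) (fun i => a i (ν s.2)) (fun j => B j (μ s.1))
      (fun j => b j (μ s.1)) c s.1 s.2 p q := by
    constructor
    · intro i j h1 h2 h3 h4
      rw [hH i j (by omega) (by omega), s5 i h1 (by omega), s6 j h3 h4]
    · intro i j h1 h2 h3 h4
      rw [hV i j (by omega) (by omega), s5 i h1 (by omega), s6 j h3 (by omega)]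
  have h1 := s4.trans (block hadd s3)
  refine h1.mono ?_
  have h3 := chg_mono μ s1
  have h4 := chg_mono ν s2
  nlinarith

end Pool.Agent.LCW.Grid
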