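import Mathlib
import Pool.Agent.LCW.Glue
import Pool.Agent.LCW.Grid

/-!
Completability in a glued graph depends on the left part only through finitely much information.
-/

namespace Pool.Agent.LCW

open Relation

/-- finite information about the placed part of one side, with counts cut off above `c` -/
@[ext] structure Info (A B : Type) (c : ℕ) where
  nu : Mu A B
  n : Set B → Fin (c + 2)

instance {A B : Type} [Finite A] [Finite B] : Finite (Mu A B) :=
  Finite.of_injective (fun m : Mu A B => (m.T, m.P, m.E1, m.E2)) (by
    rintro ⟨a, b, c, d⟩ ⟨a', b', c', d'⟩ h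
    simp only [Prod.mk.injEq] at h
    obtain ⟨rfl, rfl, rfl, rfl⟩ := h
    rfl)

instance {A B : Type} {c : ℕ} [Finite A] [Finite B] : Finite (Info A B c) :=
  Finite.of_injective (fun m : Info A B c => (m.nu, m.n)) (by
    rintro ⟨a, b⟩ ⟨a', b'⟩ h
    simp only [Prod.mk.injEq] at h
    obtain ⟨rfl, rfl⟩ := h
    rfl)

section side

variable {V A B : Type} (adj : V → V → Prop) (lab : V → A) (M : A → B → Prop) (c : ℕ)

/-- the information of a set -/
noncomputable def info (X : Set V) : Info A B c :=
  ⟨mu adj lab M X, fun T' => ⟨min (nn adj lab M X T') (c + 1), by omega⟩⟩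

open Classical in
/-- a step on one side, given the information about the other side -/
def StepI (r : Info B A c) (X X' : Set V) : Prop :=
  ∃ x, x ∉ X ∧ X' = insert x X ∧
    FF M (mu adj lab M X) r.nu + nn adj lab M X r.nu.T + (r.n (mu adj lab M X).T : ℕ) +
      (if mg adj lab M X x r.nu then 0 else 1) ≤ c

/-- several steps -/
def RunI (r : Info B A c) : Set V → Set V → Prop := ReflTransGen (StepI adj lab M c r)

/-- the left part of a sequence of rounds -/
def TL : List (Info B A c × Info A B c) → Set V → Prop
  | [], X => X = Set.univ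
  | (r, l) :: w, X => ∃ X', RunI adj lab M c r X X' ∧ info adj lab M c X' = l ∧ TL w X'

/-- the right part of a sequence of rounds -/
def TR : List (Info A B c × Info B A c) → Set V → Prop
  | [], X => X = Set.univ
  | (r, l) :: w, X => info adj lab M c X = r ∧ ∃ X', RunI adj lab M c l X X' ∧ TR w X'

end side

section glue

variable {L R A B : Type} (aL : L → L → Prop) (aR : R → R → Prop) (lab : L → A) (typ : R → B)
  (M : A → B → Prop) (c : ℕ)

theorem cost_inl_iff [Finite L] [Finite R] {X : Set L} {Y : Set R} {x : L} (hx : x ∉ X) :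
    cost (glueAdj aL aR lab typ M) (both X Y) (Sum.inl x) ≤ c ↔
      StepI aL lab M c (info aR typ (fun b a => M a b) c Y) X (insert x X) := by
  classical
  rw [cost_glue]
  have aux : ∀ a b d e : ℕ, a + b + d + e ≤ c ↔ a + b + min d (c + 1) + e ≤ c := by
    intro a b d e; omega
  constructor
  · intro h
    refine ⟨x, hx, rfl, ?_⟩
    rw [aux] at h
    exact h
  · rintro ⟨x', hx', h1, h2⟩
    have hxx : x = x' := by
      have : x ∈ insert x' X := h1 ▸ Set.mem_insert x X
      rcases this with h | h
      · exact h
      · exact absurd h hx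
    subst hxx
    rw [aux]
    exact h2

theorem cost_inr_iff [Finite L] [Finite R] {X : Set L} {Y : Set R} {y : R} (hy : y ∉ Y) :
    cost (glueAdj aL aR lab typ M) (both X Y) (Sum.inr y) ≤ c ↔
      StepI aR typ (fun b a => M a b) c (info aL lab M c X) Y (insert y Y) := by
  rw [cost_swap]
  exact cost_inl_iff aR aL typ lab (fun b a => M a b) c hy

theorem run_left [Finite L] [Finite R] {X X' : Set L} {Y : Set R}
    (h : RunI aL lab M c (info aR typ (fun b a => M a b) c Y) X X') :
    ReflTransGen (Step (glueAdj aL aR lab typ M) c) (both X Y) (both X' Y) := by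
  induction h with
  | refl => exact ReflTransGen.refl
  | tail _ hs ih =>
    obtain ⟨x, hx, rfl, h1⟩ := hs
    refine ih.tail ⟨Sum.inl x, by simpa using hx, by rw [insert_inl_both], ?_⟩
    exact (cost_inl_iff aL aR lab typ M c hx).mpr ⟨x, hx, rfl, h1⟩

theorem run_right [Finite L] [Finite R] {X : Set L} {Y Y' : Set R}
    (h : RunI aR typ (fun b a => M a b) c (info aL lab M c X) Y Y') :
    ReflTransGen (Step (glueAdj aL aR lab typ M) c) (both X Y) (both X Y') := by
  induction h with
  | refl => exact ReflTransGen.refl
  | tail _ hs ih =>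
    obtain ⟨y, hy, rfl, h1⟩ := hs
    refine ih.tail ⟨Sum.inr y, by simpa using hy, by rw [insert_inr_both], ?_⟩
    exact (cost_inr_iff aL aR lab typ M c hy).mpr ⟨y, hy, rfl, h1⟩

theorem comp_of_rounds [Finite L] [Finite R] :
    ∀ (w : List (Info B A c × Info A B c)) (X : Set L) (Y : Set R),
      TL aL lab M c w X → TR aR typ (fun b a => M a b) c w Y →
      Comp (glueAdj aL aR lab typ M) c (both X Y) := by
  intro w
  induction w with
  | nil =>
    intro X Y h1 h2
    simp only [TL, TR] at h1 h2
    subst h1 h2
    unfold Comp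
    rw [both_univ]
  | cons p w ih =>
    obtain ⟨r, l⟩ := p
    rintro X Y ⟨X', h1, h2, h3⟩ ⟨h4, Y', h5, h6⟩
    subst h4 h2
    exact ((run_left aL aR lab typ M c h1).trans (run_right aL aR lab typ M c h5)).trans
      (ih X' Y' h3 h6)

/-! ### from layouts to grid paths -/

/-- the sets along a list of vertices -/
def chain {V : Type} (X : Set V) (xs : List V) (i : ℕ) : Set V := X ∪ {u | u ∈ xs.take i}

theorem chain_zero {V : Type} (X : Set V) (xs : List V) : chain X xs 0 = X := by
  simp [chain]

theorem chain_cons {V : Type} (X : Set V) (x : V) (xs : List V) (i : ℕ) :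
    chain X (x :: xs) (i + 1) = chain (insert x X) xs i := by
  ext u
  simp only [chain, List.take_succ_cons, List.mem_cons, Set.mem_union, Set.mem_ofPred_eq,
    Set.mem_insert_iff]
  tauto

theorem chain_succ {V : Type} (X : Set V) (xs : List V) (i : ℕ) {x : V} (h : xs[i]? = some x) :
    chain X xs (i + 1) = insert x (chain X xs i) := by
  ext u
  simp only [chain, List.take_add_one, h, Option.toList_some, List.mem_append, List.mem_singleton,
    Set.mem_union, Set.mem_ofPred_eq, Set.mem_insert_iff]
  tauto

theorem chain_mono {V : Type} (X : Set V) (xs : List V) {i j : ℕ} (h : i ≤ j) :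
    chain X xs i ⊆ chain X xs j := by
  intro u hu
  rcases hu with hu | hu
  · exact Or.inl hu
  · exact Or.inr (List.take_subset_take_left xs h hu)

/-- horizontal edges -/
def gH (X : Set L) (Y : Set R) (xs : List L) (ys : List R) (i j : ℕ) : Prop :=
  ∃ x, xs[i]? = some x ∧ x ∉ chain X xs i ∧
    cost (glueAdj aL aR lab typ M) (both (chain X xs i) (chain Y ys j)) (Sum.inl x) ≤ c

/-- vertical edges -/
def gV (X : Set L) (Y : Set R) (xs : List L) (ys : List R) (i j : ℕ) : Prop :=
  ∃ y, ys[j]? = some y ∧ y ∉ chain Y ys j ∧
    cost (glueAdj aL aR lab typ M) (both (chain X xs i) (chain Y ys j)) (Sum.inr y) ≤ c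

theorem exists_path (S : Set (L ⊕ R)) (h : Comp (glueAdj aL aR lab typ M) c S) :
    ∀ (X : Set L) (Y : Set R), S = both X Y → ∃ (xs : List L) (ys : List R),
      chain X xs xs.length = Set.univ ∧ chain Y ys ys.length = Set.univ ∧
      Grid.Path (gH aL aR lab typ M c X Y xs ys) (gV aL aR lab typ M c X Y xs ys) (0, 0)
        (xs.length, ys.length) := by
  unfold Comp at h
  induction h using ReflTransGen.head_induction_on with
  | refl =>
    intro X Y hS
    rw [← both_univ, both_inj] at hS
    refine ⟨[], [], ?_, ?_, ReflTransGen.refl⟩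
    · rw [List.length_nil, chain_zero, ← hS.1]
    · rw [List.length_nil, chain_zero, ← hS.2]
  | head hs _ ih =>
    intro X Y hS
    subst hS
    obtain ⟨s, hs1, rfl, hs3⟩ := hs
    rcases s with x | y
    · obtain ⟨xs, ys, h1, h2, h3⟩ := ih (insert x X) Y (insert_inl_both X Y x)
      refine ⟨x :: xs, ys, ?_, h2, ?_⟩
      · rw [List.length_cons, chain_cons]; exact h1
      · refine ReflTransGen.head (b := (1, 0)) (Or.inl ⟨rfl, x, rfl, ?_, ?_⟩) ?_
        · rw [chain_zero]; simpa using hs1
        · simp only [chain_zero]; exact hs3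
        · refine ReflTransGen.lift (fun p : ℕ × ℕ => (p.1 + 1, p.2)) ?_ _ _ h3
          rintro ⟨i, j⟩ q hq
          rcases hq with ⟨rfl, x', e1, e2, e3⟩ | ⟨rfl, y', e1, e2, e3⟩
          · refine Or.inl ⟨rfl, x', by simpa using e1, ?_, ?_⟩
            · simp only; rw [chain_cons]; exact e2
            · simp only; rw [chain_cons]; exact e3
          · refine Or.inr ⟨rfl, y', e1, e2, ?_⟩
            simp only; rw [chain_cons]; exact e3
    · obtain ⟨xs, ys, h1, h2, h3⟩ := ih X (insert y Y) (insert_inr_both X Y y)
      refine ⟨xs, y :: ys, h1, ?_, ?_⟩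
      · rw [List.length_cons, chain_cons]; exact h2
      · refine ReflTransGen.head (b := (0, 1)) (Or.inr ⟨rfl, y, rfl, ?_, ?_⟩) ?_
        · rw [chain_zero]; simpa using hs1
        · simp only [chain_zero]; exact hs3
        · refine ReflTransGen.lift (fun p : ℕ × ℕ => (p.1, p.2 + 1)) ?_ _ _ h3
          rintro ⟨i, j⟩ q hq
          rcases hq with ⟨rfl, x', e1, e2, e3⟩ | ⟨rfl, y', e1, e2, e3⟩
          · refine Or.inl ⟨rfl, x', e1, e2, ?_⟩
            simp only; rw [chain_cons]; exact e3
          · refine Or.inr ⟨rfl, y', by simpa using e1, ?_, ?_⟩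
            · simp only; rw [chain_cons]; exact e2
            · simp only; rw [chain_cons]; exact e3

/-- number of changes of the monotone information along a chain -/
theorem chg_le {V A B : Type} [Finite A] [Finite B] (adj : V → V → Prop) (lab : V → A)
    (M : A → B → Prop) (X : Set V) (xs : List V) (i : ℕ) :
    Grid.chg (fun k => mu adj lab M (chain X xs k)) i ≤
      2 * Nat.card A + 2 * (Nat.card A * Nat.card B) := by
  have key : Grid.chg (fun k => mu adj lab M (chain X xs k)) i ≤
      rank (mu adj lab M (chain X xs i)) := by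
    induction i with
    | zero => simp [Grid.chg]
    | succ i ih =>
      by_cases h : mu adj lab M (chain X xs i) = mu adj lab M (chain X xs (i + 1))
      · have : Grid.chg (fun k => mu adj lab M (chain X xs k)) (i + 1) =
            Grid.chg (fun k => mu adj lab M (chain X xs k)) i := by
          classical
          unfold Grid.chg
          rw [Finset.range_add_one, Finset.filter_insert, if_neg (by simpa using h)]
        rw [this, ← h]
        exact ih
      · rw [Grid.chg_succ_of_ne _ h]
        have := rank_lt (adj := adj) (lab := lab) (M := M)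
          (chain_mono X xs (show i ≤ i + 1 by omega)) h
        omega
  exact key.trans (rank_le _)

/-- the number of rounds that suffices -/
noncomputable def NN (A B : Type) (c : ℕ) : ℕ :=
  ((2 * Nat.card A + 2 * (Nat.card A * Nat.card B)) +
    (2 * Nat.card B + 2 * (Nat.card B * Nat.card A)) + 1) * (4 * c + 8)

theorem exists_seg [Finite L] [Finite R] [Finite A] [Finite B] (X : Set L) (Y : Set R)
    (xs : List L) (ys : List R)
    (hp : Grid.Path (gH aL aR lab typ M c X Y xs ys) (gV aL aR lab typ M c X Y xs ys) (0, 0)
        (xs.length, ys.length)) :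
    Grid.Seg (gH aL aR lab typ M c X Y xs ys) (gV aL aR lab typ M c X Y xs ys) (NN A B c) (0, 0)
        (xs.length, ys.length) := by
  classical
  -- all vertices of the lists are new
  have hx : ∀ i x, xs[i]? = some x → x ∉ chain X xs i := by
    intro i x hi
    obtain ⟨hlt, _⟩ := List.getElem?_eq_some_iff.mp hi
    obtain ⟨j, _, _, ⟨x', h1, h2, _⟩, _, _⟩ := hp.hEdge i (Nat.zero_le _) hlt
    rw [hi] at h1
    obtain rfl := Option.some.inj h1
    exact h2
  have hy : ∀ j y, ys[j]? = some y → y ∉ chain Y ys j := by
    intro j y hj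
    obtain ⟨hlt, _⟩ := List.getElem?_eq_some_iff.mp hj
    obtain ⟨i, _, _, ⟨y', h1, h2, _⟩, _, _⟩ := hp.vEdge j (Nat.zero_le _) hlt
    rw [hj] at h1
    obtain rfl := Option.some.inj h1
    exact h2
  let μ : ℕ → Mu A B := fun i => mu aL lab M (chain X xs i)
  let ν : ℕ → Mu B A := fun j => mu aR typ (fun b a => M a b) (chain Y ys j)
  let fA : ℕ → Mu B A → ℕ := fun i n => match xs[i]? with
    | some x => FF M (μ i) n + nn aL lab M (chain X xs i) n.T +
        (if mg aL lab M (chain X xs i) x n then 0 else 1)
    | none => 0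
  let fa : ℕ → Mu B A → ℕ := fun i n => nn aL lab M (chain X xs i) n.T
  let fB : ℕ → Mu A B → ℕ := fun j m => match ys[j]? with
    | some y => FF (fun b a => M a b) (ν j) m + nn aR typ (fun b a => M a b) (chain Y ys j) m.T +
        (if mg aR typ (fun b a => M a b) (chain Y ys j) y m then 0 else 1)
    | none => 0
  let fb : ℕ → Mu A B → ℕ := fun j m => nn aR typ (fun b a => M a b) (chain Y ys j) m.T
  have hb := Grid.bounded (H := gH aL aR lab typ M c X Y xs ys)
    (V := gV aL aR lab typ M c X Y xs ys) μ ν fA fa fB fb (c := c) (p := xs.length)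
    (q := ys.length) ?_ ?_ hp
  · refine hb.mono ?_
    unfold NN
    apply Nat.mul_le_mul_right
    have h1 := chg_le aL lab M X xs xs.length
    have h2 := chg_le aR typ (fun b a => M a b) Y ys ys.length
    have h3 : Grid.chg μ xs.length ≤ 2 * Nat.card A + 2 * (Nat.card A * Nat.card B) := h1
    have h4 : Grid.chg ν ys.length ≤ 2 * Nat.card B + 2 * (Nat.card B * Nat.card A) := h2
    omega
  · intro i j hi _
    have hget : xs[i]? = some xs[i] := List.getElem?_eq_getElem hi
    have hfA : fA i (ν j) = FF M (μ i) (ν j) + nn aL lab M (chain X xs i) (ν j).T +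
        (if mg aL lab M (chain X xs i) xs[i] (ν j) then 0 else 1) := by
      simp only [fA, hget]
    have hcost := cost_glue aL aR lab typ M (chain X xs i) (chain Y ys j) xs[i]
    constructor
    · rintro ⟨x, h1, _, h3⟩
      rw [hget] at h1
      obtain rfl := Option.some.inj h1
      rw [hcost] at h3
      rw [hfA]
      simp only [μ, ν, fb] at h3 ⊢
      omega
    · intro h
      refine ⟨xs[i], hget, hx i _ hget, ?_⟩
      rw [hcost]
      rw [hfA] at h
      simp only [μ, ν, fb] at h ⊢
      omega
  · intro i j _ hj
    have hget : ys[j]? = some ys[j] := List.getElem?_eq_getElem hj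
    have hfB : fB j (μ i) = FF (fun b a => M a b) (ν j) (μ i) + nn aR typ (fun b a => M a b) (chain Y ys j) (μ i).T +
        (if mg aR typ (fun b a => M a b) (chain Y ys j) ys[j] (μ i) then 0 else 1) := by
      simp only [fB, hget]
    have hcost : cost (glueAdj aL aR lab typ M) (both (chain X xs i) (chain Y ys j))
        (Sum.inr ys[j]) =
        FF (fun b a => M a b) (mu aR typ (fun b a => M a b) (chain Y ys j))
          (mu aL lab M (chain X xs i)) +
        nn aR typ (fun b a => M a b) (chain Y ys j) (mu aL lab M (chain X xs i)).T +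
        nn aL lab M (chain X xs i) (mu aR typ (fun b a => M a b) (chain Y ys j)).T +
        if mg aR typ (fun b a => M a b) (chain Y ys j) ys[j] (mu aL lab M (chain X xs i))
          then 0 else 1 := by
      rw [cost_swap]
      exact cost_glue aR aL typ lab (fun b a => M a b) (chain Y ys j) (chain X xs i) ys[j]
    constructor
    · rintro ⟨y, h1, _, h3⟩
      rw [hget] at h1
      obtain rfl := Option.some.inj h1
      rw [hcost] at h3
      rw [hfB]
      simp only [μ, ν, fa] at h3 ⊢
      omega
    · intro h
      refine ⟨ys[j], hget, hy j _ hget, ?_⟩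
      rw [hcost]
      rw [hfB] at h
      simp only [μ, ν, fa] at h ⊢
      omega

theorem rounds_of_seg [Finite L] [Finite R] (X : Set L) (Y : Set R) (xs : List L) (ys : List R)
    {t : ℕ} {p q : ℕ × ℕ}
    (h : Grid.Seg (gH aL aR lab typ M c X Y xs ys) (gV aL aR lab typ M c X Y xs ys) t p q) :
    ∀ w : List (Info B A c × Info A B c), TL aL lab M c w (chain X xs q.1) →
      TR aR typ (fun b a => M a b) c w (chain Y ys q.2) →
      ∃ w' : List (Info B A c × Info A B c), w'.length = t + w.length ∧
        TL aL lab M c w' (chain X xs p.1) ∧ TR aR typ (fun b a => M a b) c w' (chain Y ys p.2) := by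
  induction h with
  | refl => exact fun w h1 h2 => ⟨w, by simp, h1, h2⟩
  | @round t p q r s _ hH hV ih =>
    intro w h1 h2
    obtain ⟨hH1, hH2, hH3⟩ := hH
    obtain ⟨hV1, hV2, hV3⟩ := hV
    -- the run on the left
    have runL : ∀ k, q.1 ≤ k → k ≤ r.1 → RunI aL lab M c
        (info aR typ (fun b a => M a b) c (chain Y ys q.2)) (chain X xs q.1) (chain X xs k) := by
      intro k hk
      induction k, hk using Nat.le_induction with
      | base => exact fun _ => ReflTransGen.refl
      | succ k hk ihk =>
        intro hk'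
        obtain ⟨x, e1, e2, e3⟩ := hH3 k hk (by omega)
        refine (ihk (by omega)).tail ?_
        rw [chain_succ X xs k e1]
        exact (cost_inl_iff aL aR lab typ M c e2).mp e3
    have runR : ∀ k, r.2 ≤ k → k ≤ s.2 → RunI aR typ (fun b a => M a b) c
        (info aL lab M c (chain X xs r.1)) (chain Y ys r.2) (chain Y ys k) := by
      intro k hk
      induction k, hk using Nat.le_induction with
      | base => exact fun _ => ReflTransGen.refl
      | succ k hk ihk =>
        intro hk'
        obtain ⟨y, e1, e2, e3⟩ := hV3 k hk (by omega)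
        refine (ihk (by omega)).tail ?_
        rw [chain_succ Y ys k e1]
        exact (cost_inr_iff aL aR lab typ M c e2).mp e3
    have k1 : TL aL lab M c ((info aR typ (fun b a => M a b) c (chain Y ys q.2),
        info aL lab M c (chain X xs r.1)) :: w) (chain X xs q.1) := by
      refine ⟨chain X xs r.1, runL r.1 hH2 le_rfl, rfl, ?_⟩
      rw [hV1] at h1
      exact h1
    have k2 : TR aR typ (fun b a => M a b) c ((info aR typ (fun b a => M a b) c (chain Y ys q.2),
        info aL lab M c (chain X xs r.1)) :: w) (chain Y ys q.2) := by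
      refine ⟨rfl, chain Y ys s.2, ?_, h2⟩
      have := runR s.2 hV2 le_rfl
      rw [hH1] at this
      exact this
    obtain ⟨w', g1, g2, g3⟩ := ih _ k1 k2
    refine ⟨w', ?_, g2, g3⟩
    rw [g1, List.length_cons]
    omega

/-- Completability in a glued graph. -/
theorem comp_glue_iff [Finite L] [Finite R] [Finite A] [Finite B] (X : Set L) (Y : Set R) :
    Comp (glueAdj aL aR lab typ M) c (both X Y) ↔
      ∃ w : List (Info B A c × Info A B c), w.length = NN A B c ∧
        TL aL lab M c w X ∧ TR aR typ (fun b a => M a b) c w Y := by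
  constructor
  · intro h
    obtain ⟨xs, ys, h1, h2, h3⟩ := exists_path aL aR lab typ M c _ h X Y rfl
    have hseg := exists_seg aL aR lab typ M c X Y xs ys h3
    obtain ⟨w, e1, e2, e3⟩ := rounds_of_seg aL aR lab typ M c X Y xs ys hseg [] h1 h2
    simp only [chain_zero] at e2 e3
    exact ⟨w, by simpa using e1, e2, e3⟩
  · rintro ⟨w, _, h1, h2⟩
    exact comp_of_rounds aL aR lab typ M c w X Y h1 h2

end glue

end Pool.Agent.LCW
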