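import Mathlib
import Pool.Agent.LCW.Char

/-!
Graphs given by words (every new vertex is joined to the earlier vertices with certain labels, then
the labels are changed) and regularity of the language of completable marked words.
-/

namespace Pool.Agent.LCW

/-- A letter: the labels of the earlier vertices the new vertex is joined to, the new labels of the
earlier vertices as a function of the old ones, and the label of the new vertex. -/
abbrev Letter (Q : Type) := (Q → Bool) × (Q → Q) × Q

variable {Q : Type}

/-- the label after reading `w` of a vertex that has label `a` now -/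
def act (w : List (Letter Q)) (a : Q) : Q := w.foldl (fun a x => x.2.1 a) a

/-- is the `j`-th vertex of `w` adjacent to an earlier vertex that has label `a` now -/
def sees : List (Letter Q) → Q → ℕ → Bool
  | [], _, _ => false
  | x :: _, a, 0 => x.1 a
  | x :: w, a, j + 1 => sees w (x.2.1 a) j

/-- the adjacency of the graph given by a word -/
def adjW : List (Letter Q) → ℕ → ℕ → Bool
  | [], _, _ => false
  | _ :: _, 0, 0 => false
  | x :: w, 0, j + 1 => sees w x.2.2 j
  | x :: w, i + 1, 0 => sees w x.2.2 i
  | _ :: w, i + 1, j + 1 => adjW w i j

/-- the final label of the `i`-th vertex -/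
def labEnd : (w : List (Letter Q)) → (i : ℕ) → i < w.length → Q
  | [], _, h => absurd h (by simp)
  | x :: w, 0, _ => act w x.2.2
  | _ :: w, i + 1, h => labEnd w i (by simpa using h)

theorem sees_append_left (u v : List (Letter Q)) (a : Q) (j : ℕ) (h : j < u.length) :
    sees (u ++ v) a j = sees u a j := by
  induction u generalizing a j with
  | nil => simp at h
  | cons x u ih =>
    cases j with
    | zero => rfl
    | succ j => exact ih _ _ (by simpa using h)

theorem sees_append_right (u v : List (Letter Q)) (a : Q) (j : ℕ) :
    sees (u ++ v) a (u.length + j) = sees v (act u a) j := by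
  induction u generalizing a with
  | nil => simp [act]
  | cons x u ih =>
    rw [List.length_cons, show u.length + 1 + j = (u.length + j) + 1 by omega, List.cons_append]
    exact ih _

theorem adjW_append_left (u v : List (Letter Q)) (i j : ℕ) (hi : i < u.length)
    (hj : j < u.length) : adjW (u ++ v) i j = adjW u i j := by
  induction u generalizing i j with
  | nil => simp at hi
  | cons x u ih =>
    rw [List.length_cons] at hi hj
    cases i with
    | zero =>
      cases j with
      | zero => rfl
      | succ j => exact sees_append_left u v _ j (by omega)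
    | succ i =>
      cases j with
      | zero => exact sees_append_left u v _ i (by omega)
      | succ j => exact ih i j (by omega) (by omega)

theorem adjW_append_right (u v : List (Letter Q)) (i j : ℕ) :
    adjW (u ++ v) (u.length + i) (u.length + j) = adjW v i j := by
  induction u with
  | nil => simp
  | cons x u ih =>
    rw [List.length_cons, show u.length + 1 + j = (u.length + j) + 1 by omega,
      show u.length + 1 + i = (u.length + i) + 1 by omega]
    exact ih

theorem adjW_append_mid (u v : List (Letter Q)) (i j : ℕ) (hi : i < u.length) :
    adjW (u ++ v) i (u.length + j) = sees v (labEnd u i hi) j := by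
  induction u generalizing i with
  | nil => simp at hi
  | cons x u ih =>
    rw [List.length_cons, show u.length + 1 + j = (u.length + j) + 1 by omega]
    cases i with
    | zero => exact sees_append_right u v _ j
    | succ i => exact ih i (by simpa using hi)

theorem adjW_symm (w : List (Letter Q)) (i j : ℕ) : adjW w i j = adjW w j i := by
  induction w generalizing i j with
  | nil => rfl
  | cons x w ih => cases i <;> cases j <;> first | rfl | exact ih _ _

theorem adjW_self (w : List (Letter Q)) (i : ℕ) : adjW w i i = false := by
  induction w generalizing i with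
  | nil => rfl
  | cons x w ih => cases i <;> first | rfl | exact ih _

/-- the adjacency on the vertex set -/
def wadj (w : List (Letter Q × Bool)) (i j : Fin w.length) : Prop :=
  adjW (w.map Prod.fst) i j = true

/-- the marked vertices -/
def wset (w : List (Letter Q × Bool)) : Set (Fin w.length) := {i | (w.get i).2 = true}

/-- the language of the completable marked words -/
def LComp (Q : Type) (c : ℕ) : Language (Letter Q × Bool) := {w | Comp (wadj w) c (wset w)}

/-- the final labels -/
def wlab (w : List (Letter Q × Bool)) (i : Fin w.length) : Q :=
  labEnd (w.map Prod.fst) i (by simpa using i.2)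

/-- the types: which labels on the left is a vertex adjacent to -/
def wtyp (w : List (Letter Q × Bool)) (i : Fin w.length) : Q → Bool :=
  fun a => sees (w.map Prod.fst) a i

/-- the relation between labels and types -/
def MQ (a : Q) (b : Q → Bool) : Prop := b a = true

/-- vertices of a concatenation -/
def catEquiv (u v : List (Letter Q × Bool)) :
    Fin u.length ⊕ Fin v.length ≃ Fin (u ++ v).length :=
  finSumFinEquiv.trans (finCongr List.length_append.symm)

theorem catEquiv_inl (u v : List (Letter Q × Bool)) (i : Fin u.length) :
    ((catEquiv u v (Sum.inl i) : Fin _) : ℕ) = i := by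
  simp [catEquiv]

theorem catEquiv_inr (u v : List (Letter Q × Bool)) (i : Fin v.length) :
    ((catEquiv u v (Sum.inr i) : Fin _) : ℕ) = u.length + i := by
  simp [catEquiv]

theorem wadj_cat (u v : List (Letter Q × Bool)) (s t : Fin u.length ⊕ Fin v.length) :
    wadj (u ++ v) (catEquiv u v s) (catEquiv u v t) ↔
      glueAdj (wadj u) (wadj v) (wlab u) (wtyp v) MQ s t := by
  unfold wadj
  rw [List.map_append]
  have hl : (u.map Prod.fst).length = u.length := List.length_map _
  have hR : ∀ i j, adjW (u.map Prod.fst ++ v.map Prod.fst) (u.length + i) (u.length + j) =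
      adjW (v.map Prod.fst) i j := by
    intro i j
    have := adjW_append_right (u.map Prod.fst) (v.map Prod.fst) i j
    rwa [hl] at this
  have hM : ∀ (i : Fin u.length) j, adjW (u.map Prod.fst ++ v.map Prod.fst) i (u.length + j) =
      sees (v.map Prod.fst) (wlab u i) j := by
    intro i j
    have := adjW_append_mid (u.map Prod.fst) (v.map Prod.fst) i j (by simp)
    rw [show u.length + j = (u.map Prod.fst).length + j by rw [hl]]
    exact this
  rcases s with i | i <;> rcases t with j | j
  · rw [catEquiv_inl, catEquiv_inl, adjW_append_left _ _ _ _ (by simp) (by simp)]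
    exact Iff.rfl
  · rw [catEquiv_inl, catEquiv_inr, hM]
    exact Iff.rfl
  · rw [catEquiv_inl, catEquiv_inr, adjW_symm, hM]
    exact Iff.rfl
  · rw [catEquiv_inr, catEquiv_inr, hR]
    exact Iff.rfl

theorem wset_cat (u v : List (Letter Q × Bool)) :
    wset (u ++ v) = catEquiv u v '' both (wset u) (wset v) := by
  ext k
  obtain ⟨s, rfl⟩ := (catEquiv u v).surjective k
  simp only [Set.mem_image, EmbeddingLike.apply_eq_iff_eq, exists_eq_right]
  rcases s with i | i
  · simp only [wset, Set.mem_ofPred_eq, inl_mem_both, List.get_eq_getElem, catEquiv_inl]
    rw [List.getElem_append_left i.2]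
  · simp only [wset, Set.mem_ofPred_eq, inr_mem_both, List.get_eq_getElem, catEquiv_inr]
    rw [List.getElem_append_right (by omega)]
    simp

theorem mem_LComp_append [Finite Q] (c : ℕ) (u v : List (Letter Q × Bool)) :
    u ++ v ∈ LComp Q c ↔
      ∃ w : List (Info (Q → Bool) Q c × Info Q (Q → Bool) c), w.length = NN Q (Q → Bool) c ∧
        TL (wadj u) (wlab u) MQ c w (wset u) ∧
        TR (wadj v) (wtyp v) (fun b a => MQ a b) c w (wset v) := by
  rw [← comp_glue_iff, ← comp_equiv_iff (catEquiv u v) (wadj_cat u v), ← wset_cat]
  exact Iff.rfl

/-- the right part of the condition -/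
def rightLang (Q : Type) (c : ℕ)
    (s : Set (List (Info (Q → Bool) Q c × Info Q (Q → Bool) c))) : Language (Letter Q × Bool) :=
  {v | ∃ w ∈ s, TR (wadj v) (wtyp v) (fun b a => MQ a b) c w (wset v)}

theorem regular_LComp [Finite Q] (c : ℕ) : (LComp Q c).IsRegular := by
  rw [Language.isRegular_iff_finite_range_leftQuotient]
  let F : Set (List (Info (Q → Bool) Q c × Info Q (Q → Bool) c)) :=
    {w | w.length = NN Q (Q → Bool) c}
  have hF : F.Finite := List.finite_length_eq _ _
  refine (hF.finite_subsets.image (rightLang Q c)).subset ?_
  rintro _ ⟨u, rfl⟩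
  refine ⟨{w | w.length = NN Q (Q → Bool) c ∧ TL (wadj u) (wlab u) MQ c w (wset u)},
    fun w hw => hw.1, ?_⟩
  apply Language.ext
  intro v
  rw [Language.mem_leftQuotient, mem_LComp_append]
  constructor
  · rintro ⟨w, ⟨h1, h2⟩, h3⟩
    exact ⟨w, h1, h2, h3⟩
  · rintro ⟨w, h1, h2, h3⟩
    exact ⟨w, ⟨h1, h2⟩, h3⟩

end Pool.Agent.LCW
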