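import Mathlib
import Pool.Agent.LCW.Words
import Pool.Agent.LCW.Mono

/-!
From a word with many labels to a word with few labels: a greedy algorithm.
-/

namespace Pool.Agent.LCW

open Relation

variable {Q : Type}

/-! ### records -/

/-- a record: a vertex, its letter, and its current label -/
abbrev Rec (Q : Type) := ℕ × Letter Q × Q

/-- the vertices of the records -/
def verts (o : List (Rec Q)) : List ℕ := o.map (fun r => r.1)

/-- the letters of the records -/
def lets (o : List (Rec Q)) : List (Letter Q) := o.map (fun r => r.2.1)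

/-- add a new vertex with its letter -/
def push (o : List (Rec Q)) (x : ℕ) (p : Letter Q) : List (Rec Q) :=
  o.map (fun r => (r.1, r.2.1, p.2.1 r.2.2)) ++ [(x, p, p.2.2)]

theorem verts_push (o : List (Rec Q)) (x : ℕ) (p : Letter Q) :
    verts (push o x p) = verts o ++ [x] := by
  simp [verts, push]

theorem lets_push (o : List (Rec Q)) (x : ℕ) (p : Letter Q) :
    lets (push o x p) = lets o ++ [p] := by
  simp [lets, push]

theorem length_push (o : List (Rec Q)) (x : ℕ) (p : Letter Q) :
    (push o x p).length = o.length + 1 := by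
  simp [push]

@[simp] theorem length_lets (o : List (Rec Q)) : (lets o).length = o.length := by simp [lets]

@[simp] theorem length_verts (o : List (Rec Q)) : (verts o).length = o.length := by simp [verts]

/-- the letters describe the graph on the vertices of the records -/
structure Good (g : ℕ → ℕ → Bool) (o : List (Rec Q)) : Prop where
  nodup : (verts o).Nodup
  adj : ∀ a b (ha : a < o.length) (hb : b < o.length), adjW (lets o) a b = g o[a].1 o[b].1
  lab : ∀ a (ha : a < o.length), o[a].2.2 = labEnd (lets o) a (by simpa using ha)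

theorem labEnd_append_left (u v : List (Letter Q)) (i : ℕ) (hi : i < u.length)
    (hi' : i < (u ++ v).length) : labEnd (u ++ v) i hi' = act v (labEnd u i hi) := by
  induction u generalizing i with
  | nil => simp at hi
  | cons x u ih =>
    cases i with
    | zero =>
      show act (u ++ v) x.2.2 = act v (act u x.2.2)
      simp [act]
    | succ i => exact ih i _ _

theorem labEnd_append_right (u v : List (Letter Q)) (i : ℕ) (hi : i < v.length)
    (hi' : u.length + i < (u ++ v).length) : labEnd (u ++ v) (u.length + i) hi' = labEnd v i hi := by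
  induction u with
  | nil =>
    have : ∀ j (h : j < v.length), j = i → labEnd v j h = labEnd v i hi := by
      rintro j h rfl; rfl
    exact this _ _ (by simp)
  | cons x u ih =>
    have h1 : u.length + 1 + i = (u.length + i) + 1 := by omega
    have : ∀ j (h : j < ((x :: u) ++ v).length), j = (u.length + i) + 1 →
        labEnd ((x :: u) ++ v) j h = labEnd v i hi := by
      rintro j h rfl
      exact ih _
    exact this _ _ (by rw [List.length_cons]; omega)

theorem adjW_append_last (u : List (Letter Q)) (p : Letter Q) (i : ℕ) {n : ℕ}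
    (hi : i < u.length) (hn : u.length = n) : adjW (u ++ [p]) i n = p.1 (labEnd u i hi) := by
  subst hn
  exact adjW_append_mid u [p] i 0 hi

theorem Good.push {g : ℕ → ℕ → Bool} (hsymm : ∀ a b, g a b = g b a) (hirr : ∀ a, g a a = false)
    {o : List (Rec Q)} (h : Good g o) {x : ℕ} {p : Letter Q} (hx : x ∉ verts o)
    (hp : ∀ r ∈ o, p.1 r.2.2 = g r.1 x) : Good g (push o x p) := by
  have hl : ∀ a (ha : a < o.length) (ha' : a < (LCW.push o x p).length),
      (LCW.push o x p)[a] = (o[a].1, o[a].2.1, p.2.1 o[a].2.2) := by
    intro a ha ha'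
    simp [LCW.push, ha]
  have hr : ∀ (ha' : o.length < (LCW.push o x p).length),
      (LCW.push o x p)[o.length] = (x, p, p.2.2) := by
    intro ha'
    simp [LCW.push]
  have hmid : ∀ a (ha : a < o.length), adjW (lets o ++ [p]) a o.length = g o[a].1 x := by
    intro a ha
    rw [adjW_append_last (lets o) p a (by simpa using ha) (length_lets o), ← h.lab a ha]
    exact hp _ (List.getElem_mem ha)
  refine ⟨?_, ?_, ?_⟩
  · rw [verts_push, List.nodup_append]
    refine ⟨h.nodup, by simp, ?_⟩
    intro a ha b hb
    rw [List.mem_singleton] at hb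
    rintro rfl
    exact hx (hb ▸ ha)
  · intro a b ha hb
    rw [lets_push]
    have ha2 : a < o.length ∨ a = o.length := by rw [length_push] at ha; omega
    have hb2 : b < o.length ∨ b = o.length := by rw [length_push] at hb; omega
    rcases ha2 with ha2 | rfl <;> rcases hb2 with hb2 | rfl
    · rw [adjW_append_left _ _ _ _ (by simpa using ha2) (by simpa using hb2), hl a ha2, hl b hb2]
      exact h.adj a b ha2 hb2
    · rw [hmid a ha2, hl a ha2, hr]
    · rw [adjW_symm, hmid b hb2, hl b hb2, hr, hsymm]
    · rw [adjW_self, hr, hirr]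
  · intro a ha
    have ha2 : a < o.length ∨ a = o.length := by rw [length_push] at ha; omega
    have aux : ∀ (u u' : List (Letter Q)) (e : u = u') (h1 : a < u.length) (h2 : a < u'.length),
        labEnd u a h1 = labEnd u' a h2 := by
      rintro u _ rfl _ _; rfl
    have hlen : a < (lets o ++ [p]).length := by simpa [length_push] using ha
    rw [aux _ _ (lets_push o x p) _ hlen]
    rcases ha2 with ha2 | rfl
    · rw [hl a ha2, labEnd_append_left _ _ _ (by simpa using ha2)]
      simp only [act, List.foldl_cons, List.foldl_nil]
      rw [h.lab a ha2]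
    · rw [hr]
      have h1 := labEnd_append_right (lets o) [p] 0 (by simp) (by simp)
      have aux2 : ∀ j (h1 : j < (lets o ++ [p]).length) (h2 : o.length < (lets o ++ [p]).length),
          j = o.length → labEnd (lets o ++ [p]) o.length h2 = labEnd (lets o ++ [p]) j h1 := by
        rintro j _ _ rfl; rfl
      rw [aux2 ((lets o).length + 0) (by simp) _ (by simp), h1]
      rfl

/-! ### adding a vertex with twice as many labels -/

/-- the letter with one more bit in the labels -/
def liftL (l : Letter Q) (b : Bool) : Letter (Q × Bool) :=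
  (fun q => l.1 q.1, fun q => (l.2.1 q.1, q.2), (l.2.2, b))

/-- the letter of the last vertex -/
def lastL [Inhabited Q] : Letter (Q × Bool) := (fun q => q.2, id, (default, false))

/-- the word for the graph with one more vertex -/
def lift [Inhabited Q] (g : ℕ → ℕ → Bool) (x : ℕ) (o : List (Rec Q)) :
    List (ℕ × Letter (Q × Bool)) :=
  o.map (fun r => (r.1, liftL r.2.1 (g r.1 x))) ++ [(x, lastL)]

theorem act_lift (u : List (Letter Q × Bool)) (a : Q) (b : Bool) :
    act (u.map fun p => liftL p.1 p.2) (a, b) = (act (u.map Prod.fst) a, b) := by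
  induction u generalizing a with
  | nil => rfl
  | cons x u ih => exact ih _

theorem sees_lift (u : List (Letter Q × Bool)) (a : Q) (b : Bool) (j : ℕ) :
    sees (u.map fun p => liftL p.1 p.2) (a, b) j = sees (u.map Prod.fst) a j := by
  induction u generalizing a j with
  | nil => rfl
  | cons x u ih =>
    cases j with
    | zero => rfl
    | succ j => exact ih _ _

theorem adjW_lift (u : List (Letter Q × Bool)) (i j : ℕ) :
    adjW (u.map fun p => liftL p.1 p.2) i j = adjW (u.map Prod.fst) i j := by
  induction u generalizing i j with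
  | nil => rfl
  | cons x u ih =>
    cases i with
    | zero =>
      cases j with
      | zero => rfl
      | succ j => exact sees_lift u _ _ j
    | succ i =>
      cases j with
      | zero => exact sees_lift u _ _ i
      | succ j => exact ih i j

theorem labEnd_lift (u : List (Letter Q × Bool)) (i : ℕ) (hi : i < u.length)
    (h1 : i < (u.map fun p => liftL p.1 p.2).length) (h2 : i < (u.map Prod.fst).length) :
    labEnd (u.map fun p => liftL p.1 p.2) i h1 = (labEnd (u.map Prod.fst) i h2, u[i].2) := by
  induction u generalizing i with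
  | nil => simp at hi
  | cons x u ih =>
    cases i with
    | zero => exact act_lift u _ _
    | succ i => exact ih i (by simpa using hi) _ _

theorem length_lift [Inhabited Q] (g : ℕ → ℕ → Bool) (x : ℕ) (o : List (Rec Q)) :
    (lift g x o).length = o.length + 1 := by
  simp [lift]

theorem map_fst_lift [Inhabited Q] (g : ℕ → ℕ → Bool) (x : ℕ) (o : List (Rec Q)) :
    (lift g x o).map Prod.fst = verts o ++ [x] := by
  simp [lift, verts]

theorem lift_adj [Inhabited Q] {g : ℕ → ℕ → Bool} (hsymm : ∀ a b, g a b = g b a)
    (hirr : ∀ a, g a a = false) {o : List (Rec Q)} (h : Good g o) (x : ℕ) (a b : ℕ)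
    (ha : a < (lift g x o).length) (hb : b < (lift g x o).length) :
    adjW ((lift g x o).map Prod.snd) a b = g (lift g x o)[a].1 (lift g x o)[b].1 := by
  set u : List (Letter Q × Bool) := o.map (fun r => (r.2.1, g r.1 x)) with hu
  have hu1 : u.map Prod.fst = lets o := by simp [hu, lets]
  have hul : u.length = o.length := by simp [hu]
  have hmap : (lift g x o).map Prod.snd = (u.map fun p => liftL p.1 p.2) ++ [lastL] := by
    simp [lift, hu]
  have hl : ∀ a (ha : a < o.length) (ha' : a < (lift g x o).length),
      (lift g x o)[a].1 = o[a].1 := by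
    intro a ha ha'
    simp only [lift]
    rw [List.getElem_append_left (by simpa using ha), List.getElem_map]
  have hr : ∀ (ha' : o.length < (lift g x o).length), (lift g x o)[o.length].1 = x := by
    intro ha'
    simp only [lift]
    rw [List.getElem_append_right (by simp)]
    simp
  have hmid : ∀ a (ha : a < o.length),
      adjW ((u.map fun p => liftL p.1 p.2) ++ [lastL]) a o.length = g o[a].1 x := by
    intro a ha
    rw [adjW_append_last (u.map fun p => liftL p.1 p.2) lastL a (by simpa [hul] using ha)
      (by simp [hul]), labEnd_lift u a (by simpa [hul] using ha) _ (by simpa [hul] using ha)]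
    simp [hu, lastL]
  rw [hmap]
  rw [length_lift] at ha hb
  have ha2 : a < o.length ∨ a = o.length := by omega
  have hb2 : b < o.length ∨ b = o.length := by omega
  rcases ha2 with ha2 | rfl <;> rcases hb2 with hb2 | rfl
  · rw [adjW_append_left _ _ _ _ (by simpa [hul] using ha2) (by simpa [hul] using hb2), adjW_lift,
      hu1, hl a ha2, hl b hb2]
    exact h.adj a b ha2 hb2
  · rw [hmid a ha2, hl a ha2, hr]
  · rw [adjW_symm, hmid b hb2, hl b hb2, hr, hsymm]
  · rw [adjW_self, hr, hirr]

/-! ### completability as a property of the marked word -/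

/-- completability of a set of vertices in the graph on `0, …, m - 1` -/
def GComp (g : ℕ → ℕ → Bool) (m c : ℕ) (S : Set ℕ) : Prop :=
  Comp (fun a b : Fin m => g a b = true) c {a | (a : ℕ) ∈ S}

/-- the marked word -/
def mark {Q' : Type} (S : List ℕ) (W : List (ℕ × Letter Q')) : List (Letter Q' × Bool) :=
  W.map (fun r => (r.2, decide (r.1 ∈ S)))

theorem mark_mem_iff {Q' : Type} {g : ℕ → ℕ → Bool} {W : List (ℕ × Letter Q')} {m c : ℕ}
    (h1 : (W.map Prod.fst).Nodup) (h2 : ∀ v, v ∈ W.map Prod.fst ↔ v < m)
    (h3 : ∀ a b (ha : a < W.length) (hb : b < W.length),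
      adjW (W.map Prod.snd) a b = g W[a].1 W[b].1) (S : List ℕ) :
    mark S W ∈ LComp Q' c ↔ GComp g m c {v | v ∈ S} := by
  have hlen : (mark S W).length = W.length := by simp [mark]
  let f : Fin (mark S W).length → Fin m := fun k =>
    ⟨(W[(k : ℕ)]'(hlen ▸ k.2)).1, (h2 _).mp (List.mem_map_of_mem (List.getElem_mem _))⟩
  have hf : Function.Bijective f := by
    constructor
    · intro k k' hkk
      have e1 : (W[(k : ℕ)]'(hlen ▸ k.2)).1 = (W[(k' : ℕ)]'(hlen ▸ k'.2)).1 :=
        congrArg Fin.val hkk
      have e2 := (List.Nodup.getElem_inj_iff h1 (i := (k : ℕ)) (j := (k' : ℕ))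
        (hi := by simpa using (hlen ▸ k.2 : (k : ℕ) < W.length))
        (hj := by simpa using (hlen ▸ k'.2 : (k' : ℕ) < W.length))).mp (by simpa using e1)
      exact Fin.ext e2
    · intro v
      obtain ⟨r, hr, hrv⟩ := List.mem_map.mp ((h2 v).mpr v.2)
      obtain ⟨k, hk, rfl⟩ := List.getElem_of_mem hr
      exact ⟨⟨k, by rw [hlen]; exact hk⟩, Fin.ext hrv⟩
  let e := Equiv.ofBijective f hf
  have hadj : ∀ k k', (fun a b : Fin m => g a b = true) (e k) (e k') ↔ wadj (mark S W) k k' := by
    intro k k'
    unfold wadj
    have e1 : (mark S W).map Prod.fst = W.map Prod.snd := by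
      simp [mark]
    rw [e1, h3 k k' (hlen ▸ k.2) (hlen ▸ k'.2)]
    exact Iff.rfl
  have hset : {a : Fin m | (a : ℕ) ∈ {v | v ∈ S}} = e '' wset (mark S W) := by
    ext v
    obtain ⟨k, rfl⟩ := e.surjective v
    simp only [Set.mem_image, EmbeddingLike.apply_eq_iff_eq, exists_eq_right]
    simp only [wset, Set.mem_ofPred_eq, mark, List.get_eq_getElem, List.getElem_map, decide_eq_true_iff]
    exact Iff.rfl
  unfold GComp
  rw [hset, comp_equiv_iff e hadj]
  exact Iff.rfl

end Pool.Agent.LCW
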