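import Mathlib
import Pool.Agent.LCW.Extract

/-!
Correctness of the greedy algorithm.
-/

namespace Pool.Agent.LCW

open Relation

/-! ### candidates -/

section cand

variable {Q : Type}

/-- vertices with the same label have the same neighbours outside -/
def LabOK (g : ℕ → ℕ → Bool) (m : ℕ) (o : List (Rec Q)) : Prop :=
  ∀ r ∈ o, ∀ r' ∈ o, r.2.2 = r'.2.2 → ∀ t < m, t ∉ verts o → g r.1 t = g r'.1 t

/-- the pairs of a vertex and a letter that can be added -/
def Cand (g : ℕ → ℕ → Bool) (m c : ℕ) (W : List (ℕ × Letter (Q × Bool))) (o : List (Rec Q))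
    (x : ℕ) (p : Letter Q) : Prop :=
  x < m ∧ x ∉ verts o ∧ (∀ r ∈ o, p.1 r.2.2 = g r.1 x) ∧ LabOK g m (push o x p) ∧
    mark (verts (push o x p)) W ∈ LComp (Q × Bool) c

/-- the words that describe the graph on `0, …, m - 1` -/
structure IsWord {Q' : Type} (g : ℕ → ℕ → Bool) (m : ℕ) (W : List (ℕ × Letter Q')) : Prop where
  nodup : (W.map Prod.fst).Nodup
  mem : ∀ v, v ∈ W.map Prod.fst ↔ v < m
  adj : ∀ a b (ha : a < W.length) (hb : b < W.length),
      adjW (W.map Prod.snd) a b = g W[a].1 W[b].1

theorem gcomp_univ_of_length_zero (g : ℕ → ℕ → Bool) (c : ℕ) (S : Set ℕ) : GComp g 0 c S := by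
  unfold GComp Comp
  have : {a : Fin 0 | (a : ℕ) ∈ S} = Set.univ := Set.eq_univ_of_forall fun a => a.elim0
  rw [this]

/-- The first vertex can be any vertex. -/
theorem gcomp_empty_of_singleton (g : ℕ → ℕ → Bool) {m c : ℕ} (hc : 1 ≤ c) {x : ℕ} (hx : x < m)
    (h : GComp g m c {v | v ∈ [x]}) : GComp g m c ∅ := by
  classical
  unfold GComp Comp at *
  refine ReflTransGen.head ⟨⟨x, hx⟩, by simp, ?_, ?_⟩ h
  · ext a
    simp [Fin.ext_iff]
  · have h0 : {a : Fin m | (a : ℕ) ∈ (∅ : Set ℕ)} = ∅ := by ext; simp
    unfold cost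
    rw [h0, Set.image_empty, Set.ncard_empty]
    split <;> omega

end cand

section fin

variable {c : ℕ}

/-- there is always a vertex to add -/
theorem exists_cand {g : ℕ → ℕ → Bool} (hc : 1 ≤ c) {m : ℕ}
    {W : List (ℕ × Letter (Fin c × Bool))} (hW : IsWord g m W) {o : List (Rec (Fin c))}
    (ho : ∀ v ∈ verts o, v < m) (hlab : LabOK g m o) (hlen : o.length < m)
    (h : GComp g m c {v | v ∈ verts o}) : ∃ x p, Cand g m c W o x p := by
  classical
  have : Inhabited (Fin c) := ⟨⟨0, hc⟩⟩
  unfold GComp Comp at h
  rcases ReflTransGen.cases_head h with h0 | ⟨S', ⟨x, hx, rfl, h1⟩, h2⟩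
  · exfalso
    -- all vertices are in `o`, but there are not enough records
    have : List.range m ⊆ verts o := by
      intro v hv
      have : (⟨v, List.mem_range.mp hv⟩ : Fin m) ∈ {a : Fin m | (a : ℕ) ∈ {v | v ∈ verts o}} := by
        rw [h0]; trivial
      exact this
    have := (List.nodup_range.subperm this).length_le
    rw [List.length_range, length_verts] at this
    omega
  · set S : Set (Fin m) := insert x {a : Fin m | (a : ℕ) ∈ {v | v ∈ verts o}} with hS
    have h3 : Comp (fun a b : Fin m => g a b = true) c S := h2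
    have hncard := h3.ncard_le hc
    set G : Fin m → Fin m → Prop := fun a b => g a b = true with hG
    -- an injection of the rows into the labels
    obtain ⟨ι, hι⟩ : ∃ ι : Set (Fin m) → Fin c, Set.InjOn ι (row G S '' S) := by
      haveI : Fintype (row G S '' S) := Fintype.ofFinite _
      have hcard : Fintype.card (row G S '' S) ≤ Fintype.card (Fin c) := by
        rw [Fintype.card_fin, ← Nat.card_eq_fintype_card, Nat.card_coe_set_eq]
        exact hncard
      obtain ⟨e⟩ := Function.Embedding.nonempty_of_card_le hcard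
      refine ⟨fun T => if h : T ∈ row G S '' S then e ⟨T, h⟩ else default, ?_⟩
      intro T hT T' hT' hTT
      simp only [dif_pos hT, dif_pos hT'] at hTT
      exact congrArg Subtype.val (e.injective hTT)
    -- the row of a vertex number
    let R : ℕ → Set (Fin m) := fun v => {z | z ∉ S ∧ g v z = true}
    let p : Letter (Fin c) := (fun q => decide (∃ r ∈ o, r.2.2 = q ∧ g r.1 x = true),
      fun q => if hq : ∃ r ∈ o, r.2.2 = q then ι (R hq.choose.1) else default, ι (R x))
    have hxo : (x : ℕ) ∉ verts o := hx
    have hmemS : ∀ t : Fin m, t ∉ S → (t : ℕ) ∉ verts o := by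
      intro t ht ht'
      exact ht (Set.mem_insert_of_mem _ ht')
    have hR : ∀ r ∈ o, ∀ r' ∈ o, r.2.2 = r'.2.2 → R r.1 = R r'.1 := by
      intro r hr r' hr' hrr
      ext z
      simp only [R, Set.mem_ofPred_eq]
      constructor
      · rintro ⟨h4, h5⟩
        exact ⟨h4, by rw [← hlab r hr r' hr' hrr z z.2 (hmemS z h4)]; exact h5⟩
      · rintro ⟨h4, h5⟩
        exact ⟨h4, by rw [hlab r hr r' hr' hrr z z.2 (hmemS z h4)]; exact h5⟩
    have hf : ∀ r ∈ o, p.2.1 r.2.2 = ι (R r.1) := by
      intro r hr
      have hq : ∃ r' ∈ o, r'.2.2 = r.2.2 := ⟨r, hr, rfl⟩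
      simp only [p, dif_pos hq]
      rw [hR _ hq.choose_spec.1 r hr hq.choose_spec.2]
    refine ⟨x, p, x.2, hxo, ?_, ?_, ?_⟩
    · intro r hr
      simp only [p]
      by_cases h4 : g r.1 x = true
      · rw [h4]
        exact decide_eq_true ⟨r, hr, rfl, h4⟩
      · rw [Bool.eq_false_iff.mpr h4]
        apply decide_eq_false
        rintro ⟨r', hr', h5, h6⟩
        rw [hlab r' hr' r hr h5 x x.2 hxo] at h6
        exact h4 h6
    · -- the labels are valid
      have key : ∀ r ∈ push o x p, r.2.2 = ι (R r.1) ∧ ∃ v : Fin m, v ∈ S ∧ (v : ℕ) = r.1 := by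
        intro r hr
        rw [push, List.mem_append, List.mem_singleton] at hr
        rcases hr with hr | rfl
        · obtain ⟨r', hr', rfl⟩ := List.mem_map.mp hr
          refine ⟨hf r' hr', ⟨r'.1, ho _ (List.mem_map_of_mem hr')⟩, ?_, rfl⟩
          refine Set.mem_insert_of_mem _ ?_
          show r'.1 ∈ verts o
          exact List.mem_map_of_mem hr'
        · exact ⟨rfl, x, Set.mem_insert _ _, rfl⟩
      intro r hr r' hr' hrr t ht htv
      obtain ⟨e1, v, hv, hvr⟩ := key r hr
      obtain ⟨e2, v', hv', hvr'⟩ := key r' hr'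
      rw [e1, e2] at hrr
      have e3 : row G S v = R r.1 := by
        ext z; simp [row, R, G, hvr]
      have e4 : row G S v' = R r'.1 := by
        ext z; simp [row, R, G, hvr']
      have e5 : R r.1 = R r'.1 := by
        rw [← e3, ← e4] at hrr ⊢
        exact hι ⟨v, hv, rfl⟩ ⟨v', hv', rfl⟩ hrr
      have htS : (⟨t, ht⟩ : Fin m) ∉ S := by
        rintro (h6 | h6)
        · apply htv
          rw [verts_push]
          have : t = x := congrArg Fin.val h6
          rw [this]
          simp
        · apply htv
          rw [verts_push]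
          exact List.mem_append_left _ h6
      have h7 : (⟨t, ht⟩ : Fin m) ∈ R r.1 ↔ (⟨t, ht⟩ : Fin m) ∈ R r'.1 := by rw [e5]
      simp only [R, Set.mem_ofPred_eq, htS, not_false_eq_true, true_and] at h7
      exact Bool.eq_iff_iff.mpr h7
    · rw [mark_mem_iff hW.nodup hW.mem hW.adj]
      unfold GComp
      convert h3 using 1
      ext a
      simp only [verts_push, List.mem_append, List.mem_singleton, Set.mem_ofPred_eq, hS,
        Set.mem_insert_iff, Fin.ext_iff]
      tauto

/-! ### rounds -/

/-- one round, given a selection function -/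
def round (sel : List (Rec (Fin c)) → Option (ℕ × Letter (Fin c)))
    (st : Option (List (Rec (Fin c)))) : Option (List (Rec (Fin c))) :=
  st.bind fun o => (sel o).map fun xp => push o xp.1 xp.2

/-- the specification of a selection function -/
def SelSpec (g : ℕ → ℕ → Bool) (m c : ℕ) (W : List (ℕ × Letter (Fin c × Bool)))
    (sel : List (Rec (Fin c)) → Option (ℕ × Letter (Fin c))) : Prop :=
  ∀ o, (∀ x p, sel o = some (x, p) → Cand g m c W o x p) ∧
    (sel o = none → ¬ ∃ x p, Cand g m c W o x p)

/-- the invariant after `k` rounds -/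
structure Inv (g : ℕ → ℕ → Bool) (m k : ℕ) (o : List (Rec (Fin c))) : Prop where
  good : Good g o
  lab : LabOK g m o
  len : o.length = k
  lt : ∀ v ∈ verts o, v < m

theorem rounds_spec {g : ℕ → ℕ → Bool} (hsymm : ∀ a b, g a b = g b a)
    (hirr : ∀ a, g a a = false) (hc : 1 ≤ c) {m : ℕ}
    {W : List (ℕ × Letter (Fin c × Bool))} (hW : IsWord g m W)
    {sel : List (Rec (Fin c)) → Option (ℕ × Letter (Fin c))} (hsel : SelSpec g m c W sel)
    (k : ℕ) (hk : k ≤ m) :
    ((round sel)^[k] (some []) = none → ¬ GComp g m c ∅) ∧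
      ∀ o, (round sel)^[k] (some []) = some o → Inv g m k o ∧
        (GComp g m c ∅ ↔ GComp g m c {v | v ∈ verts o}) ∧
        (1 ≤ k → GComp g m c {v | v ∈ verts o}) := by
  induction k with
  | zero =>
    refine ⟨fun h => by simp at h, ?_⟩
    intro o ho
    simp only [Function.iterate_zero, id_eq, Option.some.injEq] at ho
    subst ho
    refine ⟨⟨⟨by simp [verts], ?_, ?_⟩, ?_, rfl, ?_⟩, ?_, ?_⟩
    · intro a b ha; simp at ha
    · intro a ha; simp at ha
    · intro r hr; simp at hr
    · intro v hv; simp [verts] at hv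
    · have : {v | v ∈ verts ([] : List (Rec (Fin c)))} = (∅ : Set ℕ) := by
        ext v; simp [verts]
      rw [this]
    · omega
  | succ k ih =>
    obtain ⟨ih1, ih2⟩ := ih (by omega)
    rw [Function.iterate_succ_apply']
    cases hst : (round sel)^[k] (some []) with
    | none =>
      refine ⟨fun _ => ih1 hst, ?_⟩
      intro o ho
      simp [round] at ho
    | some o' =>
      obtain ⟨hinv, hiff, hpos⟩ := ih2 o' hst
      cases hso : sel o' with
      | none =>
        constructor
        · intro _ hG
          exact (hsel o').2 hso (exists_cand hc hW hinv.lt hinv.lab (by rw [hinv.len]; omega)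
            (hiff.mp hG))
        · intro o ho
          simp [round, hso] at ho
      | some xp =>
        obtain ⟨x, p⟩ := xp
        obtain ⟨h1, h2, h3, h4, h5⟩ := (hsel o').1 x p hso
        rw [mark_mem_iff hW.nodup hW.mem hW.adj] at h5
        have hlt : ∀ v ∈ verts (push o' x p), v < m := by
          intro v hv
          rw [verts_push, List.mem_append, List.mem_singleton] at hv
          rcases hv with hv | rfl
          · exact hinv.lt v hv
          · exact h1
        have hempty : GComp g m c ∅ := by
          rcases Nat.eq_zero_or_pos k with rfl | hk0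
          · have ho' : o' = [] := List.length_eq_zero_iff.mp hinv.len
            subst ho'
            rw [verts_push] at h5
            exact gcomp_empty_of_singleton g hc h1 h5
          · exact hiff.mpr (hpos hk0)
        constructor
        · intro h; simp [round, hso] at h
        · intro o ho
          simp only [round, Option.bind_some, hso, Option.map_some, Option.some.injEq] at ho
          subst ho
          exact ⟨⟨hinv.good.push hsymm hirr h2 h3, h4, by rw [length_push, hinv.len], hlt⟩,
            ⟨fun _ => h5, fun _ => hempty⟩, fun _ => h5⟩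

/-! ### stages -/

/-- the word of the next stage is correct -/
theorem isWord_lift [Inhabited (Fin c)] {g : ℕ → ℕ → Bool} (hsymm : ∀ a b, g a b = g b a)
    (hirr : ∀ a, g a a = false) {i : ℕ} {o : List (Rec (Fin c))} (hgood : Good g o)
    (hlen : o.length = i) (hlt : ∀ v ∈ verts o, v < i) : IsWord g (i + 1) (lift g i o) := by
  have hperm : (verts o).Perm (List.range i) := by
    have hsub : verts o ⊆ List.range i := fun v hv => List.mem_range.mpr (hlt v hv)
    exact (hgood.nodup.subperm hsub).perm_of_length_le (by simp [hlen])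
  refine ⟨?_, ?_, ?_⟩
  · rw [map_fst_lift, List.nodup_append]
    refine ⟨hgood.nodup, by simp, ?_⟩
    intro a ha b hb
    rw [List.mem_singleton] at hb
    have := hlt a ha
    omega
  · intro v
    rw [map_fst_lift, List.mem_append, List.mem_singleton, hperm.mem_iff, List.mem_range]
    omega
  · intro a b ha hb
    exact lift_adj hsymm hirr hgood i a b ha hb

/-- one stage -/
def stage [Inhabited (Fin c)] (g : ℕ → ℕ → Bool)
    (sel : List (ℕ × Letter (Fin c × Bool)) → List (Rec (Fin c)) →
      Option (ℕ × Letter (Fin c)))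
    (st : Option (List (Rec (Fin c)))) (i : ℕ) : Option (List (Rec (Fin c))) :=
  st.bind fun o => (round (sel (lift g i o)))^[(lift g i o).length] (some [])

/-- completability of the empty set is inherited by smaller graphs -/
theorem gcomp_mono {g : ℕ → ℕ → Bool} {i j c : ℕ} (hij : i ≤ j) (h : GComp g j c ∅) :
    GComp g i c ∅ := by
  unfold GComp at *
  have := Comp.induced (φ := Fin.castLE hij) (adj' := fun a b : Fin i => g a b = true)
    (Fin.castLE_injective hij) (fun a b => Iff.rfl) h
  exact this

theorem stages_spec [Inhabited (Fin c)] {g : ℕ → ℕ → Bool} (hsymm : ∀ a b, g a b = g b a)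
    (hirr : ∀ a, g a a = false) (hc : 1 ≤ c)
    {sel : List (ℕ × Letter (Fin c × Bool)) → List (Rec (Fin c)) →
      Option (ℕ × Letter (Fin c))} (hsel : ∀ W, SelSpec g W.length c W (sel W)) (n : ℕ) :
    ((List.range n).foldl (stage g sel) (some []) = none → ¬ GComp g n c ∅) ∧
      ∀ o, (List.range n).foldl (stage g sel) (some []) = some o →
        Good g o ∧ o.length = n ∧ (∀ v ∈ verts o, v < n) ∧ GComp g n c ∅ := by
  induction n with
  | zero =>
    refine ⟨fun h => by simp at h, ?_⟩
    intro o ho
    simp only [List.range_zero, List.foldl_nil, Option.some.injEq] at ho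
    subst ho
    refine ⟨⟨by simp [verts], ?_, ?_⟩, rfl, ?_, gcomp_univ_of_length_zero g c ∅⟩
    · intro a b ha; simp at ha
    · intro a ha; simp at ha
    · intro v hv; simp [verts] at hv
  | succ n ih =>
    rw [List.range_succ, List.foldl_append, List.foldl_cons, List.foldl_nil]
    obtain ⟨ih1, ih2⟩ := ih
    cases hst : (List.range n).foldl (stage g sel) (some []) with
    | none =>
      constructor
      · intro _ hG
        exact ih1 hst (gcomp_mono (Nat.le_succ n) hG)
      · intro o ho
        simp [stage] at ho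
    | some o' =>
      obtain ⟨h1, h2, h3, h4⟩ := ih2 o' hst
      have hlen : (lift g n o').length = n + 1 := by rw [length_lift, h2]
      have hs : SelSpec g (n + 1) c (lift g n o') (sel (lift g n o')) := by
        have := hsel (lift g n o')
        rwa [hlen] at this
      obtain ⟨h5, h6⟩ := rounds_spec hsymm hirr hc (isWord_lift hsymm hirr h1 h2 h3)
        hs (n + 1) le_rfl
      simp only [stage, Option.bind_some, hlen]
      constructor
      · intro h
        exact h5 h
      · intro o ho
        obtain ⟨h7, h8, h9⟩ := h6 o ho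
        exact ⟨h7.good, h7.len, h7.lt, h8.mpr (h9 (by omega))⟩

/-- the algorithm is correct -/
theorem stages_correct [Inhabited (Fin c)] {g : ℕ → ℕ → Bool} (hsymm : ∀ a b, g a b = g b a)
    (hirr : ∀ a, g a a = false) (hc : 1 ≤ c)
    {sel : List (ℕ × Letter (Fin c × Bool)) → List (Rec (Fin c)) →
      Option (ℕ × Letter (Fin c))} (hsel : ∀ W, SelSpec g W.length c W (sel W)) (n : ℕ) :
    ((List.range n).foldl (stage g sel) (some [])).isSome = true ↔ GComp g n c ∅ := by
  obtain ⟨h1, h2⟩ := stages_spec hsymm hirr hc hsel n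
  cases hst : (List.range n).foldl (stage g sel) (some []) with
  | none => simpa using h1 hst
  | some o => simpa using (h2 o hst).2.2.2

end fin

end Pool.Agent.LCW
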