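import Mathlib
import Pool.Agent.LCW.Greedy
import Pool.Agent.PolyTime.Tags

/-!
The algorithm as a function on bit strings, and its polynomial running time.
-/

namespace Pool.Agent.LCW

open FP Relation

noncomputable section

/-- functions between finite types are coded by numbers -/
instance codeFun {α β : Type} [Fintype α] [DecidableEq α] [Fintype β] : Code (α → β) :=
  Code.ofInj (Fintype.equivFin (α → β)) (Equiv.injective _)

/-! ### the input -/

/-- the number of vertices -/
def nE (x : List Bool) : ℕ := x.length.sqrt

/-- the adjacency -/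
def gE (x : List Bool) (i j : ℕ) : Bool :=
  decide (i < nE x) && decide (j < nE x) && x.getD (i * nE x + j) false

@[fun_prop]
theorem poly_nE {α : Type} [Code α] {f : α → List Bool} (hf : Poly f) : Poly (fun a => nE (f a)) :=
  Poly.comp (g := nE) (Poly.sqrt (by fun_prop) (by fun_prop)) hf

@[fun_prop]
theorem polyBdd_nE {α : Type} [Code α] {f : α → List Bool} (hf : Poly f) :
    PolyBdd (fun a => nE (f a)) :=
  PolyBdd.mono (PolyBdd.length hf) (fun _ => Nat.sqrt_le_self _)

@[fun_prop]
theorem poly_gE {α : Type} [Code α] {f : α → List Bool} {g h : α → ℕ} (hf : Poly f) (hg : Poly g)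
    (hh : Poly h) : Poly (fun a => gE (f a) (g a) (h a)) := by
  unfold gE
  fun_prop

variable {c : ℕ}

/-! ### letters -/

/-- the labels a new vertex is joined to -/
def appA (p : Letter (Fin c)) (q : Fin c) : Bool := p.1 q

/-- the relabelling -/
def appF (p : Letter (Fin c)) (q : Fin c) : Fin c := p.2.1 q

@[fun_prop]
theorem poly_appA {α : Type} [Code α] {f : α → Letter (Fin c)} {g : α → Fin c} (hf : Poly f)
    (hg : Poly g) : Poly (fun a => appA (f a) (g a)) :=
  Poly.ofFinite₂ appA hf hg

@[fun_prop]
theorem poly_appF {α : Type} [Code α] {f : α → Letter (Fin c)} {g : α → Fin c} (hf : Poly f)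
    (hg : Poly g) : Poly (fun a => appF (f a) (g a)) :=
  Poly.ofFinite₂ appF hf hg

@[fun_prop]
theorem poly_liftL {α : Type} [Code α] {f : α → Letter (Fin c)} {g : α → Bool} (hf : Poly f)
    (hg : Poly g) : Poly (fun a => liftL (f a) (g a)) :=
  Poly.ofFinite₂ liftL hf hg

/-! ### records -/

@[fun_prop]
theorem poly_verts {α : Type} [Code α] {f : α → List (Rec (Fin c))} (hf : Poly f) :
    Poly (fun a => verts (f a)) := by
  unfold verts
  fun_prop

theorem push_eq (o : List (Rec (Fin c))) (x : ℕ) (p : Letter (Fin c)) :
    push o x p = o.map (fun r => (r.1, r.2.1, appF p r.2.2)) ++ [(x, p, p.2.2)] := rfl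

@[fun_prop]
theorem poly_push {α : Type} [Code α] {f : α → List (Rec (Fin c))} {g : α → ℕ}
    {h : α → Letter (Fin c)} (hf : Poly f) (hg : Poly g) (hh : Poly h) :
    Poly (fun a => push (f a) (g a) (h a)) := by
  simp only [push_eq]
  fun_prop

@[fun_prop]
theorem poly_lift [Inhabited (Fin c)] {α : Type} [Code α] {f : α → List Bool} {g : α → ℕ}
    {h : α → List (Rec (Fin c))} (hf : Poly f) (hg : Poly g) (hh : Poly h) :
    Poly (fun a => lift (gE (f a)) (g a) (h a)) := by
  unfold lift
  fun_prop

/-! ### the automaton -/

/-- a finite automaton -/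
structure Aut (c : ℕ) where
  q : ℕ
  step : Fin q → Letter (Fin c × Bool) × Bool → Fin q
  start : Fin q
  acc : Fin q → Bool

/-- acceptance -/
def Aut.run (A : Aut c) (w : List (Letter (Fin c × Bool) × Bool)) : Bool :=
  A.acc (w.foldl A.step A.start)

/-- there is an automaton for the completable marked words -/
theorem exists_aut (c : ℕ) : ∃ A : Aut c, ∀ w, A.run w = true ↔ w ∈ LComp (Fin c × Bool) c := by
  classical
  obtain ⟨σ, hσ, M, hM⟩ := regular_LComp (Q := Fin c × Bool) c
  let e := Fintype.equivFin σ
  refine ⟨⟨Fintype.card σ, fun s a => e (M.step (e.symm s) a), e M.start,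
    fun s => decide (e.symm s ∈ M.accept)⟩, fun w => ?_⟩
  have key : ∀ w : List (Letter (Fin c × Bool) × Bool),
      w.foldl (fun s a => e (M.step (e.symm s) a)) (e M.start) = e (w.foldl M.step M.start) := by
    intro w
    induction w using List.reverseRecOn with
    | nil => rfl
    | append_singleton w a ih => rw [List.foldl_append, List.foldl_append, ih]; simp
  simp only [Aut.run, key, Equiv.symm_apply_apply, decide_eq_true_iff]
  rw [← hM]
  rfl

@[fun_prop]
theorem poly_mark {α : Type} [Code α] {f : α → List ℕ}
    {g : α → List (ℕ × Letter (Fin c × Bool))} (hf : Poly f) (hg : Poly g) :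
    Poly (fun a => mark (f a) (g a)) := by
  unfold mark
  fun_prop

theorem poly_autStep (A : Aut c) {α : Type} [Code α] {f : α → Fin A.q}
    {g : α → Letter (Fin c × Bool) × Bool} (hf : Poly f) (hg : Poly g) :
    Poly (fun a => A.step (f a) (g a)) :=
  Poly.ofFinite₂ A.step hf hg

theorem poly_run (A : Aut c) {α : Type} [Code α]
    {f : α → List (Letter (Fin c × Bool) × Bool)} (hf : Poly f) :
    Poly (fun a => A.run (f a)) := by
  unfold Aut.run
  refine Poly.comp (g := A.acc) (Poly.ofFinite _) ?_
  refine Poly.foldl_finite hf (FP.Poly.const _) ?_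
  exact poly_autStep A (by fun_prop) (by fun_prop)

/-! ### candidates -/

/-- test whether the labels are valid -/
def labB (x : List Bool) (m : ℕ) (o : List (Rec (Fin c))) : Bool :=
  o.all fun r => o.all fun r' => !(decide (r.2.2 = r'.2.2)) || (List.range m).all fun t =>
    decide (t ∈ verts o) || !(Bool.xor (gE x r.1 t) (gE x r'.1 t))

/-- test whether a vertex and a letter can be added -/
def candB (A : Aut c) (x : List Bool) (W : List (ℕ × Letter (Fin c × Bool)))
    (o : List (Rec (Fin c))) (v : ℕ) (p : Letter (Fin c)) : Bool :=
  !(decide (v ∈ verts o)) && ((o.all fun r => !(Bool.xor (appA p r.2.2) (gE x r.1 v))) &&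
    (labB x W.length (push o v p) && A.run (mark (verts (push o v p)) W)))

theorem poly_labB {α : Type} [Code α] {f : α → List Bool} {g : α → ℕ}
    {h : α → List (Rec (Fin c))} (hf : Poly f) (hg : Poly g) (hb : PolyBdd g) (hh : Poly h) :
    Poly (fun a => labB (f a) (g a) (h a)) := by
  unfold labB
  refine Poly.all hh (Poly.all (by fun_prop) (Poly.or (by fun_prop) (Poly.all
    (Poly.range (by fun_prop) ?_) (by fun_prop))))
  exact hb.comp (by fun_prop)

theorem poly_candB (A : Aut c) {α : Type} [Code α] {f : α → List Bool}
    {g : α → List (ℕ × Letter (Fin c × Bool))} {h : α → List (Rec (Fin c))} {k : α → ℕ}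
    {l : α → Letter (Fin c)} (hf : Poly f) (hg : Poly g) (hh : Poly h) (hk : Poly k)
    (hl : Poly l) : Poly (fun a => candB A (f a) (g a) (h a) (k a) (l a)) := by
  unfold candB
  refine Poly.and (by fun_prop) (Poly.and (by fun_prop) (Poly.and ?_ ?_))
  · exact poly_labB (by fun_prop) (by fun_prop) (by fun_prop) (by fun_prop)
  · exact poly_run A (by fun_prop)

/-- all letters -/
def allLetters (c : ℕ) : List (Letter (Fin c)) := Finset.univ.toList

/-- the selection function -/
def selB (A : Aut c) (x : List Bool) (W : List (ℕ × Letter (Fin c × Bool)))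
    (o : List (Rec (Fin c))) : Option (ℕ × Letter (Fin c)) :=
  ((List.range W.length).flatMap fun v => (allLetters c).map fun p => (v, p)).find?
    fun vp => candB A x W o vp.1 vp.2

theorem poly_selB (A : Aut c) {α : Type} [Code α] {f : α → List Bool}
    {g : α → List (ℕ × Letter (Fin c × Bool))} {h : α → List (Rec (Fin c))} (hf : Poly f)
    (hg : Poly g) (hh : Poly h) : Poly (fun a => selB A (f a) (g a) (h a)) := by
  unfold selB
  refine Poly.find? (by fun_prop) ?_
  exact poly_candB A (by fun_prop) (by fun_prop) (by fun_prop) (by fun_prop) (by fun_prop)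

theorem xnor_iff (a b : Bool) : (!(Bool.xor a b)) = true ↔ a = b := by
  cases a <;> cases b <;> simp

theorem labB_iff (x : List Bool) (m : ℕ) (o : List (Rec (Fin c))) :
    labB x m o = true ↔ LabOK (gE x) m o := by
  unfold labB LabOK
  simp only [List.all_eq_true, Bool.or_eq_true, xnor_iff, List.mem_range, decide_eq_true_iff]
  constructor
  · intro h r hr r' hr' hrr t ht hto
    rcases h r hr r' hr' with h1 | h1
    · simp only [Bool.not_eq_true', decide_eq_false_iff_not] at h1
      exact absurd hrr h1
    · rcases h1 t ht with h2 | h2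
      · exact absurd h2 hto
      · exact h2
  · intro h r hr r' hr'
    by_cases hrr : r.2.2 = r'.2.2
    · right
      intro t ht
      by_cases hto : t ∈ verts o
      · exact Or.inl hto
      · exact Or.inr (h r hr r' hr' hrr t ht hto)
    · left
      simp only [Bool.not_eq_true', decide_eq_false_iff_not]
      exact hrr

theorem candB_iff {A : Aut c} (hA : ∀ w, A.run w = true ↔ w ∈ LComp (Fin c × Bool) c)
    (x : List Bool) (W : List (ℕ × Letter (Fin c × Bool))) (o : List (Rec (Fin c))) (v : ℕ)
    (p : Letter (Fin c)) (hv : v < W.length) :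
    candB A x W o v p = true ↔ Cand (gE x) W.length c W o v p := by
  unfold candB Cand
  rw [Bool.and_eq_true, Bool.and_eq_true, Bool.and_eq_true, labB_iff, hA, List.all_eq_true,
    Bool.not_eq_true', decide_eq_false_iff_not]
  constructor
  · rintro ⟨h1, h2, h3, h4⟩
    exact ⟨hv, h1, fun r hr => (xnor_iff _ _).mp (h2 r hr), h3, h4⟩
  · rintro ⟨_, h1, h2, h3, h4⟩
    exact ⟨h1, fun r hr => (xnor_iff _ _).mpr (h2 r hr), h3, h4⟩

theorem selB_spec {A : Aut c} (hA : ∀ w, A.run w = true ↔ w ∈ LComp (Fin c × Bool) c)
    (x : List Bool) (W : List (ℕ × Letter (Fin c × Bool))) :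
    SelSpec (gE x) W.length c W (selB A x W) := by
  intro o
  constructor
  · intro v p h
    have h1 := List.find?_some h
    have h2 := List.mem_of_find?_eq_some h
    simp only [List.mem_flatMap, List.mem_range, List.mem_map] at h2
    obtain ⟨v', hv', p', _, h3⟩ := h2
    simp only [Prod.mk.injEq] at h3
    obtain ⟨rfl, rfl⟩ := h3
    exact (candB_iff hA x W o v' p' hv').mp h1
  · rintro h ⟨v, p, hvp⟩
    unfold selB at h
    rw [List.find?_eq_none] at h
    have h1 := h (v, p) (by
      simp only [List.mem_flatMap, List.mem_range, List.mem_map]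
      exact ⟨v, hvp.1, p, by simp [allLetters], rfl⟩)
    exact h1 ((candB_iff hA x W o v p hvp.1).mpr hvp)

/-! ### rounds -/

theorem poly_round (A : Aut c) {α : Type} [Code α] {f : α → List Bool}
    {g : α → List (ℕ × Letter (Fin c × Bool))} {h : α → Option (List (Rec (Fin c)))}
    (hf : Poly f) (hg : Poly g) (hh : Poly h) :
    Poly (fun a => round (selB A (f a) (g a)) (h a)) := by
  unfold round
  refine Poly.optionBind hh ?_
  refine Poly.optionMap ?_ ?_
  · exact poly_selB A (by fun_prop) (by fun_prop) (by fun_prop)
  · fun_prop

/-- the rounds of a stage -/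
def roundsB (A : Aut c) (x : List Bool) (W : List (ℕ × Letter (Fin c × Bool))) :
    Option (List (Rec (Fin c))) :=
  (List.range W.length).foldl (fun st _ => round (selB A x W) st) (some [])

theorem foldl_range_iterate {σ : Type} (F : σ → σ) (s : σ) (n : ℕ) :
    (List.range n).foldl (fun st _ => F st) s = F^[n] s := by
  induction n with
  | zero => rfl
  | succ n ih =>
    rw [List.range_succ, List.foldl_append, ih, Function.iterate_succ_apply']
    rfl

theorem rounds_shape (A : Aut c) (x : List Bool) (W : List (ℕ × Letter (Fin c × Bool))) (k : ℕ) :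
    ∀ o, (round (selB A x W))^[k] (some []) = some o →
      o.length = k ∧ ∀ v ∈ verts o, v < W.length := by
  induction k with
  | zero =>
    intro o ho
    simp only [Function.iterate_zero, id_eq, Option.some.injEq] at ho
    subst ho
    exact ⟨rfl, fun v hv => by simp [verts] at hv⟩
  | succ k ih =>
    intro o ho
    rw [Function.iterate_succ_apply'] at ho
    cases hst : (round (selB A x W))^[k] (some []) with
    | none => rw [hst] at ho; simp [round] at ho
    | some o' =>
      rw [hst] at ho
      obtain ⟨h1, h2⟩ := ih o' hst
      cases hs : selB A x W o' with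
      | none => simp [round, hs] at ho
      | some vp =>
        obtain ⟨v, p⟩ := vp
        simp only [round, Option.bind_some, hs, Option.map_some, Option.some.injEq] at ho
        subst ho
        refine ⟨by rw [length_push, h1], ?_⟩
        intro u hu
        rw [verts_push, List.mem_append, List.mem_singleton] at hu
        rcases hu with hu | rfl
        · exact h2 u hu
        · have h3 := List.mem_of_find?_eq_some hs
          simp only [List.mem_flatMap, List.mem_range, List.mem_map] at h3
          obtain ⟨v', hv', p', _, h4⟩ := h3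
          simp only [Prod.mk.injEq] at h4
          rw [← h4.1]
          exact hv'

/-- a bound for the size of a list of records -/
theorem size_recs (c : ℕ) : ∃ K : ℕ, ∀ (N : ℕ) (o : List (Rec (Fin c))), (∀ v ∈ verts o, v ≤ N) →
    size o ≤ o.length * (4 * N + K) := by
  let K0 := Finset.univ.sup (fun s : Letter (Fin c) × Fin c => size s)
  refine ⟨2 * K0 + 3, fun N o => ?_⟩
  induction o with
  | nil => intro _; simp [size_nil]
  | cons r o ih =>
    intro h
    rw [size_cons, List.length_cons]
    have h1 : size o ≤ o.length * (4 * N + (2 * K0 + 3)) :=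
      ih (fun v hv => h v (by simp only [verts, List.map_cons, List.mem_cons]; exact Or.inr hv))
    have h2 : size r.1 ≤ N := (size_nat_le _).trans (h r.1 (by simp [verts]))
    have h3 : size r.2 ≤ K0 :=
      Finset.le_sup (f := fun s : Letter (Fin c) × Fin c => size s) (Finset.mem_univ _)
    have h4 : size r = 2 * size r.1 + 1 + size r.2 := size_prod r
    have e : (o.length + 1) * (4 * N + (2 * K0 + 3)) =
      o.length * (4 * N + (2 * K0 + 3)) + (4 * N + (2 * K0 + 3)) := by ring
    omega

theorem poly_roundsB (A : Aut c) {α : Type} [Code α] {f : α → List Bool}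
    {g : α → List (ℕ × Letter (Fin c × Bool))} (hf : Poly f) (hg : Poly g) :
    Poly (fun a => roundsB A (f a) (g a)) := by
  have key : Poly (fun a : List Bool × List (ℕ × Letter (Fin c × Bool)) =>
      roundsB A a.1 a.2) := by
    obtain ⟨K, hK⟩ := size_recs c
    unfold roundsB
    refine Poly.foldl (h := fun (a : List Bool × List (ℕ × Letter (Fin c × Bool))) st (_ : ℕ) =>
      round (selB A a.1 a.2) st) (g := fun _ => some []) (by fun_prop) (FP.Poly.const _) ?_
      (Polynomial.X * (4 * Polynomial.X + Polynomial.C K) + 1) ?_
    · exact poly_round A (by fun_prop) (by fun_prop) (by fun_prop)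
    · rintro ⟨x, W⟩ k hk
      simp only [List.length_range] at hk
      simp only [List.take_range]
      rw [foldl_range_iterate, min_eq_left hk]
      have hW : W.length ≤ size (x, W) := by
        rw [size_pair]
        have := length_le_size W
        omega
      simp only [Polynomial.eval_add, Polynomial.eval_mul, Polynomial.eval_X, Polynomial.eval_C,
        Polynomial.eval_one, Polynomial.eval_ofNat]
      cases hst : (round (selB A x W))^[k] (some []) with
      | none => rw [size_none]; omega
      | some o =>
        obtain ⟨h1, h2⟩ := rounds_shape A x W k o hst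
        rw [size_some]
        have h3 := hK W.length o (fun v hv => (h2 v hv).le)
        have h4 : o.length * (4 * W.length + K) ≤ size (x, W) * (4 * size (x, W) + K) :=
          Nat.mul_le_mul (by omega) (by omega)
        omega
  exact key.comp (f := fun a => (f a, g a)) (by fun_prop)

/-! ### stages -/

variable [Inhabited (Fin c)]

/-- the algorithm -/
def algoB (A : Aut c) (x : List Bool) : Bool :=
  ((List.range (nE x)).foldl (stage (gE x) (selB A x)) (some [])).isSome

theorem stage_eq (A : Aut c) (x : List Bool) (st : Option (List (Rec (Fin c)))) (i : ℕ) :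
    stage (gE x) (selB A x) st i = st.bind fun o => roundsB A x (lift (gE x) i o) := by
  unfold stage roundsB
  simp only [foldl_range_iterate]

theorem stages_shape (A : Aut c) (x : List Bool) (k : ℕ) :
    ∀ o, (List.range k).foldl (stage (gE x) (selB A x)) (some []) = some o →
      o.length = k ∧ ∀ v ∈ verts o, v < k := by
  induction k with
  | zero =>
    intro o ho
    simp only [List.range_zero, List.foldl_nil, Option.some.injEq] at ho
    subst ho
    exact ⟨rfl, fun v hv => by simp [verts] at hv⟩
  | succ k ih =>
    intro o ho
    rw [List.range_succ, List.foldl_append, List.foldl_cons, List.foldl_nil] at ho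
    cases hst : (List.range k).foldl (stage (gE x) (selB A x)) (some []) with
    | none => rw [hst] at ho; simp [stage] at ho
    | some o' =>
      rw [hst] at ho
      obtain ⟨h1, _⟩ := ih o' hst
      simp only [stage, Option.bind_some] at ho
      obtain ⟨h2, h3⟩ := rounds_shape A x _ _ o ho
      rw [length_lift, h1] at h2 h3
      exact ⟨h2, h3⟩

theorem poly_algoB (A : Aut c) : Poly (algoB A) := by
  obtain ⟨K, hK⟩ := size_recs c
  have h0 : Poly (fun x => (List.range (nE x)).foldl (stage (gE x) (selB A x)) (some [])) := ?_
  · exact (FP.Poly.optionCases (h := fun _ _ => true) h0 (FP.Poly.const false)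
      (FP.Poly.const true)).congr (fun x => by
        unfold algoB
        cases (List.range (nE x)).foldl (stage (gE x) (selB A x)) (some []) <;> rfl)
  refine Poly.foldl (h := fun (x : List Bool) st i => stage (gE x) (selB A x) st i)
    (g := fun _ => some []) (Poly.range (by fun_prop) (by fun_prop)) (FP.Poly.const _) ?_
    (Polynomial.X * (4 * Polynomial.X + Polynomial.C K) + 1) ?_
  · simp only [stage_eq]
    refine Poly.optionBind (by fun_prop) ?_
    exact poly_roundsB A (by fun_prop) (by fun_prop)
  · intro x k hk
    simp only [List.length_range] at hk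
    simp only [List.take_range]
    rw [min_eq_left hk]
    have hn : nE x ≤ size x := (Nat.sqrt_le_self _).trans (length_le_size x)
    simp only [Polynomial.eval_add, Polynomial.eval_mul, Polynomial.eval_X, Polynomial.eval_C,
      Polynomial.eval_one, Polynomial.eval_ofNat]
    cases hst : (List.range k).foldl (fun st i => stage (gE x) (selB A x) st i) (some []) with
    | none => rw [size_none]; omega
    | some o =>
      obtain ⟨h1, h2⟩ := stages_shape A x k o hst
      rw [size_some]
      have h3 := hK k o (fun v hv => (h2 v hv).le)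
      have h4 : o.length * (4 * k + K) ≤ size x * (4 * size x + K) :=
        Nat.mul_le_mul (by omega) (by omega)
      omega

theorem algoB_correct {A : Aut c} (hA : ∀ w, A.run w = true ↔ w ∈ LComp (Fin c × Bool) c)
    (hc : 1 ≤ c) (x : List Bool) (hsymm : ∀ a b, gE x a b = gE x b a)
    (hirr : ∀ a, gE x a a = false) : algoB A x = true ↔ GComp (gE x) (nE x) c ∅ :=
  stages_correct hsymm hirr hc (fun W => selB_spec hA x W) (nE x)

end

end Pool.Agent.LCW
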