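import Mathlib
import Pool.Agent.NPC.Defs

/-!
# Linear clique-width

`k`-expressions, the labelled graph of a `k`-expression, linear `k`-expressions, the linear
clique-width of a graph, and the decision problem LCW_c.
-/

namespace Pool.Agent.LCW

/-- A `k`-expression. `single i` creates a vertex with label `i`; `union s t` is the disjoint union;
`join i j _ s` adds all edges between the vertices labelled `i` and those labelled `j`;
`relabel i j s` gives the vertices labelled `i` the label `j`. -/
inductive CExpr (k : ℕ) : Type
  | single (i : Fin k)
  | union (s t : CExpr k)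
  | join (i j : Fin k) (h : i ≠ j) (s : CExpr k)
  | relabel (i j : Fin k) (s : CExpr k)

namespace CExpr

variable {k : ℕ}

/-- The vertices of the graph built by a `k`-expression. -/
def V : CExpr k → Type
  | single _ => Unit
  | union s t => s.V ⊕ t.V
  | join _ _ _ s => s.V
  | relabel _ _ s => s.V

/-- The labels of the vertices of the graph built by a `k`-expression. -/
def lab : (s : CExpr k) → s.V → Fin k
  | single i, _ => i
  | union s t, v => Sum.elim s.lab t.lab v
  | join _ _ _ s, v => s.lab v
  | relabel i j s, v => if s.lab v = i then j else s.lab v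

/-- The adjacency relation of the graph built by a `k`-expression. -/
def Adj : (s : CExpr k) → s.V → s.V → Prop
  | single _, _, _ => False
  | union s _, Sum.inl a, Sum.inl b => s.Adj a b
  | union _ t, Sum.inr a, Sum.inr b => t.Adj a b
  | union _ _, Sum.inl _, Sum.inr _ => False
  | union _ _, Sum.inr _, Sum.inl _ => False
  | join i j _ s, a, b => s.Adj a b ∨ (s.lab a = i ∧ s.lab b = j) ∨ (s.lab a = j ∧ s.lab b = i)
  | relabel _ _ s, a, b => s.Adj a b

theorem adj_symm : ∀ (s : CExpr k) (a b : s.V), s.Adj a b → s.Adj b a
  | single _, _, _, h => h
  | union s _, Sum.inl a, Sum.inl b, h => adj_symm s a b h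
  | union _ t, Sum.inr a, Sum.inr b, h => adj_symm t a b h
  | union _ _, Sum.inl _, Sum.inr _, h => h
  | union _ _, Sum.inr _, Sum.inl _, h => h
  | join _ _ _ s, a, b, h => by
    rcases h with h | h | h
    · exact Or.inl (adj_symm s a b h)
    · exact Or.inr (Or.inr ⟨h.2, h.1⟩)
    · exact Or.inr (Or.inl ⟨h.2, h.1⟩)
  | relabel _ _ s, a, b, h => adj_symm s a b h

theorem not_adj_self : ∀ (s : CExpr k) (a : s.V), ¬ s.Adj a a
  | single _, _, h => h
  | union s _, Sum.inl a, h => not_adj_self s a h
  | union _ t, Sum.inr a, h => not_adj_self t a h
  | join _ _ hij s, a, h => by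
    rcases h with h | h | h
    · exact not_adj_self s a h
    · exact hij (h.1.symm.trans h.2)
    · exact hij (h.2.symm.trans h.1)
  | relabel _ _ s, a, h => not_adj_self s a h

/-- The graph built by a `k`-expression, without its labels. -/
def graph (s : CExpr k) : SimpleGraph s.V where
  Adj := s.Adj
  symm := ⟨fun a b h => adj_symm s a b h⟩
  loopless := ⟨fun a h => not_adj_self s a h⟩

/-- A `k`-expression is linear if in every disjoint union one of the two operands is a graph with a
single vertex. -/
def Linear : CExpr k → Prop
  | single _ => True
  | union s t => s.Linear ∧ t.Linear ∧ (Nat.card s.V = 1 ∨ Nat.card t.V = 1)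
  | join _ _ _ s => s.Linear
  | relabel _ _ s => s.Linear

end CExpr

/-- The linear clique-width of a graph: the least `k` such that some linear `k`-expression builds a
graph isomorphic to it (and `0` for the graph without vertices). -/
noncomputable def lcw {V : Type} (G : SimpleGraph V) : ℕ :=
  sInf {k | ∃ s : CExpr k, s.Linear ∧ Nonempty (s.graph ≃g G)}

open Classical in
/-- The adjacency matrix of a graph on `0, …, n - 1`, written row by row as a bit string of length
`n * n`: the bit with index `i * n + j` is `1` if and only if `i` and `j` are adjacent. -/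
noncomputable def matrix {n : ℕ} (G : SimpleGraph (Fin n)) : List Bool :=
  List.ofFn fun k : Fin (n * n) => decide (G.Adj k.divNat k.modNat)

/-- The decision problem LCW_c, as a set of bit strings: the adjacency matrices of the graphs of
linear clique-width at most `c`. -/
def lcwLang (c : ℕ) : Set (List Bool) :=
  {x | ∃ (n : ℕ) (G : SimpleGraph (Fin n)), x = matrix G ∧ lcw G ≤ c}

/-- The class P: the sets of bit strings that are decided by a (multi-stack) Turing machine in
polynomial time. -/
def P : Set (Set (List Bool)) :=
  {L | ∃ f : List Bool → Bool, NPC.PolyTime NPC.encStr NPC.encBool f ∧ ∀ x, x ∈ L ↔ f x = true}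

end Pool.Agent.LCW
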