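import Mathlib
import Pool.Agent.LCW.Defs
import Pool.Agent.LCW.Cost

/-!
From linear `k`-expressions to layouts of cost at most `k`.
-/

namespace Pool.Agent.LCW

open Relation

variable {V : Type} {k : ℕ}

/-- The cost of a vertex that is added in a valid way. -/
theorem cost_le_of_labels [Finite V] {G : V → V → Prop} {S : Set V} {x : V}
    (lab : V → Fin k)
    (h1 : ∀ a ∈ S, ∀ b ∈ S, lab a = lab b → ∀ z, z ∉ S → (G a z ↔ G b z))
    (h2 : ∀ b ∈ S, lab b = lab x → ∀ z, z ∉ S → (G b z ↔ G x z))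
    (h3 : ∀ b ∈ S, lab b = lab x → ∀ z ∈ S, G x z → G b z) : cost G S x ≤ k := by
  classical
  -- rows are given by labels
  let F : Fin k → Set V := fun q => {z | z ∉ S ∧ ∃ a ∈ S, lab a = q ∧ G a z}
  have hF : ∀ a ∈ S, row G S a = F (lab a) := by
    intro a ha
    ext z
    simp only [row, F, Set.mem_ofPred_eq]
    constructor
    · rintro ⟨hz, haz⟩
      exact ⟨hz, a, ha, rfl, haz⟩
    · rintro ⟨hz, b, hb, hba, hbz⟩
      exact ⟨hz, (h1 b hb a ha hba z hz).mp hbz⟩
  have hrows : row G S '' S = F '' (lab '' S) := by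
    rw [Set.image_image]
    exact Set.image_congr hF
  have hfin : ∀ T : Set (Fin k), T.ncard ≤ k := by
    intro T
    have := Set.ncard_le_ncard (Set.subset_univ T) (Set.toFinite _)
    simpa [Set.ncard_univ] using this
  have hle : (row G S '' S).ncard ≤ (lab '' S).ncard := by
    rw [hrows]; exact Set.ncard_image_le (Set.toFinite _)
  unfold cost
  by_cases hm : Mergeable G S x
  · rw [if_pos hm]
    have := hfin (lab '' S)
    omega
  rw [if_neg hm]
  by_cases hl : lab x ∈ lab '' S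
  · obtain ⟨b0, hb0, hb0x⟩ := hl
    have hrow0 : row G S b0 = row G S x := by
      ext z
      simp only [row, Set.mem_ofPred_eq]
      constructor
      · rintro ⟨hz, h⟩; exact ⟨hz, (h2 b0 hb0 hb0x z hz).mp h⟩
      · rintro ⟨hz, h⟩; exact ⟨hz, (h2 b0 hb0 hb0x z hz).mpr h⟩
    have : ∃ b ∈ S, row G S b = row G S x ∧ ∃ z ∈ S, G x z ∧ ¬ G b z := by
      by_contra hcon
      push Not at hcon
      exact hm ⟨⟨b0, hb0, hrow0⟩, fun b hb hbx z hz hxz => hcon b hb hbx z hz hxz⟩
    obtain ⟨b, hb, hbx, z, hz, hxz, hbz⟩ := this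
    have hne : lab b ≠ lab x := fun h => hbz (h3 b hb h z hz hxz)
    have hsub : row G S '' S ⊆ F '' (lab '' S \ {lab b}) := by
      rintro _ ⟨a, ha, rfl⟩
      by_cases hab : lab a = lab b
      · refine ⟨lab b0, ⟨⟨b0, hb0, rfl⟩, ?_⟩, ?_⟩
        · rw [Set.mem_singleton_iff, hb0x]; exact Ne.symm hne
        · rw [← hF b0 hb0, hrow0, ← hbx, hF b hb, hF a ha, hab]
      · exact ⟨lab a, ⟨⟨a, ha, rfl⟩, hab⟩, (hF a ha).symm⟩
    have h5 := (Set.ncard_le_ncard hsub (Set.toFinite _)).trans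
      (Set.ncard_image_le (Set.toFinite _))
    have h6 : (lab '' S \ {lab b}).ncard + 1 = (lab '' S).ncard :=
      Set.ncard_sdiff_singleton_add_one ⟨b, hb, rfl⟩ (Set.toFinite _)
    have := hfin (lab '' S)
    omega
  · have h7 : (insert (lab x) (lab '' S)).ncard = (lab '' S).ncard + 1 :=
      Set.ncard_insert_of_notMem hl (Set.toFinite _)
    have := hfin (insert (lab x) (lab '' S))
    omega

/-- adding the single vertex of one operand of a disjoint union to the other operand -/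
theorem union_step [Finite V] {G : V → V → Prop} (hG : ∀ v, ¬ G v v) {A B : Type} (φ₁ : A → V)
    (φ₂ : B → V) (lA : A → Fin k) (lB : B → Fin k) (x0 : B) (hB : ∀ y, y = x0)
    (hdis : ∀ a b, φ₁ a ≠ φ₂ b) (hinj : Function.Injective φ₁) (D : Fin k → Fin k → Prop)
    (hD : ∀ i, ¬ D i i) (g12 : ∀ a b, G (φ₁ a) (φ₂ b) ↔ D (lA a) (lB b))
    (g21 : ∀ a b, G (φ₂ b) (φ₁ a) ↔ D (lB b) (lA a))
    (g11 : ∀ a b, D (lA a) (lA b) → G (φ₁ a) (φ₁ b))
    (out1 : ∀ a b, lA a = lA b → ∀ z, z ∉ Set.range φ₁ ∪ Set.range φ₂ →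
      (G (φ₁ a) z ↔ G (φ₁ b) z))
    (out2 : ∀ a b, lA a = lB b → ∀ z, z ∉ Set.range φ₁ ∪ Set.range φ₂ →
      (G (φ₁ a) z ↔ G (φ₂ b) z)) :
    Step G k (Set.range φ₁) (Set.range φ₁ ∪ Set.range φ₂) ∧
      ∀ a b, lA a = lA b → ∀ z, z ∉ Set.range φ₁ → (G (φ₁ a) z ↔ G (φ₁ b) z) := by
  classical
  have hr : Set.range φ₁ ∪ Set.range φ₂ = insert (φ₂ x0) (Set.range φ₁) := by
    ext z
    constructor
    · rintro (h | ⟨a, rfl⟩)
      · exact Set.mem_insert_of_mem _ h
      · rw [hB a]; exact Set.mem_insert _ _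
    · rintro (rfl | h)
      · exact Or.inr ⟨x0, rfl⟩
      · exact Or.inl h
  have hnr : φ₂ x0 ∉ Set.range φ₁ := by
    rintro ⟨a, ha⟩
    exact hdis a x0 ha
  have hout : ∀ a b, lA a = lA b → ∀ z, z ∉ Set.range φ₁ → (G (φ₁ a) z ↔ G (φ₁ b) z) := by
    intro a b hab z hz
    by_cases hzr : z ∈ Set.range φ₁ ∪ Set.range φ₂
    · rw [hr] at hzr
      rcases hzr with rfl | hzr
      · rw [g12, g12, hab]
      · exact absurd hzr hz
    · exact out1 a b hab z hzr
  refine ⟨⟨φ₂ x0, hnr, hr, ?_⟩, hout⟩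
  let L : V → Fin k := fun v => if h : ∃ a : A, φ₁ a = v then lA h.choose else lB x0
  have hL : ∀ a, L (φ₁ a) = lA a := by
    intro a
    have h : ∃ a', φ₁ a' = φ₁ a := ⟨a, rfl⟩
    simp only [L, dif_pos h]
    rw [hinj h.choose_spec]
  have hLx : L (φ₂ x0) = lB x0 := by
    have h : ¬ ∃ a', φ₁ a' = φ₂ x0 := fun ⟨a, ha⟩ => hdis a x0 ha
    simp only [L, dif_neg h]
  apply cost_le_of_labels L
  · rintro _ ⟨a, rfl⟩ _ ⟨b, rfl⟩ hab z hz
    rw [hL, hL] at hab
    exact hout a b hab z hz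
  · rintro _ ⟨b, rfl⟩ hbx z hz
    rw [hL, hLx] at hbx
    by_cases hzr : z ∈ Set.range φ₁ ∪ Set.range φ₂
    · rw [hr] at hzr
      rcases hzr with rfl | hzr
      · rw [g12, hbx]
        exact ⟨fun h => absurd h (hD _), fun h => absurd h (hG _)⟩
      · exact absurd hzr hz
    · exact out2 b x0 hbx z hzr
  · rintro _ ⟨b, rfl⟩ hbx _ ⟨z, rfl⟩ hxz
    rw [hL, hLx] at hbx
    rw [g21] at hxz
    apply g11
    rw [hbx]
    exact hxz

/-- the layout of a linear expression inside a bigger graph -/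
theorem steps_of_expr [Finite V] {G : V → V → Prop} (hG : ∀ v, ¬ G v v) :
    ∀ (s : CExpr k) (_ : s.Linear) (φ : s.V → V) (_ : Function.Injective φ)
      (D : Fin k → Fin k → Prop) (_ : ∀ i, ¬ D i i)
      (_ : ∀ a b, G (φ a) (φ b) ↔ s.Adj a b ∨ D (s.lab a) (s.lab b))
      (_ : ∀ a b, s.lab a = s.lab b → ∀ z, z ∉ Set.range φ → (G (φ a) z ↔ G (φ b) z)),
      ReflTransGen (Step G k) ∅ (Set.range φ) := by
  intro s
  induction s with
  | single i =>
    intro _ φ hφ D hD h1 h2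
    refine ReflTransGen.single ⟨φ (), by simp, ?_, ?_⟩
    · ext z
      constructor
      · rintro ⟨⟨⟩, rfl⟩
        exact Set.mem_insert _ _
      · rintro (rfl | h)
        · exact ⟨(), rfl⟩
        · exact absurd h (Set.notMem_empty _)
    · exact cost_le_of_labels (fun _ => i)
        (fun a ha => absurd ha (Set.notMem_empty _)) (fun a ha => absurd ha (Set.notMem_empty _))
        (fun a ha => absurd ha (Set.notMem_empty _))
  | join i j hij s ih =>
    intro hl φ hφ D hD h1 h2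
    refine ih hl φ hφ (fun a b => D a b ∨ (a = i ∧ b = j) ∨ (a = j ∧ b = i)) ?_ ?_ h2
    · rintro a (h | h | h)
      · exact hD a h
      · exact hij (h.1.symm.trans h.2)
      · exact hij (h.2.symm.trans h.1)
    · intro a b
      rw [h1 a b]
      show (s.Adj a b ∨ _) ∨ D (s.lab a) (s.lab b) ↔ _
      tauto
  | relabel i j s ih =>
    intro hl φ hφ D hD h1 h2
    refine ih hl φ hφ (fun a b => D (if a = i then j else a) (if b = i then j else b)) ?_ ?_ ?_
    · intro a; exact hD _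
    · intro a b
      exact h1 a b
    · intro a b hab z hz
      refine h2 a b ?_ z hz
      show (if s.lab a = i then j else s.lab a) = (if s.lab b = i then j else s.lab b)
      rw [hab]
  | union s t ihs iht =>
    intro hl φ hφ D hD h1 h2
    obtain ⟨hs, ht, hone⟩ := hl
    let φ₁ : s.V → V := fun a => φ (Sum.inl a)
    let φ₂ : t.V → V := fun a => φ (Sum.inr a)
    have hrange : Set.range φ = Set.range φ₁ ∪ Set.range φ₂ := by
      ext z
      constructor
      · rintro ⟨a | a, rfl⟩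
        · exact Or.inl ⟨a, rfl⟩
        · exact Or.inr ⟨a, rfl⟩
      · rintro (⟨a, rfl⟩ | ⟨a, rfl⟩)
        · exact ⟨Sum.inl a, rfl⟩
        · exact ⟨Sum.inr a, rfl⟩
    have hi1 : Function.Injective φ₁ := fun a b hab => Sum.inl_injective (hφ hab)
    have hi2 : Function.Injective φ₂ := fun a b hab => Sum.inr_injective (hφ hab)
    have hdis : ∀ a b, φ₁ a ≠ φ₂ b := by
      intro a b hab
      have : (Sum.inl a : s.V ⊕ t.V) = Sum.inr b := hφ hab
      cases this
    have g11 : ∀ a b, G (φ₁ a) (φ₁ b) ↔ s.Adj a b ∨ D (s.lab a) (s.lab b) :=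
      fun a b => h1 (Sum.inl a) (Sum.inl b)
    have g22 : ∀ a b, G (φ₂ a) (φ₂ b) ↔ t.Adj a b ∨ D (t.lab a) (t.lab b) :=
      fun a b => h1 (Sum.inr a) (Sum.inr b)
    have g12 : ∀ a b, G (φ₁ a) (φ₂ b) ↔ D (s.lab a) (t.lab b) :=
      fun a b => (h1 (Sum.inl a) (Sum.inr b)).trans (iff_of_eq (false_or _))
    have g21 : ∀ a b, G (φ₂ b) (φ₁ a) ↔ D (t.lab b) (s.lab a) :=
      fun a b => (h1 (Sum.inr b) (Sum.inl a)).trans (iff_of_eq (false_or _))
    have o11 : ∀ a b, s.lab a = s.lab b → ∀ z, z ∉ Set.range φ₁ ∪ Set.range φ₂ →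
        (G (φ₁ a) z ↔ G (φ₁ b) z) := by
      rw [← hrange]
      exact fun a b => h2 (Sum.inl a) (Sum.inl b)
    have o22 : ∀ a b, t.lab a = t.lab b → ∀ z, z ∉ Set.range φ₁ ∪ Set.range φ₂ →
        (G (φ₂ a) z ↔ G (φ₂ b) z) := by
      rw [← hrange]
      exact fun a b => h2 (Sum.inr a) (Sum.inr b)
    have o12 : ∀ a b, s.lab a = t.lab b → ∀ z, z ∉ Set.range φ₁ ∪ Set.range φ₂ →
        (G (φ₁ a) z ↔ G (φ₂ b) z) := by
      rw [← hrange]
      exact fun a b => h2 (Sum.inl a) (Sum.inr b)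
    rcases hone with hone | hone
    · -- the left operand is a single vertex
      obtain ⟨hsub, ⟨x0⟩⟩ := Nat.card_eq_one_iff_unique.mp hone
      obtain ⟨k1, k2⟩ := union_step hG φ₂ φ₁ t.lab s.lab x0 (fun y => hsub.elim y x0)
        (fun a b h => hdis b a h.symm) hi2 D hD (fun a b => g21 b a) (fun a b => g12 b a)
        (fun a b h => (g22 a b).mpr (Or.inr h))
        (fun a b h z hz => o22 a b h z (by rw [Set.union_comm]; exact hz))
        (fun a b h z hz => (o12 b a h.symm z (by rw [Set.union_comm]; exact hz)).symm)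
      rw [hrange, Set.union_comm]
      exact (iht ht φ₂ hi2 D hD g22 k2).tail k1
    · -- the right operand is a single vertex
      obtain ⟨hsub, ⟨x0⟩⟩ := Nat.card_eq_one_iff_unique.mp hone
      obtain ⟨k1, k2⟩ := union_step hG φ₁ φ₂ s.lab t.lab x0 (fun y => hsub.elim y x0)
        hdis hi1 D hD g12 g21 (fun a b h => (g11 a b).mpr (Or.inr h)) o11 o12
      rw [hrange]
      exact (ihs hs φ₁ hi1 D hD g11 k2).tail k1

/-- the vertex type of an expression is finite -/
theorem CExpr.finite_V : ∀ s : CExpr k, Finite s.V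
  | .single _ => inferInstanceAs (Finite Unit)
  | .union s t => by
    have := s.finite_V
    have := t.finite_V
    exact inferInstanceAs (Finite (s.V ⊕ t.V))
  | .join _ _ _ s => s.finite_V
  | .relabel _ _ s => s.finite_V

/-- A graph built by a linear `k`-expression has a layout of cost at most `k`. -/
theorem comp_of_expr (s : CExpr k) (hs : s.Linear) : Comp s.Adj k ∅ := by
  have := s.finite_V
  have h := steps_of_expr (G := s.Adj) (k := k) (fun v => CExpr.not_adj_self s v)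
    s hs id Function.injective_id (fun _ _ => False)
    (fun _ h => h) (fun a b => by simp) (fun a b _ z hz => absurd ⟨z, rfl⟩ hz)
  rw [Set.range_id] at h
  exact h

end Pool.Agent.LCW
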