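import Mathlib
import Pool.Agent.LCW.ExprA

/-!
From layouts of cost at most `k` to linear `k`-expressions.
-/

namespace Pool.Agent.LCW

open Relation

variable {V : Type} {k : ℕ}

/-- Some linear `k`-expression builds the graph `adj` on `S` with labels `lab`. -/
def Rep (k : ℕ) (S : Set V) (adj : V → V → Prop) (lab : V → Fin k) : Prop :=
  ∃ e : CExpr k, e.Linear ∧ ∃ ψ : e.V → V, Function.Injective ψ ∧ Set.range ψ = S ∧
    (∀ a b, e.Adj a b ↔ adj (ψ a) (ψ b)) ∧ ∀ a, e.lab a = lab (ψ a)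

theorem Rep.congr {S : Set V} {adj adj' : V → V → Prop} {lab lab' : V → Fin k}
    (h : Rep k S adj lab) (h1 : ∀ a ∈ S, ∀ b ∈ S, (adj a b ↔ adj' a b))
    (h2 : ∀ a ∈ S, lab a = lab' a) : Rep k S adj' lab' := by
  obtain ⟨e, he, ψ, hψ, rfl, e1, e2⟩ := h
  exact ⟨e, he, ψ, hψ, rfl, fun a b => (e1 a b).trans (h1 _ ⟨a, rfl⟩ _ ⟨b, rfl⟩),
    fun a => (e2 a).trans (h2 _ ⟨a, rfl⟩)⟩

theorem Rep.single (x : V) (i : Fin k) {adj : V → V → Prop} (h : ¬ adj x x) :
    Rep k {x} adj (fun _ => i) := by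
  refine ⟨CExpr.single i, trivial, fun _ => x, fun _ _ _ => rfl, ?_, ?_, fun _ => rfl⟩
  · ext z
    constructor
    · rintro ⟨_, rfl⟩; rfl
    · rintro rfl; exact ⟨(), rfl⟩
  · intro a b
    exact ⟨fun h' => absurd h' (fun h => h), fun h' => absurd h' h⟩

theorem Rep.add {S : Set V} {adj : V → V → Prop} {lab : V → Fin k} (h : Rep k S adj lab) {x : V}
    (hx : x ∉ S) {adj' : V → V → Prop} {lab' : V → Fin k}
    (h1 : ∀ a ∈ S, ∀ b ∈ S, (adj a b ↔ adj' a b)) (h2 : ∀ a ∈ S, ¬ adj' a x ∧ ¬ adj' x a)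
    (h3 : ¬ adj' x x) (h4 : ∀ a ∈ S, lab a = lab' a) : Rep k (insert x S) adj' lab' := by
  obtain ⟨e, he, ψ, hψ, rfl, e1, e2⟩ := h
  let ψ' : e.V ⊕ Unit → V := Sum.elim ψ (fun _ => x)
  refine ⟨CExpr.union e (CExpr.single (lab' x)), ⟨he, trivial, Or.inr ?_⟩, ψ', ?_, ?_, ?_, ?_⟩
  · show Nat.card Unit = 1
    simp
  · rintro (a | a) (b | b) hab
    · exact congrArg Sum.inl (hψ hab)
    · exact absurd ⟨a, hab⟩ hx
    · exact absurd ⟨b, hab.symm⟩ hx
    · rfl
  · ext z
    constructor
    · rintro ⟨a | a, rfl⟩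
      · exact Set.mem_insert_of_mem _ ⟨a, rfl⟩
      · exact Set.mem_insert _ _
    · rintro (rfl | ⟨a, rfl⟩)
      · exact ⟨Sum.inr (), rfl⟩
      · exact ⟨Sum.inl a, rfl⟩
  · rintro (a | a) (b | b)
    · exact (e1 a b).trans (h1 _ ⟨a, rfl⟩ _ ⟨b, rfl⟩)
    · exact ⟨fun h' => absurd h' (fun h => h), fun h' => absurd h' (h2 _ ⟨a, rfl⟩).1⟩
    · exact ⟨fun h' => absurd h' (fun h => h), fun h' => absurd h' (h2 _ ⟨b, rfl⟩).2⟩
    · exact ⟨fun h' => absurd h' (fun h => h), fun h' => absurd h' h3⟩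
  · rintro (a | a)
    · exact (e2 a).trans (h4 _ ⟨a, rfl⟩)
    · rfl

theorem Rep.join {S : Set V} {adj : V → V → Prop} {lab : V → Fin k} (h : Rep k S adj lab)
    {i j : Fin k} (hij : i ≠ j) :
    Rep k S (fun a b => adj a b ∨ (lab a = i ∧ lab b = j) ∨ (lab a = j ∧ lab b = i)) lab := by
  obtain ⟨e, he, ψ, hψ, rfl, e1, e2⟩ := h
  refine ⟨CExpr.join i j hij e, he, ψ, hψ, rfl, ?_, e2⟩
  have h1 : ∀ a b : e.V, (e.Adj a b ∨ (e.lab a = i ∧ e.lab b = j) ∨
      (e.lab a = j ∧ e.lab b = i)) ↔ (adj (ψ a) (ψ b) ∨ (lab (ψ a) = i ∧ lab (ψ b) = j) ∨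
      (lab (ψ a) = j ∧ lab (ψ b) = i)) := by
    intro a b
    rw [e1, e2, e2]
  exact h1

theorem Rep.relabel {S : Set V} {adj : V → V → Prop} {lab : V → Fin k} (h : Rep k S adj lab)
    (i j : Fin k) : Rep k S adj (fun a => if lab a = i then j else lab a) := by
  obtain ⟨e, he, ψ, hψ, rfl, e1, e2⟩ := h
  refine ⟨CExpr.relabel i j e, he, ψ, hψ, rfl, e1, ?_⟩
  have h1 : ∀ a : e.V, (if e.lab a = i then j else e.lab a) =
      (if lab (ψ a) = i then j else lab (ψ a)) := by
    intro a
    rw [e2]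
  exact h1

theorem Rep.joinAll {S : Set V} {adj : V → V → Prop} {lab : V → Fin k} (h : Rep k S adj lab)
    (l : Fin k) (A : List (Fin k)) (hl : l ∉ A) :
    Rep k S (fun a b => adj a b ∨ (lab a = l ∧ lab b ∈ A) ∨ (lab a ∈ A ∧ lab b = l)) lab := by
  induction A with
  | nil => exact h.congr (fun a _ b _ => by simp) (fun _ _ => rfl)
  | cons i A ih =>
    have h1 := (ih (fun h' => hl (List.mem_cons_of_mem _ h'))).join
      (i := l) (j := i) (fun h' => hl (h' ▸ List.mem_cons_self))
    refine h1.congr (fun a _ b _ => ?_) (fun _ _ => rfl)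
    simp only [List.mem_cons]
    tauto

theorem Rep.relabelAll {S : Set V} {adj : V → V → Prop} {lab : V → Fin k} (h : Rep k S adj lab)
    (f : Fin k → Fin k) (hf : ∀ q, f (f q) = f q) : Rep k S adj (fun a => f (lab a)) := by
  have key : ∀ l : List (Fin k),
      Rep k S adj (fun a => if lab a ∈ l then f (lab a) else lab a) := by
    intro l
    induction l with
    | nil => exact h.congr (fun a _ b _ => Iff.rfl) (fun _ _ => by simp)
    | cons q l ih =>
      refine (ih.relabel q (f q)).congr (fun a _ b _ => Iff.rfl) (fun a _ => ?_)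
      by_cases h1 : lab a ∈ l
      · rw [if_pos h1, if_pos (List.mem_cons_of_mem _ h1)]
        by_cases h2 : f (lab a) = q
        · rw [if_pos h2, ← h2, hf]
        · rw [if_neg h2]
      · rw [if_neg h1]
        by_cases h2 : lab a = q
        · rw [if_pos h2, if_pos (h2 ▸ List.mem_cons_self), h2]
        · rw [if_neg h2, if_neg (by simp [h1, h2])]
  refine (key (List.finRange k)).congr (fun a _ b _ => Iff.rfl) (fun a _ => ?_)
  rw [if_pos (List.mem_finRange _)]

/-- Make the labels the classes of vertices with the same neighbours outside. -/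
theorem Rep.normalise {G : V → V → Prop} {S : Set V} {adj : V → V → Prop} {lab : V → Fin k}
    (h : Rep k S adj lab) (hne : Nonempty (Fin k))
    (hval : ∀ a ∈ S, ∀ b ∈ S, lab a = lab b → row G S a = row G S b) :
    ∃ lab' : V → Fin k, Rep k S adj lab' ∧
      ∀ a ∈ S, ∀ b ∈ S, (lab' a = lab' b ↔ row G S a = row G S b) := by
  classical
  let ρ : Set V → Fin k := fun T => if h : ∃ a ∈ S, row G S a = T then lab h.choose else hne.some
  let f : Fin k → Fin k := fun q => if h : ∃ a ∈ S, lab a = q then ρ (row G S h.choose) else q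
  have hρ : ∀ a ∈ S, ∃ a' ∈ S, row G S a' = row G S a ∧ ρ (row G S a) = lab a' := by
    intro a ha
    have h1 : ∃ a' ∈ S, row G S a' = row G S a := ⟨a, ha, rfl⟩
    exact ⟨h1.choose, h1.choose_spec.1, h1.choose_spec.2, by simp only [ρ, dif_pos h1]⟩
  have hf : ∀ a ∈ S, f (lab a) = ρ (row G S a) := by
    intro a ha
    have h1 : ∃ a' ∈ S, lab a' = lab a := ⟨a, ha, rfl⟩
    simp only [f, dif_pos h1]
    rw [hval _ h1.choose_spec.1 a ha h1.choose_spec.2]
  have hidem : ∀ q, f (f q) = f q := by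
    intro q
    by_cases h1 : ∃ a ∈ S, lab a = q
    · obtain ⟨a, ha, rfl⟩ := h1
      obtain ⟨a', ha', e1, e2⟩ := hρ a ha
      rw [hf a ha, e2, hf a' ha', e1, e2]
    · simp only [f, dif_neg h1]
  refine ⟨fun a => f (lab a), h.relabelAll f hidem, ?_⟩
  intro a ha b hb
  simp only [hf a ha, hf b hb]
  constructor
  · intro hab
    obtain ⟨a', ha', e1, e2⟩ := hρ a ha
    obtain ⟨b', hb', e3, e4⟩ := hρ b hb
    rw [e2, e4] at hab
    rw [← e1, ← e3]
    exact hval a' ha' b' hb' hab
  · intro hab; rw [hab]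

theorem Rep.step [Finite V] {G : V → V → Prop} (hG : ∀ v, ¬ G v v) (hGs : ∀ a b, G a b → G b a)
    {S : Set V} {lab : V → Fin k} (h : Rep k S G lab)
    (hex : ∀ a ∈ S, ∀ b ∈ S, (lab a = lab b ↔ row G S a = row G S b)) {x : V} (hx : x ∉ S)
    (hc : cost G S x ≤ k) (hne : Nonempty (Fin k)) :
    ∃ lab' : V → Fin k, Rep k (insert x S) G lab' ∧
      ∀ a ∈ insert x S, ∀ b ∈ insert x S,
        (lab' a = lab' b ↔ row G (insert x S) a = row G (insert x S) b) := by
  classical
  -- the label of the new vertex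
  obtain ⟨l, hl⟩ : ∃ l : Fin k, ∀ b ∈ S, lab b = l →
      row G S b = row G S x ∧ ∀ z ∈ S, G x z → G b z := by
    unfold cost at hc
    by_cases hm : Mergeable G S x
    · obtain ⟨⟨b0, hb0, hb0x⟩, h2⟩ := hm
      refine ⟨lab b0, fun b hb hbl => ?_⟩
      have : row G S b = row G S x := ((hex b hb b0 hb0).mp hbl).trans hb0x
      exact ⟨this, h2 b hb this⟩
    · rw [if_neg hm] at hc
      let ρ : Set V → Fin k := fun T => if h : ∃ a ∈ S, row G S a = T then lab h.choose
        else hne.some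
      have hsub : lab '' S ⊆ ρ '' (row G S '' S) := by
        rintro _ ⟨a, ha, rfl⟩
        refine ⟨row G S a, ⟨a, ha, rfl⟩, ?_⟩
        have h1 : ∃ a' ∈ S, row G S a' = row G S a := ⟨a, ha, rfl⟩
        simp only [ρ, dif_pos h1]
        exact (hex _ h1.choose_spec.1 a ha).mpr h1.choose_spec.2
      have h3 := (Set.ncard_le_ncard hsub (Set.toFinite _)).trans
        (Set.ncard_image_le (Set.toFinite _))
      have h4 : ∃ l : Fin k, l ∉ lab '' S := by
        by_contra hcon
        push Not at hcon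
        have h5 : lab '' S = Set.univ := Set.eq_univ_of_forall hcon
        rw [h5, Set.ncard_univ, Nat.card_eq_fintype_card, Fintype.card_fin] at h3
        omega
      obtain ⟨l, hl⟩ := h4
      exact ⟨l, fun b hb hbl => absurd ⟨b, hb, hbl⟩ hl⟩
  -- labels of the neighbours of `x`
  let A : List (Fin k) := (List.finRange k).filter (fun q => decide (∃ a ∈ S, lab a = q ∧ G a x))
  have hA : ∀ q, q ∈ A ↔ ∃ a ∈ S, lab a = q ∧ G a x := by
    intro q
    simp [A]
  have hAS : ∀ b ∈ S, (lab b ∈ A ↔ G b x) := by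
    intro b hb
    rw [hA]
    constructor
    · rintro ⟨a, ha, hab, hax⟩
      have h1 := (hex a ha b hb).mp hab
      have h2 : x ∈ row G S a := ⟨hx, hax⟩
      rw [h1] at h2
      exact h2.2
    · intro hbx
      exact ⟨b, hb, rfl, hbx⟩
  have hlA : l ∉ A := by
    rw [hA]
    rintro ⟨a, ha, hal, hax⟩
    have h1 := (hl a ha hal).1
    have h2 : x ∈ row G S a := ⟨hx, hax⟩
    rw [h1] at h2
    exact hG x h2.2
  have hneS : ∀ a ∈ S, a ≠ x := fun a ha hax => hx (hax ▸ ha)
  -- add the vertex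
  have h1 : Rep k (insert x S) (fun a b => a ≠ x ∧ b ≠ x ∧ G a b) (Function.update lab x l) := by
    refine h.add hx ?_ ?_ ?_ ?_
    · intro a ha b hb
      exact ⟨fun h' => ⟨hneS a ha, hneS b hb, h'⟩, fun h' => h'.2.2⟩
    · intro a _
      exact ⟨fun h' => h'.2.1 rfl, fun h' => h'.1 rfl⟩
    · exact fun h' => h'.1 rfl
    · intro a ha
      rw [Function.update_of_ne (hneS a ha)]
  have hux : Function.update lab x l x = l := Function.update_self _ _ _
  have huS : ∀ a ∈ S, Function.update lab x l a = lab a := fun a ha =>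
    Function.update_of_ne (hneS a ha) _ _
  -- add its edges
  have h2 := h1.joinAll l A hlA
  have h3 : Rep k (insert x S) G (Function.update lab x l) := by
    refine h2.congr ?_ (fun _ _ => rfl)
    intro a ha b hb
    rcases ha with hax | ha <;> rcases hb with hbx | hb
    · rw [hax, hbx, hux]
      have := hG x
      tauto
    · rw [hax, hux, huS b hb]
      have e1 := hAS b hb
      have e2 : G x b ↔ G b x := ⟨hGs _ _, hGs _ _⟩
      tauto
    · rw [hbx, hux, huS a ha]
      have e1 := hAS a ha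
      tauto
    · rw [huS a ha, huS b hb]
      have e1 := hAS b hb
      have e2 := hAS a ha
      constructor
      · rintro (h' | ⟨h4, h5⟩ | ⟨h4, h5⟩)
        · exact h'.2.2
        · exact (hl a ha h4).2 b hb (hGs _ _ (e1.mp h5))
        · exact hGs _ _ ((hl b hb h5).2 a ha (hGs _ _ (e2.mp h4)))
      · intro h'
        exact Or.inl ⟨hneS a ha, hneS b hb, h'⟩
  refine h3.normalise hne ?_
  -- the labels are valid
  have hrow : ∀ a b, row G S a = row G S b → row G (insert x S) a = row G (insert x S) b := by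
    intro a b hab
    ext z
    have h4 : z ∈ row G S a ↔ z ∈ row G S b := by rw [hab]
    simp only [row, Set.mem_ofPred_eq, Set.mem_insert_iff, not_or] at h4 ⊢
    tauto
  rintro a (rfl | ha) b (rfl | hb) hab
  · rfl
  · rw [hux, huS b hb] at hab
    exact (hrow _ _ (hl b hb hab.symm).1).symm
  · rw [hux, huS a ha] at hab
    exact hrow _ _ (hl a ha hab).1
  · rw [huS a ha, huS b hb] at hab
    exact hrow _ _ ((hex a ha b hb).mp hab)

/-- A layout of cost at most `k` gives a linear `k`-expression. -/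
theorem expr_of_comp [Finite V] [Nonempty V] (G : SimpleGraph V) (hk : 1 ≤ k)
    (h : Comp G.Adj k ∅) : ∃ s : CExpr k, s.Linear ∧ Nonempty (s.graph ≃g G) := by
  have hne : Nonempty (Fin k) := ⟨⟨0, hk⟩⟩
  have hG : ∀ v, ¬ G.Adj v v := fun v => G.loopless.irrefl v
  have hGs : ∀ a b, G.Adj a b → G.Adj b a := fun a b h => h.symm
  have key : ∀ S, ReflTransGen (Step G.Adj k) ∅ S → S = ∅ ∨ ∃ lab : V → Fin k,
      Rep k S G.Adj lab ∧ ∀ a ∈ S, ∀ b ∈ S, (lab a = lab b ↔ row G.Adj S a = row G.Adj S b) := by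
    intro S hS
    induction hS with
    | refl => exact Or.inl rfl
    | tail _ hs ih =>
      obtain ⟨x, hx, rfl, hc⟩ := hs
      right
      rcases ih with rfl | ⟨lab, h1, h2⟩
      · refine ⟨fun _ => ⟨0, hk⟩, ?_, ?_⟩
        · rw [insert_empty_eq]
          exact Rep.single x _ (hG x)
        · rintro a (rfl | ha) b (rfl | hb)
          · exact ⟨fun _ => rfl, fun _ => rfl⟩
          · exact absurd hb (Set.notMem_empty _)
          · exact absurd ha (Set.notMem_empty _)
          · exact absurd ha (Set.notMem_empty _)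
      · exact h1.step hG hGs h2 hx hc hne
  rcases key Set.univ h with h0 | ⟨lab, ⟨e, he, ψ, hψ, hr, e1, _⟩, _⟩
  · exact absurd h0 (Set.univ_nonempty.ne_empty)
  · have hbij : Function.Bijective ψ := ⟨hψ, Set.range_eq_univ.mp hr⟩
    refine ⟨e, he, ⟨⟨Equiv.ofBijective ψ hbij, ?_⟩⟩⟩
    intro a b
    exact (e1 a b).symm

/-- every graph has a layout of cost at most the number of vertices plus one -/
theorem comp_card [Finite V] (G : V → V → Prop) : Comp G (Nat.card V + 1) ∅ := by
  classical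
  have hcost : ∀ S x, cost G S x ≤ Nat.card V + 1 := by
    intro S x
    unfold cost
    have h1 : (row G S '' S).ncard ≤ S.ncard := Set.ncard_image_le (Set.toFinite _)
    have h2 : S.ncard ≤ Nat.card V := by
      rw [← Set.ncard_univ]
      exact Set.ncard_le_ncard (Set.subset_univ _) (Set.toFinite _)
    split <;> omega
  have key : ∀ n, ∀ S : Set V, Sᶜ.ncard = n → Comp G (Nat.card V + 1) S := by
    intro n
    induction n with
    | zero =>
      intro S hS
      rw [Set.ncard_eq_zero (Set.toFinite _), Set.compl_empty_iff] at hS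
      rw [hS]
      exact ReflTransGen.refl
    | succ n ih =>
      intro S hS
      obtain ⟨x, hx⟩ : (Sᶜ).Nonempty := by
        rw [Set.nonempty_iff_ne_empty]
        intro h0
        rw [h0, Set.ncard_empty] at hS
        omega
      refine ReflTransGen.head ⟨x, hx, rfl, hcost S x⟩ (ih (insert x S) ?_)
      have h1 : (insert x S)ᶜ = Sᶜ \ {x} := by
        ext z; simp [not_or, and_comm]
      have h2 := Set.ncard_sdiff_singleton_add_one hx (Set.toFinite _)
      rw [h1]
      omega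
  exact key _ ∅ rfl

/-- the layout characterization of linear clique-width -/
theorem lcw_le_iff [Finite V] [Nonempty V] (G : SimpleGraph V) (hk : 1 ≤ k) :
    lcw G ≤ k ↔ Comp G.Adj k ∅ := by
  have hmem : ∀ j, (∃ s : CExpr j, s.Linear ∧ Nonempty (s.graph ≃g G)) → Comp G.Adj j ∅ := by
    rintro j ⟨s, hs, ⟨e⟩⟩
    have h := comp_of_expr s hs
    have := (comp_equiv_iff e.toEquiv (adj := s.Adj) (adj' := G.Adj)
      (fun u v => e.map_rel_iff) (c := j) (S := ∅)).mpr h
    rwa [Set.image_empty] at this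
  constructor
  · intro h
    have hne : {j | ∃ s : CExpr j, s.Linear ∧ Nonempty (s.graph ≃g G)}.Nonempty :=
      ⟨_, expr_of_comp G (by omega) (comp_card G.Adj)⟩
    exact (hmem _ (Nat.sInf_mem hne)).mono h
  · intro h
    exact Nat.sInf_le (expr_of_comp G hk h)

end Pool.Agent.LCW
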