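import Mathlib
import Pool.Agent.LCW.Algo
import Pool.Agent.LCW.ExprB

/-!
Graphs of linear clique-width at most `c` are recognised in polynomial time.
-/

namespace Pool.Agent.LCW

open FP Relation

/-! ### the adjacency matrix -/

section matrix

variable {n : ℕ} (G : SimpleGraph (Fin n))

theorem length_matrix : (matrix G).length = n * n := by
  simp [matrix]

theorem nE_matrix : nE (matrix G) = n := by
  unfold nE
  rw [length_matrix, Nat.sqrt_eq]

theorem getD_matrix (i j : Fin n) : (matrix G).getD (i * n + j) false = true ↔ G.Adj i j := by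
  classical
  have hlt : (i : ℕ) * n + j < n * n := by
    have h1 := i.2
    have h2 := j.2
    calc (i : ℕ) * n + j < i * n + n := by omega
      _ = (i + 1) * n := by ring
      _ ≤ n * n := Nat.mul_le_mul_right _ (by omega)
  have hn : 0 < n := i.pos
  rw [List.getD_eq_getElem _ _ (by rw [length_matrix]; exact hlt)]
  simp only [matrix, List.getElem_ofFn, decide_eq_true_iff]
  have e1 : (⟨(i : ℕ) * n + j, hlt⟩ : Fin (n * n)).divNat = i := by
    apply Fin.ext
    simp only [Fin.coe_divNat]
    rw [Nat.add_comm, Nat.add_mul_div_right _ _ hn, Nat.div_eq_of_lt j.2, Nat.zero_add]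
  have e2 : (⟨(i : ℕ) * n + j, hlt⟩ : Fin (n * n)).modNat = j := by
    apply Fin.ext
    simp only [Fin.coe_modNat]
    rw [Nat.add_comm, Nat.add_mul_mod_self_right, Nat.mod_eq_of_lt j.2]
  rw [e1, e2]

theorem gE_matrix (i j : Fin n) : gE (matrix G) i j = true ↔ G.Adj i j := by
  unfold gE
  rw [nE_matrix]
  simp only [i.2, j.2, decide_true, Bool.true_and]
  exact getD_matrix G i j

theorem gE_ge {x : List Bool} {i j : ℕ} (h : nE x ≤ i ∨ nE x ≤ j) : gE x i j = false := by
  unfold gE
  rcases h with h | h
  · simp [Nat.not_lt.mpr h]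
  · simp [Nat.not_lt.mpr h]

theorem gE_matrix_symm (a b : ℕ) : gE (matrix G) a b = gE (matrix G) b a := by
  by_cases ha : a < n
  · by_cases hb : b < n
    · have h1 := gE_matrix G ⟨a, ha⟩ ⟨b, hb⟩
      have h2 := gE_matrix G ⟨b, hb⟩ ⟨a, ha⟩
      rw [Bool.eq_iff_iff]
      exact h1.trans ((G.adj_comm _ _).trans h2.symm)
    · rw [gE_ge (Or.inr (by rw [nE_matrix]; omega)), gE_ge (Or.inl (by rw [nE_matrix]; omega))]
  · rw [gE_ge (Or.inl (by rw [nE_matrix]; omega)), gE_ge (Or.inr (by rw [nE_matrix]; omega))]

theorem gE_matrix_irr (a : ℕ) : gE (matrix G) a a = false := by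
  by_cases ha : a < n
  · have h1 := gE_matrix G ⟨a, ha⟩ ⟨a, ha⟩
    rw [Bool.eq_false_iff]
    intro h
    exact G.loopless.irrefl _ (h1.mp h)
  · rw [gE_ge (Or.inl (by rw [nE_matrix]; omega))]

end matrix

/-- the valid inputs -/
def validB (x : List Bool) : Bool :=
  decide (nE x * nE x = x.length) && (List.range (nE x)).all fun i =>
    (List.range (nE x)).all fun j =>
      !(Bool.xor (gE x i j) (gE x j i)) && !(gE x i i)

theorem poly_validB : Poly validB := by
  unfold validB
  fun_prop

theorem xor_iff (a b : Bool) : (a ^^ b) = false ↔ a = b := by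
  cases a <;> cases b <;> simp

theorem validB_iff (x : List Bool) :
    validB x = true ↔ ∃ (n : ℕ) (G : SimpleGraph (Fin n)), x = matrix G := by
  classical
  constructor
  · intro h
    unfold validB at h
    rw [Bool.and_eq_true, decide_eq_true_iff] at h
    obtain ⟨h1, h2⟩ := h
    simp only [List.all_eq_true, List.mem_range, Bool.and_eq_true, Bool.not_eq_true',
      xor_iff] at h2
    refine ⟨nE x, ⟨fun i j => gE x i j = true, ⟨fun i j hij => ?_⟩, ⟨fun i hi => ?_⟩⟩, ?_⟩
    · have := (h2 i i.2 j j.2).1
      rw [← this]; exact hij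
    · have := (h2 i i.2 i i.2).2
      rw [this] at hi
      exact absurd hi (by simp)
    · apply List.ext_getElem
      · rw [length_matrix, h1]
      · intro k hk hk'
        have hk2 : k < nE x * nE x := by rw [h1]; exact hk
        have hn : 0 < nE x := by
          rcases Nat.eq_zero_or_pos (nE x) with h0 | h0
          · rw [h0] at hk2; omega
          · exact h0
        simp only [matrix, List.getElem_ofFn]
        have e1 : k / nE x < nE x := Nat.div_lt_of_lt_mul hk2
        have e2 : k % nE x < nE x := Nat.mod_lt _ hn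
        have e3 : k / nE x * nE x + k % nE x = k := Nat.div_add_mod' k (nE x)
        have aux : ∀ (p : Prop) (hp : Decidable p), (x[k] = true ↔ p) → x[k] = @decide p hp := by
          intro p hp h
          by_cases hpp : p
          · rw [h.mpr hpp]; simp [hpp]
          · rw [Bool.eq_false_iff.mpr (fun h' => hpp (h.mp h'))]; simp [hpp]
        apply aux
        show x[k] = true ↔ gE x (k / nE x) (k % nE x) = true
        unfold gE
        rw [e3, List.getD_eq_getElem _ _ hk]
        simp [e1, e2]
  · rintro ⟨n, G, rfl⟩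
    unfold validB
    rw [Bool.and_eq_true, decide_eq_true_iff, nE_matrix, length_matrix]
    refine ⟨rfl, ?_⟩
    simp only [List.all_eq_true, List.mem_range, Bool.and_eq_true, Bool.not_eq_true', xor_iff]
    intro i _ j _
    exact ⟨gE_matrix_symm G i j, gE_matrix_irr G i⟩

theorem matrix_injective {n m : ℕ} {G : SimpleGraph (Fin n)} {H : SimpleGraph (Fin m)}
    (h : matrix G = matrix H) : ∃ e : n = m, e ▸ G = H := by
  have hnm : n = m := by rw [← nE_matrix G, h, nE_matrix]
  subst hnm
  refine ⟨rfl, ?_⟩
  ext i j
  rw [← gE_matrix G, h, gE_matrix]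

theorem lcw_empty (G : SimpleGraph (Fin 0)) : lcw G = 0 := by
  unfold lcw
  have : {k | ∃ s : CExpr k, s.Linear ∧ Nonempty (s.graph ≃g G)} = ∅ := by
    rw [Set.eq_empty_iff_forall_notMem]
    rintro k ⟨s, _, ⟨e⟩⟩
    have hne : ∀ s : CExpr k, Nonempty s.V := by
      intro s
      induction s with
      | single i => exact ⟨()⟩
      | union s t hs _ => exact hs.map Sum.inl
      | join _ _ _ s hs => exact hs
      | relabel _ _ s hs => exact hs
    obtain ⟨v⟩ := hne s
    exact (e v).elim0
  rw [this, Nat.sInf_empty]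

theorem one_le_lcw {n : ℕ} (G : SimpleGraph (Fin (n + 1))) : 1 ≤ lcw G := by
  by_contra hcon
  have h0 : lcw G = 0 := by omega
  have hne : {k | ∃ s : CExpr k, s.Linear ∧ Nonempty (s.graph ≃g G)}.Nonempty :=
    ⟨_, expr_of_comp G (by omega) (comp_card G.Adj)⟩
  have h1 := Nat.sInf_mem hne
  unfold lcw at h0
  rw [h0] at h1
  obtain ⟨s, _, ⟨e⟩⟩ := h1
  exact (s.lab (e.symm 0)).elim0

theorem lcwLang_mem_P (c : ℕ) : lcwLang c ∈ P := by
  classical
  rcases Nat.eq_zero_or_pos c with rfl | hc
  · refine ⟨fun x => decide (x = []), ?_, ?_⟩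
    · exact PolyPred.polyTime_str (PolyPred.eq (by fun_prop) (FP.Poly.const _))
    · intro x
      rw [decide_eq_true_iff]
      constructor
      · rintro ⟨n, G, rfl, h⟩
        cases n with
        | zero => exact List.length_eq_zero_iff.mp (by rw [length_matrix])
        | succ n => have := one_le_lcw G; omega
      · rintro rfl
        refine ⟨0, ⊥, ?_, (lcw_empty _).le⟩
        exact (List.length_eq_zero_iff.mp (by rw [length_matrix])).symm
  · have : Inhabited (Fin c) := ⟨⟨0, hc⟩⟩
    obtain ⟨A, hA⟩ := exists_aut c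
    have hpoly : Poly (fun x => validB x && algoB A x) :=
      Poly.and poly_validB (poly_algoB A)
    refine ⟨fun x => validB x && algoB A x, ?_, ?_⟩
    · have h1 := PolyPred.polyTime_str (p := fun x => (validB x && algoB A x) = true)
        (Poly.pred hpoly)
      have h2 : (fun x => decide ((validB x && algoB A x) = true)) =
          fun x => validB x && algoB A x := by
        funext x; simp
      rwa [h2] at h1
    · intro x
      rw [Bool.and_eq_true, validB_iff]
      have key : ∀ (n : ℕ) (G : SimpleGraph (Fin n)),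
          algoB A (matrix G) = true ↔ lcw G ≤ c := by
        intro n G
        rw [algoB_correct hA hc (matrix G) (gE_matrix_symm G) (gE_matrix_irr G), nE_matrix]
        unfold GComp
        have h3 : (fun a b : Fin n => gE (matrix G) a b = true) = G.Adj := by
          funext a b
          exact propext (gE_matrix G a b)
        have h4 : {a : Fin n | (a : ℕ) ∈ (∅ : Set ℕ)} = ∅ := by ext; simp
        rw [h3, h4]
        cases n with
        | zero =>
          rw [lcw_empty]
          refine ⟨fun _ => Nat.zero_le _, fun _ => ?_⟩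
          unfold Comp
          rw [show (∅ : Set (Fin 0)) = Set.univ from
            (Set.eq_univ_of_forall fun a => a.elim0)]
        | succ n => exact (lcw_le_iff G hc).symm
      constructor
      · rintro ⟨n, G, rfl, h⟩
        exact ⟨⟨n, G, rfl⟩, (key n G).mpr h⟩
      · rintro ⟨⟨n, G, rfl⟩, h⟩
        exact ⟨n, G, rfl, (key n G).mp h⟩

end Pool.Agent.LCW
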